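import Mathlib
import Pool.Graph.R_seed8.W130.HL.Conj

set_option autoImplicit false

/-!
# Auxiliary functions for integral symmetric matrices with controlled traces

The counting principle behind the bounds for median eigenvalues, for an arbitrary symmetric integral
matrix `A` for which there are numbers `k v ≤ d` with `tr A = 0`, `tr A^2 = ∑ k v` and
`tr A^4 ≥ ∑ (2 (k v)^2 - k v)` and whose eigenvalues have absolute value at most `d`.
-/

namespace Pool.Agent.KS6_66.MO

open Matrix Polynomial Finset Pool.Agent.W130.HL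

/-- the properties of a symmetric matrix that are used -/
structure Good {V : Type*} [Fintype V] [DecidableEq V] (A : Matrix V V ℝ) (hA : A.IsHermitian)
    (M : Matrix V V ℤ) (d : ℕ) (k : V → ℕ) : Prop where
  int : A = M.map (Int.castRingHom ℝ)
  bound : ∀ i, |hA.eigenvalues i| ≤ d
  deg : ∀ v, k v ≤ d
  tr1 : A.trace = 0
  tr2 : (A ^ 2).trace = ∑ v, (k v : ℝ)
  tr4 : ∑ v, (2 * (k v : ℝ) ^ 2 - k v) ≤ (A ^ 4).trace

section

variable {V : Type*} [Fintype V] [DecidableEq V] {A : Matrix V V ℝ} {hA : A.IsHermitian}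
  {M : Matrix V V ℤ} {d : ℕ} {k : V → ℕ}

/-- The two sides of the trace estimate. -/
theorem Good.key_gen (hG : Good A hA M d k) (a0 a1 a2 a4 : ℝ) (h4 : a4 ≤ 0)
    (L : List (ℤ[X] × ℝ)) (hL : ∀ q ∈ L, 0 ≤ q.2) :
    ∑ i, (a0 + a1 * hA.eigenvalues i + a2 * hA.eigenvalues i ^ 2 +
        a4 * hA.eigenvalues i ^ 4 -
        (L.map (fun q => q.2 * Real.log |aeval (hA.eigenvalues i) q.1|)).sum) ≤
      ∑ v : V, (a0 + a2 * (k v : ℝ) + a4 * (2 * (k v : ℝ) ^ 2 - k v)) := by
  set lam := hA.eigenvalues with hlam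
  have htr : ∀ k : ℕ, ∑ i, lam i ^ k = (A ^ k).trace := fun k => (trace_pow hA k).symm
  have hlog : 0 ≤ ∑ i, (L.map (fun q => q.2 * Real.log |aeval (lam i) q.1|)).sum := by
    induction L with
    | nil => simp
    | cons q L ih =>
      simp only [List.map_cons, List.sum_cons]
      rw [Finset.sum_add_distrib, ← Finset.mul_sum]
      have h1 := integrality hA M hG.int q.1
      have h2 : 0 ≤ q.2 := hL q (List.mem_cons_self ..)
      have h3 := ih (fun q hq => hL q (List.mem_cons_of_mem _ hq))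
      have := mul_nonneg h2 h1
      linarith
  have hs0 : ∑ _i : V, a0 = a0 * Fintype.card V := by
    rw [Finset.sum_const, nsmul_eq_mul, Finset.card_univ]; ring
  have hs1 : ∑ i, a1 * lam i = 0 := by
    rw [← Finset.mul_sum]
    have := htr 1
    simp only [pow_one, hG.tr1] at this
    rw [this, mul_zero]
  have hs2 : ∑ i, a2 * lam i ^ 2 = ∑ v, a2 * (k v : ℝ) := by
    rw [← Finset.mul_sum, htr 2, hG.tr2, Finset.mul_sum]
  have hs4 : ∑ i, a4 * lam i ^ 4 ≤ ∑ v, a4 * (2 * (k v : ℝ) ^ 2 - k v) := by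
    rw [← Finset.mul_sum, ← Finset.mul_sum, htr 4]
    exact mul_le_mul_of_nonpos_left hG.tr4 h4
  calc ∑ i, (a0 + a1 * lam i + a2 * lam i ^ 2 +
        a4 * lam i ^ 4 - (L.map (fun q => q.2 * Real.log |aeval (lam i) q.1|)).sum)
      = a0 * Fintype.card V + 0 + (∑ i, a2 * lam i ^ 2) +
        (∑ i, a4 * lam i ^ 4) -
        ∑ i, (L.map (fun q => q.2 * Real.log |aeval (lam i) q.1|)).sum := by
        rw [Finset.sum_sub_distrib]
        simp only [Finset.sum_add_distrib]
        rw [hs0, hs1]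
    _ ≤ a0 * Fintype.card V + ∑ v, a2 * (k v : ℝ) +
        ∑ v, a4 * (2 * (k v : ℝ) ^ 2 - k v) := by
        rw [hs2]; linarith
    _ = ∑ v : V, (a0 + a2 * (k v : ℝ) + a4 * (2 * (k v : ℝ) ^ 2 - k v)) := by
        rw [Finset.sum_add_distrib, Finset.sum_add_distrib, hs0]

lemma card_eq_sum (hA : A.IsHermitian) (p : ℝ → Prop) [DecidablePred p] :
    ((univ.filter (fun i => p (hA.eigenvalues i))).card : ℝ) =
      ∑ i, (if p (hA.eigenvalues i) then (1 : ℝ) else 0) := by
  rw [← Finset.sum_filter, Finset.sum_const, nsmul_eq_mul, mul_one]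

lemma charpoly_cast' (h : A = M.map (Int.castRingHom ℝ)) : A.charpoly =
    (M.charpoly.map (Int.castRingHom ℚ)).map (algebraMap ℚ ℝ) := by
  rw [h, Matrix.charpoly_map, Polynomial.map_map]
  congr 1

lemma card_eq_rootMult' (hA : A.IsHermitian) (r : ℝ) :
    (univ.filter (fun i => hA.eigenvalues i = r)).card =
      rootMultiplicity r A.charpoly := by
  classical
  rw [← Polynomial.count_roots, hA.roots_charpoly_eq_eigenvalues, Multiset.count_map]
  rw [Finset.card_def, Finset.filter_val]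
  congr 1
  apply Multiset.filter_congr
  intro i _
  simp only [Function.comp]
  constructor
  · intro h; rw [h]; rfl
  · intro h; rw [h]; rfl

/-- all real roots of an irreducible polynomial are eigenvalues of the same multiplicity -/
lemma Good.exists_count (hG : Good A hA M d k) (q : ℤ[X])
    (hq : Irreducible (q.map (Int.castRingHom ℚ))) :
    ∃ m : ℕ, ∀ r : ℝ, aeval r q = 0 →
      (univ.filter (fun i => hA.eigenvalues i = r)).card = m := by
  obtain ⟨m, hm⟩ := exists_mult (q.map (Int.castRingHom ℚ))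
    (M.charpoly.map (Int.castRingHom ℚ)) hq
    ((Matrix.charpoly_monic _).map _).ne_zero
  refine ⟨m, fun r hr => ?_⟩
  rw [card_eq_rootMult', charpoly_cast' hG.int]
  apply hm
  rw [← algebraMap_int_eq, Polynomial.aeval_map_algebraMap]
  exact hr

/-- the contribution of the root blocks is nonnegative -/
lemma Good.block_nonneg (hG : Good A hA M d k) (q : ℤ[X])
    (hq : Irreducible (q.map (Int.castRingHom ℚ)))
    (rs : List (ℝ × ℝ)) (hroot : ∀ p ∈ rs, aeval p.1 q = 0)
    (hsum : 0 ≤ (rs.map Prod.snd).sum) :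
    0 ≤ ∑ i, (rs.map (fun p => if hA.eigenvalues i = p.1 then p.2 else 0)).sum := by
  obtain ⟨m, hm⟩ := hG.exists_count q hq
  have key : ∑ i, (rs.map (fun p => if hA.eigenvalues i = p.1 then p.2 else 0)).sum =
      m * (rs.map Prod.snd).sum := by
    clear hsum
    induction rs with
    | nil => simp
    | cons p rs ih =>
      simp only [List.map_cons, List.sum_cons]
      rw [Finset.sum_add_distrib, ih (fun p' hp' => hroot p' (List.mem_cons_of_mem _ hp'))]
      have h1 : ∑ i, (if hA.eigenvalues i = p.1 then p.2 else 0) = m * p.2 := by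
        rw [← Finset.sum_filter, Finset.sum_const, nsmul_eq_mul,
          hm p.1 (hroot p (List.mem_cons_self ..))]
      rw [h1]
      ring
  rw [key]
  positivity

/-- a primitive irreducible polynomial which is not monic has no eigenvalue as a root -/
lemma Good.no_root (hG : Good A hA M d k) (q : ℤ[X])
    (hq : Irreducible (q.map (Int.castRingHom ℚ))) (hprim : q.IsPrimitive)
    (hlc : ¬ IsUnit q.leadingCoeff) (i : V) : aeval (hA.eigenvalues i) q ≠ 0 := by
  intro h
  set r := hA.eigenvalues i with hr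
  have h1 : aeval r (M.charpoly.map (Int.castRingHom ℚ)) = 0 := by
    have h2 : A.charpoly.IsRoot r := by
      rw [hA.charpoly_eq, IsRoot.def, eval_prod]
      apply Finset.prod_eq_zero (Finset.mem_univ i)
      simp [hr]
    rw [charpoly_cast' hG.int, IsRoot.def, eval_map_algebraMap] at h2
    exact h2
  have h3 : q.map (Int.castRingHom ℚ) ∣ M.charpoly.map (Int.castRingHom ℚ) := by
    apply dvd_of_common_root _ _ hq r _ h1
    rw [← algebraMap_int_eq, Polynomial.aeval_map_algebraMap]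
    exact h
  have h4 : q ∣ M.charpoly :=
    (IsPrimitive.Int.dvd_iff_map_cast_dvd_map_cast q _ hprim).mpr h3
  apply hlc
  obtain ⟨g, hg⟩ := h4
  have h5 : q.leadingCoeff * g.leadingCoeff = 1 := by
    rw [← Polynomial.leadingCoeff_mul, ← hg]
    exact Matrix.charpoly_monic _
  exact IsUnit.of_mul_eq_one _ h5

/-- Main principle with root blocks. -/
theorem Good.key2 (hG : Good A hA M d k) (p : ℝ → Prop) [DecidablePred p]
    (a0 a1 a2 a4 t : ℝ) (h4 : a4 ≤ 0)
    (hE : ∀ k : ℕ, k ≤ d → a0 + a2 * k + a4 * (2 * (k : ℝ) ^ 2 - k) ≤ t)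
    (L : List (ℤ[X] × ℝ)) (hL : ∀ q ∈ L, 0 ≤ q.2)
    (good : ℝ → Prop) (hgood : ∀ i, good (hA.eigenvalues i))
    (Bf : ℝ → ℝ) (hB : 0 ≤ ∑ i, Bf (hA.eigenvalues i))
    (hpt : ∀ x : ℝ, |x| ≤ d → good x → (if p x then (1 : ℝ) else 0) + Bf x ≤
      a0 + a1 * x + a2 * x ^ 2 + a4 * x ^ 4 -
      (L.map (fun q => q.2 * Real.log |aeval x q.1|)).sum) :
    ((univ.filter (fun i => p (hA.eigenvalues i))).card : ℝ) ≤ t * Fintype.card V := by
  rw [card_eq_sum]
  calc ∑ i, (if p (hA.eigenvalues i) then (1 : ℝ) else 0)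
      ≤ ∑ i, (if p (hA.eigenvalues i) then (1 : ℝ) else 0) +
        ∑ i, Bf (hA.eigenvalues i) := by linarith
    _ = ∑ i, ((if p (hA.eigenvalues i) then (1 : ℝ) else 0) +
        Bf (hA.eigenvalues i)) := by rw [Finset.sum_add_distrib]
    _ ≤ _ := Finset.sum_le_sum fun i _ => hpt (hA.eigenvalues i) (hG.bound i) (hgood i)
    _ ≤ _ := hG.key_gen a0 a1 a2 a4 h4 L hL
    _ ≤ ∑ _v : V, t := Finset.sum_le_sum fun v _ => hE (k v) (hG.deg v)
    _ = t * Fintype.card V := by
      rw [Finset.sum_const, nsmul_eq_mul, Finset.card_univ]; ring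

/-- Main principle: a pointwise certificate bounds the number of eigenvalues with property `p`. -/
theorem Good.key (hG : Good A hA M d k) (p : ℝ → Prop) [DecidablePred p]
    (a0 a1 a2 a4 t : ℝ) (h4 : a4 ≤ 0)
    (hE : ∀ k : ℕ, k ≤ d → a0 + a2 * k + a4 * (2 * (k : ℝ) ^ 2 - k) ≤ t)
    (L : List (ℤ[X] × ℝ)) (hL : ∀ q ∈ L, 0 ≤ q.2)
    (hpt : ∀ x : ℝ, |x| ≤ d → (if p x then (1 : ℝ) else 0) ≤
      a0 + a1 * x + a2 * x ^ 2 + a4 * x ^ 4 -
      (L.map (fun q => q.2 * Real.log |aeval x q.1|)).sum) :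
    ((univ.filter (fun i => p (hA.eigenvalues i))).card : ℝ) ≤ t * Fintype.card V :=
  hG.key2 p a0 a1 a2 a4 t h4 hE L hL (fun _ => True) (fun _ => trivial) (fun _ => 0) (by simp)
    (fun x hx _ => by rw [add_zero]; exact hpt x hx)

end

end Pool.Agent.KS6_66.MO
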