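import Mathlib
import Pool.Agent.KS6_66.MO.Abs

set_option autoImplicit false
set_option maxHeartbeats 4000000

/-!
# Large degrees, with an explicit gap
-/

namespace Pool.Agent.KS6_66.MO

open Matrix Polynomial Finset Pool.Agent.W130.HL

/-- monotonicity in the degree of the local quantity -/
lemma deg_mono66b {A v c e : ℝ} (hv : 0 ≤ v) (hcd : c ^ 2 = e - 1) (hAv : v * (2 * c ^ 2 + 3) ≤ A)
    (a0 : ℝ) (k : ℝ) (hk : k ≤ e) :
    a0 + (A + 2 * v * c ^ 2) * k + (-v) * (2 * k ^ 2 - k) ≤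
      a0 + (A + 2 * v * c ^ 2) * e + (-v) * (2 * e ^ 2 - e) := by
  have h1 : 0 ≤ (e - k) * (A + 2 * v * c ^ 2 - v * (2 * (e + k) - 1)) := by
    apply mul_nonneg (by linarith)
    nlinarith [mul_nonneg hv (sub_nonneg.mpr hk)]
  nlinarith [h1]

/-- the numerical heart of the estimate for large degree -/
lemma big_numeric66 {c s : ℝ} (hc : 10 ≤ c) (hs0 : 0 < s) (hs : 2 * c * s ^ 3 = 1) :
    s ≤ 0.3685 ∧ 2 * c < 1.38 * s ^ 2 * (c ^ 2 + c + 1) ∧
      33 ≤ s * (c ^ 2 + c + 1 - 2 * c) ∧ 16 * s ^ 6 ≤ 0.04 := by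
  have h3 : s ^ 3 ≤ 0.05 := by
    have : 20 * s ^ 3 ≤ 2 * c * s ^ 3 := by
      apply mul_le_mul_of_nonneg_right _ (by positivity); linarith
    linarith
  have hs1 : s ≤ 0.3685 := by
    by_contra h
    push Not at h
    have : (0.3685 : ℝ) ^ 3 < s ^ 3 := pow_lt_pow_left₀ h (by norm_num) (by norm_num)
    norm_num at this h3
    linarith
  have h6 : s ^ 6 ≤ 0.0025 := by
    have : s ^ 6 = (s ^ 3) ^ 2 := by ring
    rw [this]
    have h0 : 0 ≤ s ^ 3 := by positivity
    nlinarith
  refine ⟨hs1, ?_, ?_, by linarith⟩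
  · have h7 : 2 * s < 0.69 * (1 + 2 * s ^ 3 + 4 * s ^ 6) := by
      have h60 : 0 ≤ s ^ 6 := by positivity
      have h30 : 0 ≤ s ^ 3 := by positivity
      by_cases h : s ≤ 0.34
      · linarith
      · push Not at h
        have : (0.34 : ℝ) ^ 3 < s ^ 3 := pow_lt_pow_left₀ h (by norm_num) (by norm_num)
        norm_num at this
        linarith
    have h8 : 4 * s ^ 6 * (2 * c) = 2 * s ^ 2 * (2 * s) := by
      linear_combination 4 * s ^ 3 * hs
    have h9 : 4 * s ^ 6 * (1.38 * s ^ 2 * (c ^ 2 + c + 1)) =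
        2 * s ^ 2 * (0.69 * (1 + 2 * s ^ 3 + 4 * s ^ 6)) := by
      have e1 : (4 * s ^ 6) * c ^ 2 = 1 := by
        have : (2 * c * s ^ 3) ^ 2 = 1 := by rw [hs]; norm_num
        linarith
      have e2 : (4 * s ^ 6) * c = 2 * s ^ 3 := by linear_combination 2 * s ^ 3 * hs
      linear_combination 1.38 * s ^ 2 * e1 + 1.38 * s ^ 2 * e2
    have h10 : 4 * s ^ 6 * (2 * c) < 4 * s ^ 6 * (1.38 * s ^ 2 * (c ^ 2 + c + 1)) := by
      rw [h8, h9]
      exact mul_lt_mul_of_pos_left h7 (by positivity)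
    exact lt_of_mul_lt_mul_left h10 (by positivity)
  · -- s * c >= 1 / (2 s^2) >= 3.68
    have h11 : 3.68 ≤ s * c := by
      have : s ^ 2 ≤ 0.1358 := by nlinarith
      have h12 : 2 * (s * c) * s ^ 2 = 1 := by linear_combination hs
      by_contra h
      push Not at h
      have h13 : 2 * (s * c) * s ^ 2 ≤ 2 * 3.68 * 0.1358 := by
        apply mul_le_mul (by linarith) this (by positivity) (by norm_num)
      norm_num at h13
      linarith
    have h14 : s * (c ^ 2 + c + 1 - 2 * c) = s * c * (c - 1) + s := by ring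
    rw [h14]
    nlinarith

lemma aux_Db {c : ℝ} (hc : 1 ≤ c) : 2 * c ^ 2 + 3 ≤ (c ^ 2 + c + 1) ^ 2 := by
  have h1 : 1 ≤ c ^ 2 := one_le_pow₀ hc
  have h2 : 1 ≤ c ^ 3 := one_le_pow₀ hc
  have h3 : 1 ≤ c ^ 4 := one_le_pow₀ hc
  have h4 : (c ^ 2 + c + 1) ^ 2 = c ^ 4 + 2 * c ^ 3 + 3 * c ^ 2 + 2 * c + 1 := by ring
  linarith

lemma aux_rho {s : ℝ} (hs0 : 0 < s) (hs1 : s ≤ 0.3685) : 2 * s ^ 2 * (1 - 16 * s ^ 6) ≤ 1 := by
  have h1 : s ^ 2 ≤ 0.3685 ^ 2 := pow_le_pow_left₀ hs0.le hs1 2
  have h2 : 0 < s ^ 2 * s ^ 6 := by positivity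
  have h3 : 2 * s ^ 2 * (1 - 16 * s ^ 6) = 2 * s ^ 2 - 32 * (s ^ 2 * s ^ 6) := by ring
  rw [h3]
  norm_num at h1
  linarith

lemma big_gap {c s A W ρ l e : ℝ} (hc : 10 ≤ c) (hs0 : 0 < s) (hs : 2 * c * s ^ 3 = 1)
    (hs1 : s ≤ 0.3685) (hWA : W * A = 1) (hA0 : 0 < A) (hρ : ρ = 2 * s ^ 2 * (1 - 16 * s ^ 6))
    (hW : W = 4 * c ^ 2 - ρ / 2 + 2 * ρ * l) (hl : l = -2 * Real.log s) (hρ0 : 0 < ρ)
    (hl0 : 0 ≤ l) (hee : e = c ^ 2 + 1) : 1 / (1000 * e ^ 2) ≤ 0.0018 * (s ^ 2 * A) := by
  have hc0 : 0 < c := by linarith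
  have h1 : s ^ 2 ≤ 0.1358 := by
    have : s ^ 2 ≤ 0.3685 ^ 2 := pow_le_pow_left₀ hs0.le hs1 2
    norm_num at this ⊢
    linarith
  have hsc : 3 ≤ s * c := by
    have h12 : 2 * (s * c) * s ^ 2 = 1 := by linear_combination hs
    by_contra h
    push Not at h
    have h13 : 2 * (s * c) * s ^ 2 ≤ 2 * 3 * 0.1358 := by
      apply mul_le_mul (by linarith) h1 (by positivity) (by norm_num)
    norm_num at h13
    linarith
  have hWle : W ≤ 4 * e := by
    have h1 : ρ * l ≤ 2 := by
      have h2 : -Real.log s ≤ 1 / s - 1 := by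
        have := Real.log_le_sub_one_of_pos (x := 1 / s) (by positivity)
        rw [Real.log_div one_ne_zero hs0.ne', Real.log_one] at this
        linarith
      have h3 : l ≤ 2 * (1 / s - 1) := by rw [hl]; linarith
      have h4 : ρ ≤ 2 * s ^ 2 := by
        have h5 : 2 * s ^ 2 - ρ = 32 * (s ^ 2 * s ^ 6) := by rw [hρ]; ring
        have h6 : 0 < s ^ 2 * s ^ 6 := by positivity
        linarith
      calc ρ * l ≤ 2 * s ^ 2 * (2 * (1 / s - 1)) :=
            mul_le_mul h4 h3 hl0 (by positivity)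
        _ = 4 * s - 4 * s ^ 2 := by field_simp; ring
        _ ≤ 2 := by
          have : 0 < s ^ 2 := by positivity
          linarith
    have h5 : 2 * ρ * l = 2 * (ρ * l) := by ring
    rw [hW, hee, h5]
    linarith
  have h5 : 1 ≤ 4 * e * A := by
    rw [← hWA]
    exact mul_le_mul_of_nonneg_right hWle hA0.le
  have he0 : 0 < e := by rw [hee]; positivity
  have h6 : 9 ≤ s ^ 2 * e := by
    have h7 : s ^ 2 * e = (s * c) ^ 2 + s ^ 2 := by rw [hee]; ring
    have h8 : (3 : ℝ) ^ 2 ≤ (s * c) ^ 2 := pow_le_pow_left₀ (by norm_num) hsc 2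
    have h9 : 0 ≤ s ^ 2 := sq_nonneg s
    rw [h7]
    norm_num at h8
    linarith
  rw [div_le_iff₀ (by positivity)]
  have h7 : 9 * 1 ≤ (s ^ 2 * e) * (4 * e * A) :=
    mul_le_mul h6 h5 (by norm_num) (by positivity)
  have h8 : 0.0018 * (s ^ 2 * A) * (1000 * e ^ 2) = 0.45 * ((s ^ 2 * e) * (4 * e * A)) := by ring
  rw [h8]
  linarith

section

variable {V : Type*} [Fintype V] [DecidableEq V] {A₀ : Matrix V V ℝ} {hA : A₀.IsHermitian}
  {M : Matrix V V ℤ} {d : ℕ} {k₀ : V → ℕ}

/-- Negative side for `d - 1 ≥ 100`. -/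
theorem Good.neg_big (hG : Good A₀ hA M d k₀) (c : ℝ) (hc : 10 ≤ c)
    (hcd : c ^ 2 = (d : ℝ) - 1) :
    ((univ.filter (fun i => hA.eigenvalues i < -c)).card : ℝ) ≤
      (1 / 2 - 1 / (1000 * (d : ℝ) ^ 2)) * Fintype.card V := by
  have hc0 : 0 < c := by linarith
  set e : ℝ := (d : ℝ) with he
  have hee : e = c ^ 2 + 1 := by linarith
  set D : ℝ := c ^ 2 + c + 1 with hD
  have hD0 : 0 < D := by positivity
  obtain ⟨s, hs0, hs⟩ : ∃ s : ℝ, 0 < s ∧ 2 * c * s ^ 3 = 1 := by
    refine ⟨(1 / (2 * c)) ^ (1 / 3 : ℝ), by positivity, ?_⟩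
    rw [← Real.rpow_natCast, ← Real.rpow_mul (by positivity)]
    norm_num
    field_simp
  obtain ⟨hs1, hnum1, hnum2, hnum3⟩ := big_numeric66 hc hs0 hs
  set g : ℝ := Real.log s with hg
  have hg1 : g ≤ -(1 / 4) := by
    have := Real.log_le_sub_one_of_pos hs0
    linarith
  set l : ℝ := -2 * g with hl
  have hl0 : 1 / 2 ≤ l := by rw [hl]; linarith
  have hlog2c : Real.log (2 * c) = -3 * g := by
    have h1 : Real.log (2 * c * s ^ 3) = 0 := by rw [hs]; exact Real.log_one
    rw [Real.log_mul (by positivity) (by positivity), Real.log_pow] at h1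
    push_cast at h1
    linarith
  have hlogt : Real.log (4 * c ^ 2 * s) = -5 * g := by
    have h1 : 4 * c ^ 2 * s = (2 * c) ^ 2 * s := by ring
    rw [h1, Real.log_mul (by positivity) (by positivity), Real.log_pow, hlog2c]
    push_cast
    ring
  set ρ : ℝ := 2 * s ^ 2 * (1 - 16 * s ^ 6) with hρ
  have hρ0 : 0 < ρ := by
    rw [hρ]; apply mul_pos (by positivity); linarith
  have hρ1 : ρ ≤ 1 := by
    rw [hρ]
    exact aux_rho hs0 hs1
  set W : ℝ := 4 * c ^ 2 - ρ / 2 + 2 * ρ * l with hW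
  have hW0 : 0 < W := by
    have : 0 ≤ ρ * (2 * l - 1 / 2) := mul_nonneg hρ0.le (by linarith)
    have h2 : 0 < 4 * c ^ 2 := by positivity
    rw [hW]; linarith
  set A : ℝ := 1 / W with hA'
  have hA0 : 0 < A := by positivity
  have hWA : W * A = 1 := by rw [hA']; field_simp
  set η : ℝ := ρ * A with hη
  have hη0 : 0 < η := by positivity
  have hηA : η ≤ A := by
    rw [hη]
    exact mul_le_of_le_one_left hA0.le hρ1
  have hnorm : 4 * c ^ 2 * A - η / 2 + 2 * η * l = 1 := by
    rw [← hWA, hW, hη]; ring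
  set U : ℝ := D - 2 * c with hU
  have hU0 : 0 < U := by
    have h1 : U = (c - 1 / 2) ^ 2 + 3 / 4 := by rw [hU, hD]; ring
    rw [h1]; positivity
  have hsU : 33 ≤ s * U := hnum2
  set E1 : ℝ := η / (s * U) with hE1
  have hE10 : 0 < E1 := by positivity
  have hE1U : E1 * U = η / s := by rw [hE1]; field_simp
  have hE1A : E1 ≤ A := by
    rw [hE1, div_le_iff₀ (by positivity)]
    have h1 : A * 33 ≤ A * (s * U) := mul_le_mul_of_nonneg_left hsU hA0.le
    linarith
  set v : ℝ := (A - E1) / D ^ 2 with hv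
  have hv0 : 0 ≤ v := div_nonneg (by linarith) (by positivity)
  have hvD : v * D ^ 2 = A - E1 := by rw [hv]; field_simp
  set B : ℝ := η / (2 * c) with hB
  have hBc : B * (2 * c) = η := by rw [hB]; field_simp
  set K : ℝ := η * (l - 1 / 2) with hK
  have hK0 : 0 ≤ K := mul_nonneg hη0.le (by linarith)
  have hη2 : η / (2 * s ^ 2) = A * (1 - 16 * s ^ 6) := by
    rw [hη, hρ]; field_simp
  have hAv : v * (2 * c ^ 2 + 3) ≤ A := by
    calc v * (2 * c ^ 2 + 3) ≤ v * D ^ 2 := by
          apply mul_le_mul_of_nonneg_left _ hv0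
          rw [hD]
          exact aux_Db (by linarith)
      _ ≤ A := by rw [hvD]; linarith
  -- C1
  have hC1 : η / (2 * s ^ 2) ≤ A - v * (2 * c + 2 * s) ^ 2 := by
    rw [hη2]
    have h1 : (2 * c + 2 * s) ^ 2 ≤ 16 * s ^ 6 * D ^ 2 := by
      have h2 : 16 * s ^ 6 * D ^ 2 = (4 * s ^ 3 * D) ^ 2 := by ring
      rw [h2]
      apply pow_le_pow_left₀ (by positivity)
      have h3 : c * (2 * c + 2 * s) ≤ c * (4 * s ^ 3 * D) := by
        have h4 : c * (4 * s ^ 3 * D) = 2 * D := by linear_combination 2 * D * hs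
        rw [h4, hD]
        have h5 : c * s ≤ c * 1 := mul_le_mul_of_nonneg_left (by linarith) hc0.le
        have h6 : c * (2 * c + 2 * s) = 2 * c ^ 2 + 2 * (c * s) := by ring
        rw [h6]
        linarith
      exact le_of_mul_le_mul_left h3 hc0
    have h5 : v * (2 * c + 2 * s) ^ 2 ≤ v * (16 * s ^ 6 * D ^ 2) :=
      mul_le_mul_of_nonneg_left h1 hv0
    have h6 : v * (16 * s ^ 6 * D ^ 2) = 16 * s ^ 6 * (A - E1) := by rw [← hvD]; ring
    have h7 : 0 ≤ 16 * s ^ 6 * E1 := by positivity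
    linarith
  -- C2
  have hC2 : 0 ≤ 4 * c * A - B - η / (2 * c) - 4 * c ^ 2 * s * η := by
    have h1 : B = η / (2 * c) := hB
    have h2 : c * (4 * c * A - B - η / (2 * c) - 4 * c ^ 2 * s * η) =
        A * (4 * c ^ 2 - ρ - 4 * c ^ 3 * s * ρ) := by
      rw [h1, hη]; field_simp; ring
    have h3 : 4 * c ^ 3 * s * ρ = 4 * c ^ 2 - 64 * c ^ 2 * s ^ 6 := by
      rw [hρ]
      linear_combination (4 * c ^ 2 * (1 - 16 * s ^ 6)) * hs
    have h4 : 4 * c ^ 2 * s ^ 6 = 1 := by
      have : (2 * c * s ^ 3) ^ 2 = 1 := by rw [hs]; norm_num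
      linarith
    have h5 : 0 ≤ c * (4 * c * A - B - η / (2 * c) - 4 * c ^ 2 * s * η) := by
      rw [h2, h3]
      apply mul_nonneg hA0.le
      linarith
    exact nonneg_of_mul_nonneg_right h5 hc0
  -- C3
  have hC3 : E1 + 2 * c * v * D + 0.0018 * (s ^ 2 * A) ≤ 3 / 4 * η := by
    have h1 : 2 * c * v * D ≤ 2 * c * A / D := by
      rw [le_div_iff₀ hD0]
      have : 2 * c * v * D * D = 2 * c * (A - E1) := by rw [← hvD]; ring
      rw [this]
      have : 0 ≤ 2 * c * E1 := by positivity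
      linarith
    have h2 : 2 * c * A / D < 1.38 * s ^ 2 * A := by
      rw [div_lt_iff₀ hD0]
      have := mul_lt_mul_of_pos_right hnum1 hA0
      calc 2 * c * A < _ := this
        _ = _ := by ring
    have h3 : 1.38 * s ^ 2 * A + E1 + 0.0018 * (s ^ 2 * A) ≤ 3 / 4 * η := by
      have h4 : E1 ≤ η / 33 := by
        rw [hE1]
        exact div_le_div_of_nonneg_left hη0.le (by norm_num) hsU
      have h5 : 1.38 * s ^ 2 * A + 0.0018 * (s ^ 2 * A) ≤ (3 / 4 - 1 / 33) * η := by
        rw [hη, hρ]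
        have h6 : 0 < s ^ 2 * A := by positivity
        have h7 : (3 / 4 - 1 / 33) * (2 * s ^ 2 * (1 - 16 * s ^ 6) * A) =
          (s ^ 2 * A) * ((3 / 4 - 1 / 33) * 2 * (1 - 16 * s ^ 6)) := by ring
        have h8 : 1.38 * s ^ 2 * A + 0.0018 * (s ^ 2 * A) = (s ^ 2 * A) * 1.3818 := by ring
        rw [h7, h8]
        apply mul_le_mul_of_nonneg_left _ h6.le
        norm_num at hnum3 ⊢
        linarith
      linarith
    linarith
  have hgap : 1 / (1000 * e ^ 2) ≤ 0.0018 * (s ^ 2 * A) :=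
    big_gap hc hs0 hs hs1 hWA hA0 hρ hW hl hρ0 (by linarith) hee
  clear_value K B v E1 U η A W ρ l g D
  refine hG.key (fun x => x < -c) (A * c ^ 2 - B * c - v * c ^ 4 + K) (-2 * A * c + B)
    (A + 2 * v * c ^ 2) (-v) (1 / 2 - 1 / (1000 * e ^ 2)) (by linarith) ?_
    [(X ^ 2 - C ((d : ℤ) - 1), η)] ?_ ?_
  · intro k hk
    have hk' : (k : ℝ) ≤ e := by rw [he]; exact_mod_cast hk
    refine le_trans (deg_mono66b hv0 hcd hAv _ (k : ℝ) hk') ?_
    have h1 : A * c ^ 2 - B * c - v * c ^ 4 + K + (A + 2 * v * c ^ 2) * e +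
        (-v) * (2 * e ^ 2 - e) = 1 / 2 + (E1 + 2 * c * v * D - 3 / 4 * η) := by
      have h2 : v * (c ^ 2 + c + 1) ^ 2 = A - E1 := by rw [← hD]; exact hvD
      have h3 : B * c = η / 2 := by linarith
      rw [hee, hK, h3, hD]
      linear_combination (1 / 2 : ℝ) * hnorm - h2
    rw [h1]
    linarith
  · intro q hq
    simp only [List.mem_singleton] at hq
    rw [hq]; exact hη0.le
  · intro x hx
    rw [abs_le] at hx
    have hev : aeval x (X ^ 2 - C ((d : ℤ) - 1) : ℤ[X]) = x ^ 2 - c ^ 2 := by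
      rw [hcd]
      simp [he]
    simp only [List.map_cons, List.map_nil, List.sum_cons, List.sum_nil, add_zero]
    rw [hev]
    have hpoly : A * c ^ 2 - B * c - v * c ^ 4 + K + (-2 * A * c + B) * x +
        (A + 2 * v * c ^ 2) * x ^ 2 + -v * x ^ 4 =
        A * (x - c) ^ 2 + B * (x - c) - v * (x - c) ^ 2 * (x + c) ^ 2 + K := by ring
    rw [hpoly]
    have hvmono : ∀ w : ℝ, 0 ≤ w → w ≤ D → v * w ^ 2 ≤ A := by
      intro w hw0 hwD
      calc v * w ^ 2 ≤ v * D ^ 2 :=
            mul_le_mul_of_nonneg_left (pow_le_pow_left₀ hw0 hwD 2) hv0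
        _ ≤ A := by rw [hvD]; linarith
    rcases lt_trichotomy (x + c) 0 with hlt | heq | hgt
    · rw [if_pos (by linarith : x < -c)]
      set ε : ℝ := -(x + c) with hε
      have hε0 : 0 < ε := by linarith
      have hxε : x = -c - ε := by linarith
      have hεD : 2 * c + ε ≤ D := by rw [hD]; linarith [hx.1]
      have habs : |x ^ 2 - c ^ 2| = ε * (2 * c + ε) := by
        have : x ^ 2 - c ^ 2 = ε * (2 * c + ε) := by rw [hxε]; ring
        rw [this, abs_of_pos (by positivity)]
      rw [habs, Real.log_mul (by positivity) (by positivity)]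
      have hlog1 : Real.log ε ≤ 5 * g + 4 * c ^ 2 * s * ε - 1 := by
        have h1 := Real.log_le_sub_one_of_pos (x := 4 * c ^ 2 * s * ε) (by positivity)
        rw [Real.log_mul (by positivity) (by positivity), hlogt] at h1
        linarith
      have hlog2 : Real.log (2 * c + ε) ≤ -3 * g + ε / (2 * c) := by
        have h1 := Real.log_le_sub_one_of_pos (x := (2 * c + ε) / (2 * c)) (by positivity)
        rw [Real.log_div (by positivity) (by positivity), hlog2c] at h1
        have h2 : (2 * c + ε) / (2 * c) = 1 + ε / (2 * c) := by field_simp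
        rw [h2] at h1
        linarith
      have h2 : η * (Real.log ε + Real.log (2 * c + ε)) ≤
          η * ((5 * g + 4 * c ^ 2 * s * ε - 1) + (-3 * g + ε / (2 * c))) :=
        mul_le_mul_of_nonneg_left (add_le_add hlog1 hlog2) hη0.le
      have h4 : 0 ≤ ε ^ 2 * (A - v * (2 * c + ε) ^ 2) :=
        mul_nonneg (sq_nonneg _) (by linarith [hvmono (2 * c + ε) (by positivity) hεD])
      have h5 := mul_nonneg hε0.le hC2
      have h6 : A * (x - c) ^ 2 + B * (x - c) - v * (x - c) ^ 2 * (x + c) ^ 2 + K -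
          η * ((5 * g + 4 * c ^ 2 * s * ε - 1) + (-3 * g + ε / (2 * c))) =
          1 + ε ^ 2 * (A - v * (2 * c + ε) ^ 2) +
            ε * (4 * c * A - B - η / (2 * c) - 4 * c ^ 2 * s * η) := by
        have e1 : η * (ε / (2 * c)) = ε * (η / (2 * c)) := by ring
        rw [hxε, hK]
        linear_combination hnorm - hBc - η * hl - e1
      linarith
    · rw [if_neg (by linarith : ¬ x < -c)]
      have hxc : x = -c := by linarith
      have h0 : x ^ 2 - c ^ 2 = 0 := by rw [hxc]; ring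
      rw [h0, hxc]
      simp only [abs_zero, Real.log_zero, mul_zero, sub_zero]
      have h3 : A * (-c - c) ^ 2 + B * (-c - c) - v * (-c - c) ^ 2 * (-c + c) ^ 2 + K =
          4 * c ^ 2 * A - η + K := by
        linear_combination -hBc
      have h4 : A ≤ 4 * c ^ 2 * A := by
        have hc2 : 1 ≤ c ^ 2 := one_le_pow₀ (by linarith)
        exact le_mul_of_one_le_left hA0.le (by linarith)
      linarith
    · rw [if_neg (by linarith : ¬ x < -c)]
      rcases eq_or_ne x c with hxc | hxc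
      · have h0 : x ^ 2 - c ^ 2 = 0 := by rw [hxc]; ring
        rw [h0, hxc]
        simp only [abs_zero, Real.log_zero, mul_zero, sub_zero]
        have h3 : A * (c - c) ^ 2 + B * (c - c) - v * (c - c) ^ 2 * (c + c) ^ 2 + K = K := by ring
        linarith
      · set u : ℝ := x - c with hu
        have hu0 : u ≠ 0 := sub_ne_zero.mpr hxc
        have hxu : x + c = u + 2 * c := by rw [hu]; ring
        have habs : |x ^ 2 - c ^ 2| = |u| * (u + 2 * c) := by
          have : x ^ 2 - c ^ 2 = u * (u + 2 * c) := by rw [hu]; ring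
          rw [this, abs_mul, abs_of_pos (by linarith : 0 < u + 2 * c)]
        have hw0 : 0 < u + 2 * c := by linarith
        have hwD : u + 2 * c ≤ D := by rw [← hxu, hD]; linarith [hx.2]
        have hau : 0 < |u| := abs_pos.mpr hu0
        rw [habs, Real.log_mul hau.ne' hw0.ne', hxu]
        have hlog2 : Real.log (u + 2 * c) ≤ -3 * g + u / (2 * c) := by
          have h1 := Real.log_le_sub_one_of_pos (x := (u + 2 * c) / (2 * c)) (by positivity)
          rw [Real.log_div hw0.ne' (by positivity), hlog2c] at h1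
          have h2 : (u + 2 * c) / (2 * c) = u / (2 * c) + 1 := by field_simp
          rw [h2] at h1
          linarith
        have e1 : η * (u / (2 * c)) = B * u := by rw [hB]; ring
        by_cases hcase : u ≤ 2 * s
        · -- quadratic bound
          have hlog1 : Real.log |u| ≤ g + (u ^ 2 / s ^ 2 - 1) / 2 := by
            have h1 := Real.log_le_sub_one_of_pos (x := (|u| / s) ^ 2) (by positivity)
            rw [Real.log_pow, Real.log_div hau.ne' hs0.ne', div_pow, sq_abs] at h1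
            push_cast at h1
            linarith
          have h2 : η * (Real.log |u| + Real.log (u + 2 * c)) ≤
              η * ((g + (u ^ 2 / s ^ 2 - 1) / 2) + (-3 * g + u / (2 * c))) :=
            mul_le_mul_of_nonneg_left (add_le_add hlog1 hlog2) hη0.le
          have h3 : v * (u + 2 * c) ^ 2 ≤ v * (2 * c + 2 * s) ^ 2 :=
            mul_le_mul_of_nonneg_left (pow_le_pow_left₀ hw0.le (by linarith) 2) hv0
          have h4 : 0 ≤ u ^ 2 * (A - v * (u + 2 * c) ^ 2 - η / (2 * s ^ 2)) :=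
            mul_nonneg (sq_nonneg _) (by linarith)
          have e2 : η * ((u ^ 2 / s ^ 2 - 1) / 2) = u ^ 2 * (η / (2 * s ^ 2)) - η / 2 := by
            field_simp
          have h5 : A * u ^ 2 + B * u - v * u ^ 2 * (u + 2 * c) ^ 2 + K -
              η * ((g + (u ^ 2 / s ^ 2 - 1) / 2) + (-3 * g + u / (2 * c))) =
              u ^ 2 * (A - v * (u + 2 * c) ^ 2 - η / (2 * s ^ 2)) := by
            rw [hK]
            linear_combination -e1 - e2 + η * hl
          linarith
        · push Not at hcase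
          have hupos : 0 < u := by linarith
          have hlog1 : Real.log |u| ≤ g + (u / s - 1) := by
            rw [abs_of_pos hupos]
            have h1 := Real.log_le_sub_one_of_pos (x := u / s) (by positivity)
            rw [Real.log_div hupos.ne' hs0.ne'] at h1
            linarith
          have h2 : η * (Real.log |u| + Real.log (u + 2 * c)) ≤
              η * ((g + (u / s - 1)) + (-3 * g + u / (2 * c))) :=
            mul_le_mul_of_nonneg_left (add_le_add hlog1 hlog2) hη0.le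
          have huU : u ≤ U := by rw [hU]; linarith
          -- concavity
          have h2sU : 2 * s < U := by linarith
          have h3 : (U - 2 * s) * (u * (A - v * (u + 2 * c) ^ 2)) =
              (U - u) * (2 * s * (A - v * (2 * s + 2 * c) ^ 2)) +
              (u - 2 * s) * (U * (A - v * (U + 2 * c) ^ 2)) +
              v * ((U - u) * (u - 2 * s) * (U - 2 * s) * (u + 2 * s + U + 4 * c)) := by ring
          have h4 : U * (A - v * (U + 2 * c) ^ 2) = η / s := by
            have : U + 2 * c = D := by rw [hU]; ring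
            rw [this, hvD, ← hE1U]; ring
          have h5 : η / s ≤ 2 * s * (A - v * (2 * s + 2 * c) ^ 2) := by
            have h6 : 2 * s * (η / (2 * s ^ 2)) = η / s := by field_simp
            have h7 : 2 * s + 2 * c = 2 * c + 2 * s := by ring
            rw [h7, ← h6]
            exact mul_le_mul_of_nonneg_left hC1 (by positivity)
          have h8 : (U - 2 * s) * (η / s) ≤ (U - 2 * s) * (u * (A - v * (u + 2 * c) ^ 2)) := by
            rw [h3, h4]
            have h9 : (U - u) * (η / s) ≤ (U - u) * (2 * s * (A - v * (2 * s + 2 * c) ^ 2)) :=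
              mul_le_mul_of_nonneg_left h5 (by linarith)
            have h10 : 0 ≤ v * ((U - u) * (u - 2 * s) * (U - 2 * s) * (u + 2 * s + U + 4 * c)) := by
              apply mul_nonneg hv0
              apply mul_nonneg (mul_nonneg (mul_nonneg _ _) _) <;> linarith
            have h11 : (U - 2 * s) * (η / s) = (U - u) * (η / s) + (u - 2 * s) * (η / s) := by ring
            linarith
          have h9 : η / s ≤ u * (A - v * (u + 2 * c) ^ 2) :=
            le_of_mul_le_mul_left h8 (by linarith)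
          have h10 : 0 ≤ u * (u * (A - v * (u + 2 * c) ^ 2) - η / s) :=
            mul_nonneg hupos.le (by linarith)
          have e3 : η * (u / s) = u * (η / s) := by ring
          have h12 : A * u ^ 2 + B * u - v * u ^ 2 * (u + 2 * c) ^ 2 + K -
              η * ((g + (u / s - 1)) + (-3 * g + u / (2 * c))) =
              u * (u * (A - v * (u + 2 * c) ^ 2) - η / s) + η / 2 := by
            rw [hK]
            linear_combination -e1 - e3 + η * hl
          linarith

end

end Pool.Agent.KS6_66.MO
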