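import Mathlib
import Pool.Graph.R_seed8.W130.HL.Cert2

set_option autoImplicit false

/-!
Certificates for the median eigenvalues of the graphs of maximum degree 7, 11, 13, 15, 16, 19, 21, 22, 23, 25
(format and checker: `Pool.Agent.W130.HL.Cert2`).
-/

namespace Pool.Agent.KS6_66.MO

open Pool.Agent.W130.HL

/-- certificate for d = 7 -/
def cert7 : Cert2 where
  d := 7
  S := 1000000000000000
  M := 67108864
  a0 := 234661153249078
  a1 := -181088376304890
  a2 := 43290573488450
  a3 := 0
  a4 := -414575938920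
  h0 := 14408061870586
  p0 := 0
  Q := [⟨[5, 2], 13045270096786, 2, 3, 0, 0, []⟩]
  chA := [
    (-183468698, 33, [(-1, 30)]),
    (-173925586, -9, [(-1, -52)]),
    (-169154030, -20, [(-1, -70)]),
    (-166768252, -34, [(24, -102)]),
    (-165575363, -76, [(1, -88)]),
    (-164382474, -80, [(1, -86)])]
  LB := -164382475
  chB := [
    (123286856, 40, [(1, 67)]),
    (143834665, 23, [(1, 70)]),
    (164382475, 9, [(1, 71)])]
  LC := 164382474
  chC := [
    (202554920, 34, [(1, 77)]),
    (317072261, 42, [(1, 77)]),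
    (469762048, 119, [(1, 94)])]
  mL := -164382475
  mR := -164382474
  mB := 0
  mC := [(1, -73)]
  pL := 164382474
  pR := 164382475
  pB := 0
  pC := [(1, 73)]

theorem cert7_ok : cert7.ok = true := by decide +kernel

/-- certificate for d = 11 -/
def cert11 : Cert2 where
  d := 11
  S := 1000000000000000
  M := 67108864
  a0 := 226510802830941
  a1 := -150790490152367
  a2 := 27493918091762
  a3 := 0
  a4 := -125370151766
  h0 := 7841279312250
  p0 := 0
  Q := [⟨[-7, 1, 1], 4547537453779, 1, 2, 0, 0, [⟨-214250580, -214250577, -11952573841430, 1, 1, -53, [(0, 0)]⟩,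
      ⟨147141713, 147141716, 12250792279335, 0, -1, 53, [(0, 0)]⟩]⟩]
  chA := [
    (-245090652, 60, [(1, 108)]),
    (-220435309, -3, [(1, -9)]),
    (-214271473, -33, [(1, -61)]),
    (-213757820, -61, [(25, -103)]),
    (-213244167, -74, [(-1, -82)]),
    (-212216861, -80, [(-1, -76)])]
  LB := -212216862
  chB := [
    (145899092, 60, [(-1, 23)]),
    (159162646, 48, [(0, 0)]),
    (185689754, 29, [(1, 38)]),
    (212216862, 26, [(1, 41)])]
  LC := 212216861
  chC := [
    (245090651, 32, [(1, 71)]),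
    (343712021, 44, [(1, 76)]),
    (738197504, 149, [(1, 153)])]
  mL := -212216862
  mR := -212216861
  mB := 0
  mC := [(-1, -58)]
  pL := 212216861
  pR := 212216862
  pB := 0
  pC := [(1, 58)]

theorem cert11_ok : cert11.ok = true := by decide +kernel

/-- certificate for d = 13 -/
def cert13 : Cert2 where
  d := 13
  S := 1000000000000000
  M := 67108864
  a0 := 244473720167391
  a1 := -134231722187260
  a2 := 21448354430644
  a3 := 0
  a4 := -72107696054
  h0 := 7222827953557
  p0 := 0
  Q := [⟨[7, 2], 7736539508250, 2, 3, 0, 0, []⟩]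
  chA := [
    (-272468381, 69, [(-1, 54)]),
    (-242471039, 7, [(-1, -37)]),
    (-234971703, -18, [(-1, -77)]),
    (-233721814, -64, [(28, -107)]),
    (-232471924, -81, [(1, -96)])]
  LB := -232471925
  chB := [
    (203412934, 51, [(1, 80)]),
    (232471925, 31, [(1, 82)])]
  LC := 232471924
  chC := [
    (272468380, 42, [(1, 86)]),
    (392457751, 53, [(1, 87)]),
    (872415232, 160, [(1, 111)])]
  mL := -232471925
  mR := -232471924
  mB := 0
  mC := [(1, -84)]
  pL := 232471924
  pR := 232471925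
  pB := 0
  pC := [(1, 84)]

theorem cert13_ok : cert13.ok = true := by decide +kernel

/-- certificate for d = 15 -/
def cert15 : Cert2 where
  d := 15
  S := 1000000000000000
  M := 67108864
  a0 := 238768599162142
  a1 := -128419579738404
  a2 := 18843993662245
  a3 := 0
  a4 := -49301370234
  h0 := 6449392708981
  p0 := 0
  Q := [⟨[-18, -1, 1], 2486058141503, 1, 5, 0, 0, [⟨-253134762, -253134759, -6367547164947, 1, 1, -47, [(0, 0), (-1, -37), (-1, -106)]⟩,
      ⟨320243623, 320243626, 10656965709270, 0, 1, 69, [(0, 0), (1, 103), (1, 151)]⟩]⟩,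
    ⟨[-25, 1, 2], 544644930309, 2, 7, 0, 0, []⟩,
    ⟨[-41, -10, 4, 1], 653227421414, 1, 3, 0, 0, [⟨-252126740, -252126737, -3191604924255, 1, 1, -69, [(-1, -66), (-1, -20), (0, 0)]⟩,
      ⟨-229997443, -229997440, 884734840882267, 0, -1, 26, [(-1, 33), (-1, 51), (0, 0)]⟩,
      ⟨213688723, 213688726, 930001717046, 0, -1, 43, [(-1, 77), (-1, 14), (0, 0)]⟩]⟩]
  chA := [
    (-262903604, 52, [(1, 132), (1, 152), (-1, 208)]),
    (-257000990, -11, [(1, -20), (1, -18), (-1, -48)]),
    (-254787510, -25, [(1, -43), (1, -62), (-1, -68)]),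
    (-254418597, -31, [(1, -57), (21, -97), (-1, -78)]),
    (-253311857, -35, [(1, -67), (-1, -70), (-1, -83)]),
    (-252574030, -50, [(14, -84), (-1, -33), (-1, -113)]),
    (-252205117, -62, [(-1, -75), (-1, -24), (-1, -150)]),
    (-252020660, -72, [(-1, -63), (-1, -19), (277, -180)]),
    (-251098376, -79, [(-1, -58), (-1, -17), (1, -148)])]
  LB := -251098377
  chB := [
    (-219711080, 36, [(-1, 43), (-1, 60), (2, -22)]),
    (125549188, 78, [(-1, 91), (-1, 93), (-1, 120)]),
    (204017430, 52, [(-1, 80), (-1, 48), (-1, 77)]),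
    (212845107, 48, [(-1, 78), (-1, 35), (-1, 50)]),
    (213825960, 44, [(-1, 77), (-1, 17), (0, 0)]),
    (219711079, 40, [(-1, 76), (-1, -8), (1, 31)]),
    (223634491, 34, [(-1, 74), (0, 0), (1, 62)]),
    (251098377, 31, [(-1, 74), (1, 21), (1, 71)])]
  LC := 251098376
  chC := [
    (274708831, 31, [(-1, 54), (1, 80), (1, 127)]),
    (310124515, 40, [(-1, 50), (1, 85), (1, 131)]),
    (316027129, 64, [(-1, 7), (1, 100), (1, 147)]),
    (321929743, 67, [(0, 0), (1, 102), (1, 149)]),
    (439982022, 74, [(1, 53), (1, 106), (1, 154)]),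
    (1006632960, 169, [(1, 166), (1, 193), (1, 263)])]
  mL := -251098377
  mR := -251098376
  mB := 0
  mC := [(-1, -43), (-1, -10), (1, -109)]
  pL := 251098376
  pR := 251098377
  pB := 0
  pC := [(-1, 65), (1, 61), (1, 109)]

theorem cert15_ok : cert15.ok = true := by decide +kernel

/-- certificate for d = 16 -/
def cert16 : Cert2 where
  d := 16
  S := 1000000000000000
  M := 67108864
  a0 := 243442802800889
  a1 := -122619241970784
  a2 := 17285954589411
  a3 := 0
  a4 := -40393586906
  h0 := 7791973664976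
  p0 := 0
  Q := [⟨[4, 1], 5545727727825, 1, 2, 0, 0, [⟨-268435457, -268435455, 154283061814, 1, 1, 0, [(0, 0)]⟩]⟩]
  chA := [
    (-272627611, 64, [(-1, 39)]),
    (-266269562, -8, [(16, -89)]),
    (-259911512, -51, [(1, -73)])]
  LB := -259911513
  chB := [
    (194933634, 69, [(1, 60)]),
    (227422573, 44, [(1, 63)]),
    (259911513, 39, [(1, 64)])]
  LC := 259911512
  chC := [
    (285343709, 34, [(1, 67)]),
    (310775906, 47, [(1, 68)]),
    (463369090, 65, [(1, 69)]),
    (1073741824, 173, [(1, 95)])]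
  mL := -259911513
  mR := -259911512
  mB := 0
  mC := [(1, -66)]
  pL := 259911512
  pR := 259911513
  pB := 0
  pC := [(1, 66)]

theorem cert16_ok : cert16.ok = true := by decide +kernel

/-- certificate for d = 19 -/
def cert19 : Cert2 where
  d := 19
  S := 1000000000000000
  M := 67108864
  a0 := 236648652306106
  a1 := -113920889462465
  a2 := 14814711168999
  a3 := 0
  a4 := -25834942650
  h0 := 6689092696295
  p0 := 0
  Q := [⟨[-14, 1, 1], 2384292074594, 1, 5, 0, 0, [⟨-286884840, -286884837, -5602328014513, 1, 1, -41, [(0, 0)]⟩,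
      ⟨219775973, 219775976, 6209588084232, 0, -1, 64, [(0, 0)]⟩]⟩]
  chA := [
    (-346615648, 91, [(1, 145)]),
    (-292455903, 10, [(1, 24)]),
    (-287620212, -24, [(1, -54)]),
    (-286653073, -41, [(12, -80)]),
    (-284718796, -61, [(-1, -70)])]
  LB := -284718797
  chB := [
    (213539097, 75, [(-1, 45)]),
    (222436559, 66, [(0, 0)]),
    (249128947, 47, [(1, 38)]),
    (284718797, 44, [(1, 42)])]
  LC := 284718796
  chC := [
    (315667221, 43, [(1, 81)]),
    (408512498, 51, [(1, 84)]),
    (1275068416, 182, [(1, 184)])]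
  mL := -284718797
  mR := -284718796
  mB := 0
  mC := [(-1, -45)]
  pL := 284718796
  pR := 284718797
  pB := 0
  pC := [(1, 67)]

theorem cert19_ok : cert19.ok = true := by decide +kernel

/-- certificate for d = 21 -/
def cert21 : Cert2 where
  d := 21
  S := 1000000000000000
  M := 67108864
  a0 := 247862758006444
  a1 := -106377297024955
  a2 := 12758176995253
  a3 := 0
  a4 := -18474370683
  h0 := 4281566914512
  p0 := 0
  Q := [⟨[9, 2], 5191463573741, 2, 3, 0, 0, []⟩]
  chA := [
    (-317450685, 79, [(-1, 71)]),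
    (-304452644, -12, [(-1, -64)]),
    (-302286304, -18, [(-1, -85)]),
    (-301203134, -60, [(42, -120)]),
    (-300119963, -84, [(1, -103)])]
  LB := -300119964
  chB := [
    (225089973, 78, [(1, 86)]),
    (300119964, 50, [(1, 91)])]
  LC := 300119963
  chC := [
    (369442849, 42, [(1, 94)]),
    (577411508, 80, [(1, 96)]),
    (1409286144, 191, [(1, 125)])]
  mL := -300119964
  mR := -300119963
  mB := 0
  mC := [(1, -92)]
  pL := 300119963
  pR := 300119964
  pB := 0
  pC := [(1, 92)]

theorem cert21_ok : cert21.ok = true := by decide +kernel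

/-- certificate for d = 22 -/
def cert22 : Cert2 where
  d := 22
  S := 1000000000000000
  M := 67108864
  a0 := 249659279169726
  a1 := -104654525653955
  a2 := 12063079161756
  a3 := 0
  a4 := -15920615428
  h0 := 4355347893493
  p0 := 0
  Q := [⟨[-12, 2, 1], 710730178095, 1, 5, 0, 0, [⟨-309073316, -309073313, -2561861464479, 1, 1, -50, [(0, 0), (-1, -54), (1, -144)]⟩,
      ⟨174855585, 174855588, 33133644867047, 0, -1, 85, [(0, 0), (-1, 99), (-1, 180)]⟩]⟩,
    ⟨[-38, 1, 2], 649619521353, 2, 3, 0, 0, []⟩,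
    ⟨[-223, -54, 8, 2], 2038454391617, 2, 5, 0, 0, []⟩]
  chA := [
    (-380585422, 99, [(1, 153), (1, 177), (-1, 270)]),
    (-316663196, 18, [(1, 29), (1, 56), (-1, 62)]),
    (-312097323, -10, [(1, -29), (1, -7), (-1, -92)]),
    (-310955855, -24, [(1, -50), (1, -36), (99, -147)]),
    (-309814386, -31, [(1, -66), (1, -67), (1, -141)]),
    (-309529019, -39, [(1, -88), (15, -87), (1, -139)]),
    (-309243652, -43, [(1, -105), (-1, -76), (1, -140)]),
    (-308958285, -47, [(54, -128), (-1, -62), (1, -142)]),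
    (-308102184, -58, [(-1, -105), (-1, -41), (1, -154)]),
    (-307531449, -85, [(-1, -71), (-1, -26), (109, -150)])]
  LB := -307531450
  chB := [
    (172986440, 89, [(-1, 42), (-1, 105), (-1, 181)]),
    (182596798, 84, [(0, 0), (-1, 97), (-1, 179)]),
    (230648587, 72, [(1, 59), (-1, 78), (-1, 175)]),
    (269090018, 53, [(1, 79), (-1, 36), (-1, 167)]),
    (273895197, 51, [(1, 80), (-1, 18), (-1, 166)]),
    (278700376, 43, [(1, 83), (0, 0), (-1, 164)]),
    (307531450, 37, [(1, 85), (1, 28), (-1, 162)])]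
  LC := 307531449
  chC := [
    (325794942, 28, [(1, 98), (1, 84), (-1, 136)]),
    (350907244, 41, [(1, 100), (1, 89), (-1, 125)]),
    (351477978, 60, [(1, 104), (1, 99), (0, 0)]),
    (380585421, 69, [(1, 107), (1, 105), (1, 122)]),
    (599747338, 83, [(1, 113), (1, 115), (1, 190)]),
    (1476395008, 194, [(1, 198), (1, 217), (1, 319)])]
  mL := -307531450
  mR := -307531449
  mB := 0
  mC := [(-1, -58), (-1, -17), (-1, -150)]
  pL := 307531449
  pR := 307531450
  pB := 0
  pC := [(1, 93), (1, 69), (-1, 150)]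

theorem cert22_ok : cert22.ok = true := by decide +kernel

/-- certificate for d = 23 -/
def cert23 : Cert2 where
  d := 23
  S := 1000000000000000
  M := 67108864
  a0 := 248018803184534
  a1 := -104146698725670
  a2 := 11589876460809
  a3 := 0
  a4 := -14100046959
  h0 := 4679578931955
  p0 := 0
  Q := [⟨[-27, -1, 1], 886791709572, 1, 2, 0, 0, [⟨-316764124, -316764121, -2391482661217, 1, 1, -41, [(0, 0), (1, -41), (-1, -102)]⟩,
      ⟨383872985, 383872988, 4040105088265, 0, 1, 76, [(0, 0), (1, 76), (1, 137)]⟩]⟩,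
    ⟨[-49, -1, 2], 253122786321, 2, 5, 0, 0, []⟩,
    ⟨[-102, -25, 4, 1], 156025737417, 1, 5, 0, 0, [⟨-316070423, -316070420, -721307303145, 1, 1, -54, [(-1, -71), (1, -83), (0, 0)]⟩,
      ⟨-289393725, -289393722, 900287958327154, 0, -1, 39, [(-1, 45), (-1, 64), (0, 0)]⟩,
      ⟨337028687, 337028690, 830479237673, 0, 1, 37, [(-1, 61), (-1, 41), (0, 0)]⟩]⟩]
  chA := [
    (-391564436, 102, [(1, 160), (1, 182), (-1, 253)]),
    (-319568221, -1, [(1, 41), (1, 62), (-1, 53)]),
    (-317168347, -30, [(1, -66), (1, -21), (-1, -77)]),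
    (-316868363, -35, [(1, -90), (1, -30), (-1, -87)]),
    (-316568379, -44, [(32, -111), (1, -47), (-1, -112)]),
    (-316118403, -50, [(-1, -80), (1, -66), (-1, -147)]),
    (-315968410, -55, [(-1, -70), (1, -87), (170, -164)]),
    (-315818418, -57, [(-1, -67), (1, -101), (1, -162)]),
    (-315668426, -62, [(-1, -61), (22, -99), (1, -134)]),
    (-314768473, -68, [(-1, -55), (-1, -77), (1, -117)])]
  LB := -314768474
  chB := [
    (-285258930, 42, [(-1, 48), (-1, 67), (0, 0)]),
    (0, 99, [(-1, 105), (-1, 124), (-1, 146)]),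
    (285258929, 49, [(-1, 86), (-1, 97), (-1, 137)]),
    (314768474, 42, [(-1, 82), (-1, 90), (-1, 130)])]
  LC := 314768473
  chC := [
    (336367336, 35, [(-1, 62), (-1, 45), (-1, 66)]),
    (337567273, 38, [(-1, 61), (-1, 40), (0, 0)]),
    (348366706, 47, [(-1, 56), (-1, 14), (1, 73)]),
    (350766580, 53, [(-1, 51), (2, -22), (1, 95)]),
    (372365444, 57, [(-1, 47), (1, 22), (1, 103)]),
    (381964939, 70, [(-1, 17), (1, 63), (1, 128)]),
    (386764687, 75, [(2, -22), (1, 74), (1, 136)]),
    (929136172, 90, [(1, 120), (1, 144), (1, 215)]),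
    (1543503872, 198, [(1, 196), (1, 219), (1, 302)])]
  mL := -314768474
  mR := -314768473
  mB := 0
  mC := [(-1, -38), (-1, -38), (1, -85)]
  pL := 314768473
  pR := 314768474
  pB := 0
  pC := [(-1, 73), (-1, 73), (-1, 107)]

theorem cert23_ok : cert23.ok = true := by decide +kernel

/-- certificate for d = 25 -/
def cert25 : Cert2 where
  d := 25
  S := 1000000000000000
  M := 67108864
  a0 := 246234297469834
  a1 := -98688913299746
  a2 := 10705219292526
  a3 := 0
  a4 := -11338400372
  h0 := 4435619447729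
  p0 := 0
  Q := [⟨[5, 1], 3559422794103, 1, 2, 0, 0, [⟨-335544321, -335544319, 222843728869, 1, 1, 0, [(0, 0)]⟩]⟩]
  chA := [
    (-349842396, 88, [(-1, 55)]),
    (-334034310, -3, [(4, -44)]),
    (-330082289, -48, [(1, -82)]),
    (-328764948, -55, [(1, -80)])]
  LB := -328764949
  chB := [
    (287669330, 65, [(1, 70)]),
    (308217139, 49, [(1, 72)]),
    (328764949, 32, [(1, 72)])]
  LC := 328764948
  chC := [
    (370919843, 54, [(1, 75)]),
    (1003243274, 73, [(1, 77)]),
    (1677721600, 203, [(1, 108)])]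
  mL := -328764949
  mR := -328764948
  mB := 0
  mC := [(1, -73)]
  pL := 328764948
  pR := 328764949
  pB := 0
  pC := [(1, 73)]

theorem cert25_ok : cert25.ok = true := by decide +kernel

end Pool.Agent.KS6_66.MO
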