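import Mathlib
import Pool.Graph.R_seed8.W130.HL.Cert2

set_option autoImplicit false

/-!
Certificates for the median eigenvalues of the graphs of maximum degree 27, 29, 31, 34, 35, 36, 39, 40, 41, 43, 45, 46, 47, 49
(format and checker: `Pool.Agent.W130.HL.Cert2`).
-/

namespace Pool.Agent.KS6_66.MO

open Pool.Agent.W130.HL

/-- certificate for d = 27 -/
def cert27 : Cert2 where
  d := 27
  S := 1000000000000000
  M := 67108864
  a0 := 241227965893195
  a1 := -96573333865992
  a2 := 10078162364133
  a3 := 0
  a4 := -9322578690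
  h0 := 2482012974861
  p0 := 0
  Q := [⟨[-21, 1, 1], 889713927637, 1, 2, 0, 0, [⟨-342911011, -342911008, -3009935009276, 1, 1, -71, [(0, 0), (1, 0), (1, -8), (-1, -19), (1, 34)]⟩,
      ⟨275802144, 275802147, 5701289831016, 0, -1, 71, [(0, 0), (1, 0), (1, 95), (-1, 116), (1, 80)]⟩]⟩,
    ⟨[106, -26, -4, 1], 226456824668, 1, 3, 0, 0, [⟨-343629410, -343629407, -374685205795, 1, 1, -49, [(1, -74), (0, 0), (-1, -26), (-1, -48), (1, -12)]⟩,
      ⟨285393807, 285393810, 3690394999680, 0, -1, 66, [(1, 9), (0, 0), (1, 88), (-1, 113), (1, 65)]⟩,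
      ⟨326671054, 326671057, 343212835732, 0, -1, 27, [(1, 65), (0, 0), (1, 49), (-1, 92), (-1, 46)]⟩]⟩,
    ⟨[158, -26, -6, 1], 66291612447, 1, 7, 0, 0, [⟨-343371281, -343371278, -144301942713, 1, 1, -55, [(1, -88), (1, -33), (0, 0), (-1, -34), (1, 12)]⟩,
      ⟨364745392, 364745395, -27913821813, 0, 1, 40, [(1, 84), (1, 63), (0, 0), (-1, -7), (-1, 27)]⟩,
      ⟨381279069, 381279072, 232693955577, 0, 1, 59, [(1, 91), (1, 81), (0, 0), (1, 63), (1, 34)]⟩]⟩,
    ⟨[-84, -1, 3], 108806926248, 2, 11, 0, 0, []⟩,
    ⟨[260, -53, -10, 2], 48640254891, 2, 3, 0, 0, []⟩]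
  chA := [
    (-434048778, 111, [(1, 168), (-1, 279), (-1, 281), (1, 205), (-1, 302)]),
    (-347930618, 16, [(1, 45), (-1, 123), (-1, 128), (1, 83), (-1, 148)]),
    (-345060013, -25, [(1, -37), (-1, 26), (-1, 37), (1, -20), (-1, 46)]),
    (-344162949, -37, [(1, -54), (-1, -4), (-1, 13), (1, -65), (-1, 7)]),
    (-343983536, -40, [(1, -59), (-1, -15), (-1, 6), (18, -92), (-1, -12)]),
    (-343893830, -42, [(1, -62), (-1, -26), (-1, -1), (-1, -85), (-1, -38)]),
    (-343804123, -43, [(1, -64), (-1, -32), (-1, -4), (-1, -74), (6, -57)]),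
    (-343714417, -45, [(1, -68), (-1, -48), (-1, -11), (-1, -62), (1, -53)]),
    (-343624710, -47, [(1, -71), (8, -67), (-1, -18), (-1, -54), (1, -27)]),
    (-343400445, -52, [(1, -83), (1, -47), (-1, -60), (-1, -38), (1, 6)]),
    (-343355592, -54, [(1, -87), (1, -36), (20, -96), (-1, -35), (1, 11)]),
    (-343086472, -57, [(1, -95), (1, -23), (1, -60), (-1, -30), (1, 18)]),
    (-342907059, -64, [(41, -119), (1, -8), (1, -22), (-1, -23), (1, 28)]),
    (-342548233, -88, [(-1, -102), (1, 11), (1, 8), (-1, -11), (1, 43)]),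
    (-342189407, -95, [(-1, -94), (1, 14), (1, 11), (-1, -10), (1, 45)])]
  LB := -342189408
  chB := [
    (272682184, 83, [(-1, 57), (1, 112), (1, 124), (-1, 125), (1, 140)]),
    (278028894, 70, [(2, -22), (1, -8), (1, 93), (-1, 115), (1, 77)]),
    (304762441, 55, [(1, 44), (0, 0), (1, 74), (-1, 106), (1, 36)]),
    (307435796, 52, [(1, 48), (-1, -3), (1, 71), (-1, 104), (2, -22)]),
    (315455860, 44, [(1, 56), (-1, -9), (1, 63), (-1, 100), (-1, 26)]),
    (320802570, 43, [(1, 57), (-1, -12), (1, 62), (-1, 99), (-1, 30)]),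
    (331495989, 36, [(1, 61), (2, -22), (1, 56), (-1, 96), (-1, 40)]),
    (342189408, 13, [(1, 68), (1, -18), (1, 41), (-1, 88), (-1, 50)])]
  LC := 342189407
  chC := [
    (362283643, 35, [(1, 83), (1, 58), (1, -18), (-1, 37), (-1, 36)]),
    (365154249, 37, [(1, 83), (1, 60), (9, -70), (-1, 20), (-1, 34)]),
    (368024854, 45, [(1, 86), (1, 67), (-1, -74), (0, 0), (-1, 15)]),
    (372330761, 48, [(1, 87), (1, 70), (-1, -61), (1, 22), (-1, -7)]),
    (373766064, 50, [(1, 87), (1, 72), (-1, -58), (1, 33), (3, -35)]),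
    (376636670, 53, [(1, 88), (1, 74), (-1, -60), (1, 45), (1, -21)]),
    (388119092, 55, [(1, 89), (1, 77), (2, -22), (1, 53), (1, 16)]),
    (525908147, 70, [(1, 95), (1, 117), (1, 94), (1, 104), (1, 128)]),
    (1077064367, 120, [(1, 137), (1, 213), (1, 208), (1, 168), (1, 233)]),
    (1811939328, 208, [(1, 210), (1, 308), (1, 305), (1, 243), (1, 328)])]
  mL := -342189408
  mR := -342189407
  mB := 0
  mC := [(-1, -74), (1, 22), (1, 22), (-1, -3), (1, 52)]
  pL := 342189407
  pR := 342189408
  pB := 0
  pC := [(1, 74), (1, 22), (1, 22), (-1, 77), (-1, 52)]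

theorem cert27_ok : cert27.ok = true := by decide +kernel

/-- certificate for d = 29 -/
def cert29 : Cert2 where
  d := 29
  S := 1000000000000000
  M := 67108864
  a0 := 237327578064545
  a1 := -92576839341114
  a2 := 9501031389261
  a3 := 0
  a4 := -7786931197
  h0 := 3542445106195
  p0 := 0
  Q := [⟨[-51, 1, 2], 608384562082, 2, 7, 0, 0, []⟩,
    ⟨[-23, 1, 1], 1044467554159, 1, 2, 0, 0, [⟨-357141657, -357141654, -2448367011621, 1, 1, -36, [(1, -36), (0, 0)]⟩,
      ⟨290032790, 290032793, 2705382049407, 0, -1, 71, [(-1, 71), (0, 0)]⟩]⟩]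
  chA := [
    (-454547375, 115, [(1, 196), (1, 173)]),
    (-361321770, 19, [(1, 72), (1, 48)]),
    (-357437370, -24, [(1, -16), (1, -56)]),
    (-356660490, -36, [(1, -53), (14, -84)]),
    (-356272050, -50, [(1, -72), (-1, -73)]),
    (-355883610, -58, [(16, -89), (-1, -55)]),
    (-355106729, -73, [(-1, -75), (-1, -52)])]
  LB := -355106730
  chB := [
    (288524217, 84, [(-1, 94), (-1, 60)]),
    (294072759, 70, [(-1, 68), (0, 0)]),
    (321815473, 58, [(-1, 29), (1, 41)]),
    (324589744, 49, [(0, 0), (1, 53)]),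
    (355106730, 43, [(1, 34), (1, 58)])]
  LC := 355106729
  chC := [
    (379966890, 43, [(1, 93), (1, 85)]),
    (454547374, 54, [(1, 98), (1, 89)]),
    (1946157056, 209, [(1, 232), (1, 211)])]
  mL := -355106730
  mR := -355106729
  mB := 0
  mC := [(-1, -39), (-1, -39)]
  pL := 355106729
  pR := 355106730
  pB := 0
  pC := [(1, 75), (1, 75)]

theorem cert29_ok : cert29.ok = true := by decide +kernel

/-- certificate for d = 31 -/
def cert31 : Cert2 where
  d := 31
  S := 1000000000000000
  M := 67108864
  a0 := 249405949100389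
  a1 := -87954003125608
  a2 := 8450892607673
  a3 := 0
  a4 := -6072114707
  h0 := 2780702553487
  p0 := 0
  Q := [⟨[11, 2], 3849437901425, 2, 3, 0, 0, []⟩]
  chA := [
    (-474620661, 119, [(-1, 85)]),
    (-374261029, 15, [(-1, -4)]),
    (-369243047, -17, [(-1, -89)]),
    (-368406717, -62, [(48, -124)]),
    (-367570386, -86, [(1, -109)])]
  LB := -367570387
  chB := [
    (321624088, 80, [(1, 95)]),
    (367570387, 47, [(1, 98)])]
  LC := 367570386
  chC := [
    (421095523, 48, [(1, 100)]),
    (1223972585, 93, [(1, 103)]),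
    (2080374784, 217, [(1, 137)])]
  mL := -367570387
  mR := -367570386
  mB := 0
  mC := [(1, -99)]
  pL := 367570386
  pR := 367570387
  pB := 0
  pC := [(1, 99)]

theorem cert31_ok : cert31.ok = true := by decide +kernel

/-- certificate for d = 34 -/
def cert34 : Cert2 where
  d := 34
  S := 1000000000000000
  M := 67108864
  a0 := 241587036773613
  a1 := -85386173618081
  a2 := 7923696854734
  a3 := 0
  a4 := -4840825026
  h0 := 2489240452036
  p0 := 0
  Q := [⟨[-175, -29, 6, 1], 1071846891541, 1, 2, 0, 0, [⟨-386669904, -386669901, -4688745899795, 1, 1, -52, [(0, 0)]⟩,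
      ⟨-377922054, -377922051, 968230116204118, 0, -1, 8, [(0, 0)]⟩,
      ⟨361938769, 361938772, 4064231774550, 0, -1, 44, [(0, 0)]⟩]⟩]
  chA := [
    (-504022967, 124, [(-1, 291)]),
    (-392918067, 28, [(-1, 79)]),
    (-389214570, -13, [(-1, -81)]),
    (-386899885, -26, [(-1, -124)]),
    (-386436948, -58, [(195, -169)]),
    (-385511073, -75, [(1, -142)])]
  LB := -385511074
  chB := [
    (-361416632, 43, [(0, 0)]),
    (337322189, 75, [(-1, 146)]),
    (361416631, 63, [(-1, 114)]),
    (362169582, 44, [(0, 0)]),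
    (385511074, 33, [(1, 82)])]
  LC := 385511073
  chC := [
    (415139046, 51, [(1, 150)]),
    (504022966, 58, [(1, 154)]),
    (2281701376, 219, [(1, 335)])]
  mL := -385511074
  mR := -385511073
  mB := 0
  mC := [(1, -123)]
  pL := 385511073
  pR := 385511074
  pB := 0
  pC := [(1, 123)]

theorem cert34_ok : cert34.ok = true := by decide +kernel

/-- certificate for d = 35 -/
def cert35 : Cert2 where
  d := 35
  S := 1000000000000000
  M := 67108864
  a0 := 246372678177272
  a1 := -84813030493209
  a2 := 7545299226532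
  a3 := 0
  a4 := -4333274819
  h0 := 2101639393907
  p0 := 0
  Q := [⟨[-40, -1, 1], 474253153865, 1, 3, 0, 0, [⟨-392203582, -392203579, -1387389169718, 1, 1, -60, [(0, 0)]⟩,
      ⟨459312443, 459312446, 4467727806056, 0, 1, 82, [(0, 0)]⟩]⟩]
  chA := [
    (-398955048, 101, [(1, 187)]),
    (-393220180, -30, [(1, -32)]),
    (-392742275, -44, [(1, -72)]),
    (-392264369, -46, [(1, -78)]),
    (-392025416, -66, [(29, -108)]),
    (-391308557, -77, [(-1, -85)])]
  LB := -391308558
  chB := [
    (342394988, 84, [(-1, 102)]),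
    (366851773, 47, [(-1, 88)]),
    (391308558, 44, [(-1, 87)])]
  LC := 391308557
  chC := [
    (406601538, 30, [(-1, 72)]),
    (421894520, 50, [(-1, 64)]),
    (456303729, 57, [(-1, 60)]),
    (460126975, 80, [(0, 0)]),
    (635996267, 87, [(1, 78)]),
    (2348810240, 222, [(1, 220)])]
  mL := -391308558
  mR := -391308557
  mB := 0
  mC := [(-1, -57)]
  pL := 391308557
  pR := 391308558
  pB := 0
  pC := [(-1, 79)]

theorem cert35_ok : cert35.ok = true := by decide +kernel

/-- certificate for d = 36 -/
def cert36 : Cert2 where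
  d := 36
  S := 1000000000000000
  M := 67108864
  a0 := 247591735377584
  a1 := -82533894767829
  a2 := 7293915868592
  a3 := 0
  a4 := -3988906793
  h0 := 2800913807788
  p0 := 0
  Q := [⟨[6, 1], 2475015891722, 1, 2, 0, 0, [⟨-402653185, -402653183, 206450068235, 1, 1, 0, [(0, 0)]⟩]⟩]
  chA := [
    (-523202500, 127, [(-1, 68)]),
    (-404907713, 31, [(-1, -22)]),
    (-398992973, -29, [(18, -92)]),
    (-397021393, -56, [(1, -85)])]
  LB := -397021394
  chB := [
    (347393719, 85, [(1, 75)]),
    (372207556, 54, [(1, 78)]),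
    (397021394, 44, [(1, 78)])]
  LC := 397021393
  chC := [
    (428566669, 54, [(1, 80)]),
    (901745820, 69, [(1, 82)]),
    (2415919104, 226, [(1, 119)])]
  mL := -397021394
  mR := -397021393
  mB := 0
  mC := [(1, -79)]
  pL := 397021393
  pR := 397021394
  pB := 0
  pC := [(1, 79)]

theorem cert36_ok : cert36.ok = true := by decide +kernel

/-- certificate for d = 39 -/
def cert39 : Cert2 where
  d := 39
  S := 1000000000000000
  M := 67108864
  a0 := 243546129771569
  a1 := -80140312809217
  a2 := 6824155832283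
  a3 := 0
  a4 := -3232017073
  h0 := 2114010364141
  p0 := 0
  Q := [⟨[-32, 1, 1], 673806020390, 1, 7, 0, 0, [⟨-414659521, -414659518, -1808528081575, 1, 1, -55, [(0, 0)]⟩,
      ⟨347550654, 347550657, 4109738523357, 0, -1, 77, [(0, 0)]⟩]⟩]
  chA := [
    (-422294472, 106, [(1, 192)]),
    (-415838733, -25, [(1, -32)]),
    (-414762777, -39, [(1, -71)]),
    (-414493788, -60, [(35, -114)]),
    (-413686820, -77, [(-1, -80)])]
  LB := -413686821
  chB := [
    (342584397, 92, [(-1, 71)]),
    (349048254, 79, [(0, 0)]),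
    (387831394, 51, [(1, 61)]),
    (413686821, 47, [(1, 64)])]
  LC := 413686820
  chC := [
    (448117427, 54, [(1, 93)]),
    (551409249, 65, [(1, 97)]),
    (2617245696, 228, [(1, 229)])]
  mL := -413686821
  mR := -413686820
  mB := 0
  mC := [(-1, -58)]
  pL := 413686820
  pR := 413686821
  pB := 0
  pC := [(1, 80)]

theorem cert39_ok : cert39.ok = true := by decide +kernel

/-- certificate for d = 40 -/
def cert40 : Cert2 where
  d := 40
  S := 1000000000000000
  M := 67108864
  a0 := 240606575701417
  a1 := -78908638713359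
  a2 := 6725816291564
  a3 := 0
  a4 := -3054578420
  h0 := 2330695778778
  p0 := 0
  Q := [⟨[-33, 1, 1], 749933878308, 1, 2, 0, 0, [⟨-420523021, -420523018, -1956550796318, 1, 1, -42, [(0, 0), (1, -42)]⟩,
      ⟨353414154, 353414157, 2671755787755, 0, -1, 77, [(0, 0), (-1, 77)]⟩]⟩,
    ⟨[-72, 1, 2], 378777735208, 2, 5, 0, 0, []⟩]
  chA := [
    (-427943393, 108, [(1, 194), (1, 217)]),
    (-423519057, -4, [(1, -19), (1, 12)]),
    (-420753847, -30, [(1, -61), (1, -21)]),
    (-420200805, -42, [(18, -92), (1, -58)]),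
    (-419924284, -56, [(-1, -79), (1, -77)]),
    (-419647763, -68, [(-1, -72), (19, -94)]),
    (-419094721, -79, [(-1, -57), (-1, -81)])]
  LB := -419094722
  chB := [
    (350336993, 92, [(-1, 72), (-1, 104)]),
    (353611171, 79, [(0, 0), (-1, 80)]),
    (384715857, 62, [(1, 49), (-1, 37)]),
    (386352946, 58, [(1, 55), (0, 0)]),
    (419094722, 47, [(1, 65), (1, 40)])]
  LC := 419094721
  chC := [
    (454489405, 51, [(1, 92), (1, 100)]),
    (560673460, 67, [(1, 97), (1, 108)]),
    (2684354560, 230, [(1, 231), (1, 253)])]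
  mL := -419094722
  mR := -419094721
  mB := 0
  mC := [(-1, -45), (-1, -45)]
  pL := 419094721
  pR := 419094722
  pB := 0
  pC := [(1, 80), (1, 80)]

theorem cert40_ok : cert40.ok = true := by decide +kernel

/-- certificate for d = 41 -/
def cert41 : Cert2 where
  d := 41
  S := 1000000000000000
  M := 67108864
  a0 := 243068934091976
  a1 := -78318843079868
  a2 := 6493705722712
  a3 := 0
  a4 := -2806545829
  h0 := 2005110670943
  p0 := 0
  Q := [⟨[-74, 1, 2], 290607595534, 2, 3, 0, 0, []⟩]
  chA := [
    (-433523682, 109, [(1, 218)]),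
    (-426706212, -22, [(1, -5)]),
    (-425569967, -44, [(1, -59)]),
    (-425285906, -58, [(11, -77)]),
    (-424433722, -69, [(-1, -73)])]
  LB := -424433723
  chB := [
    (371379507, 89, [(-1, 98)]),
    (391274838, 62, [(-1, 25)]),
    (392932782, 56, [(2, -22)]),
    (424433723, 46, [(1, 41)])]
  LC := 424433722
  chC := [
    (442613641, 38, [(1, 95)]),
    (460793561, 53, [(1, 101)]),
    (1006191147, 75, [(1, 150)]),
    (2751463424, 235, [(1, 257)])]
  mL := -424433723
  mR := -424433722
  mB := 0
  mC := [(-1, -36)]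
  pL := 424433722
  pR := 424433723
  pB := 0
  pC := [(1, 80)]

theorem cert41_ok : cert41.ok = true := by decide +kernel

/-- certificate for d = 43 -/
def cert43 : Cert2 where
  d := 43
  S := 1000000000000000
  M := 67108864
  a0 := 245744596314782
  a1 := -76493624407512
  a2 := 6118053630422
  a3 := 0
  a4 := -2413881624
  h0 := 2160497705133
  p0 := 0
  Q := []
  chA := [
    (-444488451, 112, []),
    (-436111810, -44, []),
    (-435513478, -54, []),
    (-434915146, -71, [])]
  LB := -434915147
  chB := [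
    (394141851, 79, []),
    (407732950, 55, []),
    (434915147, 50, [])]
  LC := 434915146
  chC := [
    (463635059, 54, []),
    (511501583, 59, []),
    (1660298149, 110, []),
    (2885681152, 238, [])]
  mL := -434915147
  mR := -434915146
  mB := 0
  mC := []
  pL := 434915146
  pR := 434915147
  pB := 0
  pC := []

theorem cert43_ok : cert43.ok = true := by decide +kernel

/-- certificate for d = 45 -/
def cert45 : Cert2 where
  d := 45
  S := 1000000000000000
  M := 67108864
  a0 := 245939899852216
  a1 := -74760013611727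
  a2 := 5834122100218
  a3 := 0
  a4 := -2116784820
  h0 := 2064825753122
  p0 := 0
  Q := []
  chA := [
    (-455207457, 114, []),
    (-447664247, -17, []),
    (-445778444, -54, []),
    (-445149843, -69, [])]
  LB := -445149844
  chB := [
    (389506113, 92, []),
    (417327978, 58, []),
    (445149844, 52, [])]
  LC := 445149843
  chC := [
    (475322682, 56, []),
    (525610750, 61, []),
    (1732524361, 113, []),
    (3019898880, 241, [])]
  mL := -445149844
  mR := -445149843
  mB := 0
  mC := []
  pL := 445149843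
  pR := 445149844
  pB := 0
  pC := []

theorem cert45_ok : cert45.ok = true := by decide +kernel

/-- certificate for d = 46 -/
def cert46 : Cert2 where
  d := 46
  S := 1000000000000000
  M := 67108864
  a0 := 245954142842154
  a1 := -73970804507129
  a2 := 5703514317622
  a3 := 0
  a4 := -1987174390
  h0 := 1889123057202
  p0 := 0
  Q := []
  chA := [
    (-460480054, 115, []),
    (-451145581, -47, []),
    (-450179945, -58, [])]
  LB := -450179946
  chB := [
    (393907452, 93, []),
    (422043699, 56, []),
    (450179946, 52, [])]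
  LC := 450179945
  chC := [
    (481080270, 56, []),
    (532580813, 62, []),
    (1768593844, 114, []),
    (3087007744, 243, [])]
  mL := -450179946
  mR := -450179945
  mB := 0
  mC := []
  pL := 450179945
  pR := 450179946
  pB := 0
  pC := []

theorem cert46_ok : cert46.ok = true := by decide +kernel

/-- certificate for d = 47 -/
def cert47 : Cert2 where
  d := 47
  S := 1000000000000000
  M := 67108864
  a0 := 246044113065583
  a1 := -73172882013172
  a2 := 5576922327904
  a3 := 0
  a4 := -1867359243
  h0 := 1848849462908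
  p0 := 0
  Q := []
  chA := [
    (-465697281, 116, []),
    (-457790166, -15, []),
    (-455813387, -56, []),
    (-455154460, -66, [])]
  LB := -455154461
  chB := [
    (398260153, 94, []),
    (426707307, 57, []),
    (455154461, 53, [])]
  LC := 455154460
  chC := [
    (476240101, 45, []),
    (486782922, 57, []),
    (792524728, 67, []),
    (3154116608, 247, [])]
  mL := -455154461
  mR := -455154460
  mB := 0
  mC := []
  pL := 455154460
  pR := 455154461
  pB := 0
  pC := []

theorem cert47_ok : cert47.ok = true := by decide +kernel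

/-- certificate for d = 49 -/
def cert49 : Cert2 where
  d := 49
  S := 1000000000000000
  M := 67108864
  a0 := 246201194146682
  a1 := -71657674908158
  a2 := 5340072715012
  a3 := 0
  a4 := -1655369949
  h0 := 1749536009665
  p0 := 0
  Q := []
  chA := [
    (-475972718, 119, []),
    (-467701066, -13, []),
    (-465633153, -57, []),
    (-464943848, -64, [])]
  LB := -464943849
  chB := [
    (406825867, 95, []),
    (435884858, 58, []),
    (464943849, 55, [])]
  LC := 464943848
  chC := [
    (487001586, 47, []),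
    (509059324, 57, []),
    (1170791470, 93, []),
    (3288334336, 246, [])]
  mL := -464943849
  mR := -464943848
  mB := 0
  mC := []
  pL := 464943848
  pR := 464943849
  pB := 0
  pC := []

theorem cert49_ok : cert49.ok = true := by decide +kernel

end Pool.Agent.KS6_66.MO
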