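import Mathlib
import Pool.Graph.R_seed8.W130.HL.Cert2

set_option autoImplicit false

/-!
Certificates for the median eigenvalues of the graphs of maximum degree 51, 52, 53, 55, 56, 57, 58, 59, 61, 63, 64, 66, 67, 69, 70, 71, 73, 75, 76
(format and checker: `Pool.Agent.W130.HL.Cert2`).
-/

namespace Pool.Agent.KS6_66.MO

open Pool.Agent.W130.HL

/-- certificate for d = 51 -/
def cert51 : Cert2 where
  d := 51
  S := 1000000000000000
  M := 67108864
  a0 := 246323187176283
  a1 := -70240952445472
  a2 := 5122919159495
  a3 := 0
  a4 := -1474598375
  h0 := 1626750010693
  p0 := 0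
  Q := []
  chA := [
    (-486047034, 121, []),
    (-477410255, -11, []),
    (-474531328, -58, [])]
  LB := -474531329
  chB := [
    (415214912, 96, []),
    (444873120, 59, []),
    (474531329, 56, [])]
  LC := 474531328
  chC := [
    (497562740, 49, []),
    (509078446, 57, []),
    (843033920, 71, []),
    (3422552064, 252, [])]
  mL := -474531329
  mR := -474531328
  mB := 0
  mC := []
  pL := 474531328
  pR := 474531329
  pB := 0
  pC := []

theorem cert51_ok : cert51.ok = true := by decide +kernel

/-- certificate for d = 52 -/
def cert52 : Cert2 where
  d := 52
  S := 1000000000000000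
  M := 67108864
  a0 := 246388604778872
  a1 := -69560936015774
  a2 := 5020654514044
  a3 := 0
  a4 := -1394026902
  h0 := 1578804394451
  p0 := 0
  Q := []
  chA := [
    (-485132852, 121, []),
    (-479253149, -58, [])]
  LB := -479253150
  chB := [
    (419346506, 97, []),
    (449299828, 60, []),
    (479253150, 56, [])]
  LC := 479253149
  chC := [
    (502771959, 50, []),
    (526290770, 57, []),
    (1231855093, 96, []),
    (3489660928, 250, [])]
  mL := -479253150
  mR := -479253149
  mB := 0
  mC := []
  pL := 479253149
  pR := 479253150
  pB := 0
  pC := []

theorem cert52_ok : cert52.ok = true := by decide +kernel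

/-- certificate for d = 53 -/
def cert53 : Cert2 where
  d := 53
  S := 1000000000000000
  M := 67108864
  a0 := 246472559618067
  a1 := -68890362221454
  a2 := 4921968623362
  a3 := 0
  a4 := -1319133743
  h0 := 1572444605288
  p0 := 0
  Q := []
  chA := [
    (-495932185, 123, []),
    (-485429311, -26, []),
    (-483928900, -58, [])]
  LB := -483928901
  chB := [
    (423437788, 98, []),
    (453683344, 61, []),
    (483928901, 56, [])]
  LC := 483928900
  chC := [
    (507935469, 51, []),
    (675981455, 63, []),
    (3556769792, 251, [])]
  mL := -483928901
  mR := -483928900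
  mB := 0
  mC := []
  pL := 483928900
  pR := 483928901
  pB := 0
  pC := []

theorem cert53_ok : cert53.ok = true := by decide +kernel

/-- certificate for d = 55 -/
def cert55 : Cert2 where
  d := 55
  S := 1000000000000000
  M := 67108864
  a0 := 246615998238001
  a1 := -67615156396122
  a2 := 4736051825313
  a3 := 0
  a4 := -1184851777
  h0 := 1521365847224
  p0 := 0
  Q := []
  chA := [
    (-505638985, 125, []),
    (-496270313, -7, []),
    (-493928145, -52, []),
    (-493147422, -58, [])]
  LB := -493147423
  chB := [
    (431503995, 99, []),
    (462325709, 62, []),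
    (493147423, 57, [])]
  LC := 493147422
  chC := [
    (518130547, 53, []),
    (593079925, 64, []),
    (3690987520, 252, [])]
  mL := -493147423
  mR := -493147422
  mB := 0
  mC := []
  pL := 493147422
  pR := 493147423
  pB := 0
  pC := []

theorem cert55_ok : cert55.ok = true := by decide +kernel

/-- certificate for d = 56 -/
def cert56 : Cert2 where
  d := 56
  S := 1000000000000000
  M := 67108864
  a0 := 246693075281263
  a1 := -66999454428146
  a2 := 4648076995113
  a3 := 0
  a4 := -1124500278
  h0 := 1513634224272
  p0 := 0
  Q := []
  chA := [
    (-510428608, 126, []),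
    (-500876644, -6, []),
    (-498488653, -51, []),
    (-497692655, -57, [])]
  LB := -497692656
  chB := [
    (435481074, 99, []),
    (466586865, 62, []),
    (497692656, 57, [])]
  LC := 497692655
  chC := [
    (523164559, 54, []),
    (599580271, 65, []),
    (3758096384, 253, [])]
  mL := -497692656
  mR := -497692655
  mB := 0
  mC := []
  pL := 497692655
  pR := 497692656
  pB := 0
  pC := []

theorem cert56_ok : cert56.ok = true := by decide +kernel

/-- certificate for d = 57 -/
def cert57 : Cert2 where
  d := 57
  S := 1000000000000000
  M := 67108864
  a0 := 246711987232111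
  a1 := -66421664378840
  a2 := 4564306673694
  a3 := 0
  a4 := -1068455116
  h0 := 1419824235200
  p0 := 0
  Q := []
  chA := [
    (-515177255, 127, []),
    (-502196753, -58, [])]
  LB := -502196754
  chB := [
    (439422159, 100, []),
    (470809456, 63, []),
    (502196754, 56, [])]
  LC := 502196753
  chC := [
    (528157756, 55, []),
    (606040768, 62, []),
    (3825205248, 254, [])]
  mL := -502196754
  mR := -502196753
  mB := 0
  mC := []
  pL := 502196753
  pR := 502196754
  pB := 0
  pC := []

theorem cert57_ok : cert57.ok = true := by decide +kernel

/-- certificate for d = 58 -/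
def cert58 : Cert2 where
  d := 58
  S := 1000000000000000
  M := 67108864
  a0 := 246795783282331
  a1 := -65830917432056
  a2 := 4482327056102
  a3 := 0
  a4 := -1015811166
  h0 := 1441968554331
  p0 := 0
  Q := []
  chA := [
    (-519886021, 128, []),
    (-509967115, -4, []),
    (-507487388, -49, []),
    (-506660812, -57, [])]
  LB := -506660813
  chB := [
    (443328211, 101, []),
    (474994512, 63, []),
    (506660813, 56, [])]
  LC := 506660812
  chC := [
    (533111228, 56, []),
    (612462477, 63, []),
    (3892314112, 255, [])]
  mL := -506660813
  mR := -506660812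
  mB := 0
  mC := []
  pL := 506660812
  pR := 506660813
  pB := 0
  pC := []

theorem cert58_ok : cert58.ok = true := by decide +kernel

/-- certificate for d = 59 -/
def cert59 : Cert2 where
  d := 59
  S := 1000000000000000
  M := 67108864
  a0 := 246892478365377
  a1 := -65257489000849
  a2 := 4402960018651
  a3 := 0
  a4 := -966506501
  h0 := 1456598614667
  p0 := 0
  Q := []
  chA := [
    (-524555948, 129, []),
    (-514453398, -4, []),
    (-511927761, -48, []),
    (-511085881, -56, [])]
  LB := -511085882
  chB := [
    (447200146, 101, []),
    (479143014, 64, []),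
    (511085882, 57, [])]
  LC := 511085881
  chC := [
    (538026014, 57, []),
    (618846415, 64, []),
    (3959422976, 256, [])]
  mL := -511085882
  mR := -511085881
  mB := 0
  mC := []
  pL := 511085881
  pR := 511085882
  pB := 0
  pC := []

theorem cert59_ok : cert59.ok = true := by decide +kernel

/-- certificate for d = 61 -/
def cert61 : Cert2 where
  d := 61
  S := 1000000000000000
  M := 67108864
  a0 := 246924518174902
  a1 := -64196013996414
  a2 := 4254903405873
  a3 := 0
  a4 := -877713784
  h0 := 1308235956984
  p0 := 0
  Q := []
  chA := [
    (-533783251, 130, []),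
    (-521568054, -19, []),
    (-519823025, -59, [])]
  LB := -519823026
  chB := [
    (454845147, 102, []),
    (487334086, 65, []),
    (503578556, 59, []),
    (519823026, 40, [])]
  LC := 519823025
  chC := [
    (547743475, 59, []),
    (631504827, 66, []),
    (4093640704, 258, [])]
  mL := -519823026
  mR := -519823025
  mB := 0
  mC := []
  pL := 519823025
  pR := 519823026
  pB := 0
  pC := []

theorem cert61_ok : cert61.ok = true := by decide +kernel

/-- certificate for d = 63 -/
def cert63 : Cert2 where
  d := 63
  S := 1000000000000000
  M := 67108864
  a0 := 247015871713410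
  a1 := -63166051563240
  a2 := 4115456503445
  a3 := 0
  a4 := -799305433
  h0 := 1249024247096
  p0 := 0
  Q := []
  chA := [
    (-542866672, 132, []),
    (-529318908, -38, []),
    (-528415723, -60, [])]
  LB := -528415724
  chB := [
    (462363758, 103, []),
    (495389741, 66, []),
    (511902732, 58, []),
    (528415724, 41, [])]
  LC := 528415723
  chC := [
    (557317619, 60, []),
    (644023307, 67, []),
    (4227858432, 260, [])]
  mL := -528415724
  mR := -528415723
  mB := 0
  mC := []
  pL := 528415723
  pR := 528415724
  pB := 0
  pC := []

theorem cert63_ok : cert63.ok = true := by decide +kernel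

/-- certificate for d = 64 -/
def cert64 : Cert2 where
  d := 64
  S := 1000000000000000
  M := 67108864
  a0 := 247067083486716
  a1 := -62666583072746
  a2 := 4048973787736
  a3 := 0
  a4 := -763578657
  h0 := 1232637467330
  p0 := 0
  Q := []
  chA := [
    (-547356607, 133, []),
    (-533578627, -37, []),
    (-532660094, -59, [])]
  LB := -532660095
  chB := [
    (466077583, 104, []),
    (499368839, 67, []),
    (516014467, 58, []),
    (532660095, 42, [])]
  LC := 532660094
  chC := [
    (562053119, 61, []),
    (650232194, 68, []),
    (4294967296, 261, [])]
  mL := -532660095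
  mR := -532660094
  mB := 0
  mC := []
  pL := 532660094
  pR := 532660095
  pB := 0
  pC := []

theorem cert64_ok : cert64.ok = true := by decide +kernel

/-- certificate for d = 66 -/
def cert66 : Cert2 where
  d := 66
  S := 1000000000000000
  M := 67108864
  a0 := 247146685796035
  a1 := -61708323750290
  a2 := 3922517845861
  a3 := 0
  a4 := -698350272
  h0 := 1174919468204
  p0 := 0
  Q := []
  chA := [
    (-556236990, 135, []),
    (-541048958, -59, [])]
  LB := -541048959
  chB := [
    (473417839, 105, []),
    (507233399, 68, []),
    (524141179, 59, []),
    (541048959, 43, [])]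
  LC := 541048958
  chC := [
    (571425021, 59, []),
    (662553210, 70, []),
    (4429185024, 263, [])]
  mL := -541048959
  mR := -541048958
  mB := 0
  mC := []
  pL := 541048958
  pR := 541048959
  pB := 0
  pC := []

theorem cert66_ok : cert66.ok = true := by decide +kernel

/-- certificate for d = 67 -/
def cert67 : Cert2 where
  d := 67
  S := 1000000000000000
  M := 67108864
  a0 := 247167586467565
  a1 := -61251231685397
  a2 := 3862461717071
  a3 := 0
  a4 := -668571267
  h0 := 1122054050544
  p0 := 0
  Q := []
  chA := [
    (-560628969, 135, []),
    (-546159612, -27, []),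
    (-545194988, -62, [])]
  LB := -545194989
  chB := [
    (477045615, 105, []),
    (511120302, 68, []),
    (528157645, 58, []),
    (545194989, 43, [])]
  LC := 545194988
  chC := [
    (576062948, 59, []),
    (1039082350, 77, []),
    (4496293888, 269, [])]
  mL := -545194989
  mR := -545194988
  mB := 0
  mC := []
  pL := 545194988
  pR := 545194989
  pB := 0
  pC := []

theorem cert67_ok : cert67.ok = true := by decide +kernel

/-- certificate for d = 69 -/
def cert69 : Cert2 where
  d := 69
  S := 1000000000000000
  M := 67108864
  a0 := 247258920229818
  a1 := -60349461174068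
  a2 := 3746928922264
  a3 := 0
  a4 := -613794324
  h0 := 1097473935858
  p0 := 0
  Q := []
  chA := [
    (-561356990, 136, []),
    (-553393869, -60, [])]
  LB := -553393870
  chB := [
    (484219636, 106, []),
    (518806753, 69, []),
    (536100311, 59, []),
    (553393870, 44, [])]
  LC := 553393869
  chC := [
    (585246351, 61, []),
    (1063033587, 79, []),
    (4630511616, 271, [])]
  mL := -553393870
  mR := -553393869
  mB := 0
  mC := []
  pL := 553393869
  pR := 553393870
  pB := 0
  pC := []

theorem cert69_ok : cert69.ok = true := by decide +kernel

/-- certificate for d = 70 -/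
def cert70 : Cert2 where
  d := 70
  S := 1000000000000000
  M := 67108864
  a0 := 247301170985326
  a1 := -59913811953621
  a2 := 3691730390570
  a3 := 0
  a4 := -588653926
  h0 := 1082748002787
  p0 := 0
  Q := []
  chA := [
    (-573620640, 138, []),
    (-558458876, -25, []),
    (-557448091, -60, [])]
  LB := -557448092
  chB := [
    (487767080, 107, []),
    (522607586, 70, []),
    (540027839, 59, []),
    (557448092, 44, [])]
  LC := 557448091
  chC := [
    (589793187, 62, []),
    (1074969639, 80, []),
    (4697620480, 272, [])]
  mL := -557448092
  mR := -557448091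
  mB := 0
  mC := []
  pL := 557448091
  pR := 557448092
  pB := 0
  pC := []

theorem cert70_ok : cert70.ok = true := by decide +kernel

/-- certificate for d = 71 -/
def cert71 : Cert2 where
  d := 71
  S := 1000000000000000
  M := 67108864
  a0 := 247342615908918
  a1 := -59487293512695
  a2 := 3638127013288
  a3 := 0
  a4 := -564873693
  h0 := 1069756276782
  p0 := 0
  Q := []
  chA := [
    (-577892009, 139, []),
    (-562499225, -24, []),
    (-561986132, -61, []),
    (-561473039, -68, [])]
  LB := -561473040
  chB := [
    (491288910, 107, []),
    (526380975, 70, []),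
    (543927007, 59, []),
    (561473040, 45, [])]
  LC := 561473039
  chC := [
    (594310978, 62, []),
    (1086880077, 80, []),
    (4764729344, 272, [])]
  mL := -561473040
  mR := -561473039
  mB := 0
  mC := []
  pL := 561473039
  pR := 561473040
  pB := 0
  pC := []

theorem cert71_ok : cert71.ok = true := by decide +kernel

/-- certificate for d = 73 -/
def cert73 : Cert2 where
  d := 73
  S := 1000000000000000
  M := 67108864
  a0 := 247429184548333
  a1 := -58658628331678
  a2 := 3535349190837
  a3 := 0
  a4 := -521023127
  h0 := 1054779353475
  p0 := 0
  Q := []
  chA := [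
    (-577893667, 139, []),
    (-569437593, -60, [])]
  LB := -569437594
  chB := [
    (498257894, 108, []),
    (533847744, 71, []),
    (551642669, 60, []),
    (569437594, 46, [])]
  LC := 569437593
  chC := [
    (586349739, 45, []),
    (603261885, 63, []),
    (1110626277, 82, []),
    (4898947072, 274, [])]
  mL := -569437594
  mR := -569437593
  mB := 0
  mC := []
  pL := 569437593
  pR := 569437594
  pB := 0
  pC := []

theorem cert73_ok : cert73.ok = true := by decide +kernel

/-- certificate for d = 75 -/
def cert75 : Cert2 where
  d := 75
  S := 1000000000000000
  M := 67108864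
  a0 := 247489113139930
  a1 := -57870595253748
  a2 := 3438508062867
  a3 := 0
  a4 := -481660825
  h0 := 1009623629426
  p0 := 0
  Q := []
  chA := [
    (-594698029, 141, []),
    (-579467996, -8, []),
    (-577292276, -60, [])]
  LB := -577292277
  chB := [
    (505130742, 109, []),
    (541211509, 72, []),
    (559251893, 61, []),
    (577292277, 47, [])]
  LC := 577292276
  chC := [
    (594698028, 46, []),
    (612103780, 62, []),
    (1134276341, 83, []),
    (5033164800, 276, [])]
  mL := -577292277
  mR := -577292276
  mB := 0
  mC := []
  pL := 577292276
  pR := 577292277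
  pB := 0
  pC := []

theorem cert75_ok : cert75.ok = true := by decide +kernel

/-- certificate for d = 76 -/
def cert76 : Cert2 where
  d := 76
  S := 1000000000000000
  M := 67108864
  a0 := 247517876563517
  a1 := -57488085974365
  a2 := 3392046380984
  a3 := 0
  a4 := -463467439
  h0 := 988948412910
  p0 := 0
  Q := []
  chA := [
    (-585592988, 140, []),
    (-581179810, -61, [])]
  LB := -581179811
  chB := [
    (508532334, 109, []),
    (544856072, 72, []),
    (563017941, 62, []),
    (581179811, 47, [])]
  LC := 581179810
  chC := [
    (598832520, 47, []),
    (616485230, 62, []),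
    (1146066541, 84, []),
    (5100273664, 277, [])]
  mL := -581179811
  mR := -581179810
  mB := 0
  mC := []
  pL := 581179810
  pR := 581179811
  pB := 0
  pC := []

theorem cert76_ok : cert76.ok = true := by decide +kernel

end Pool.Agent.KS6_66.MO
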