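import Mathlib
import Pool.Graph.R_seed8.W130.HL.Cert2

set_option autoImplicit false

/-!
Certificates for the median eigenvalues of the graphs of maximum degree 77, 78, 79, 81, 83, 85, 86, 87, 88, 89, 91, 92, 93, 94, 95, 96, 97, 99, 100
(format and checker: `Pool.Agent.W130.HL.Cert2`).
-/

namespace Pool.Agent.KS6_66.MO

open Pool.Agent.W130.HL

/-- certificate for d = 77 -/
def cert77 : Cert2 where
  d := 77
  S := 1000000000000000
  M := 67108864
  a0 := 247542631711433
  a1 := -57114265313742
  a2 := 3346864115771
  a3 := 0
  a4 := -446188915
  h0 := 963247034460
  p0 := 0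
  Q := []
  chA := [
    (-589516455, 141, []),
    (-585041512, -60, [])]
  LB := -585041513
  chB := [
    (511911323, 110, []),
    (548476418, 73, []),
    (566758965, 60, []),
    (585041513, 48, [])]
  LC := 585041512
  chC := [
    (602941281, 48, []),
    (620841051, 63, []),
    (1157834139, 85, []),
    (5167382528, 277, [])]
  mL := -585041513
  mR := -585041512
  mB := 0
  mC := []
  pL := 585041512
  pR := 585041513
  pB := 0
  pC := []

theorem cert77_ok : cert77.ok = true := by decide +kernel

/-- certificate for d = 78 -/
def cert78 : Cert2 where
  d := 78
  S := 1000000000000000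
  M := 67108864
  a0 := 247570502108224
  a1 := -56746796900929
  a2 := 3302818930612
  a3 := 0
  a4 := -429755484
  h0 := 942352425712
  p0 := 0
  Q := []
  chA := [
    (-607024819, 144, []),
    (-590012074, -19, []),
    (-588877891, -61, [])]
  LB := -588877892
  chB := [
    (552073023, 94, []),
    (570475457, 60, []),
    (588877892, 48, [])]
  LC := 588877891
  chC := [
    (607024818, 48, []),
    (625171746, 61, []),
    (1169579578, 93, []),
    (5234491392, 278, [])]
  mL := -588877892
  mR := -588877891
  mB := 0
  mC := []
  pL := 588877891
  pR := 588877892
  pB := 0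
  pC := []

theorem cert78_ok : cert78.ok = true := by decide +kernel

/-- certificate for d = 79 -/
def cert79 : Cert2 where
  d := 79
  S := 1000000000000000
  M := 67108864
  a0 := 247604091536929
  a1 := -56383561118018
  a2 := 3259832271764
  a3 := 0
  a4 := -414112422
  h0 := 934532397215
  p0 := 0
  Q := []
  chA := [
    (-597287984, 142, []),
    (-592689438, -60, [])]
  LB := -592689439
  chB := [
    (555646349, 94, []),
    (574167894, 61, []),
    (592689439, 48, [])]
  LC := 592689438
  chC := [
    (611083620, 49, []),
    (629477803, 62, []),
    (1181303290, 94, []),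
    (5301600256, 279, [])]
  mL := -592689439
  mR := -592689438
  mB := 0
  mC := []
  pL := 592689438
  pR := 592689439
  pB := 0
  pC := []

theorem cert79_ok : cert79.ok = true := by decide +kernel

/-- certificate for d = 81 -/
def cert81 : Cert2 where
  d := 81
  S := 1000000000000000
  M := 67108864
  a0 := 247648554969829
  a1 := -55683852852919
  a2 := 3177380136001
  a3 := 0
  a4 := -385074215
  h0 := 890615720727
  p0 := 0
  Q := []
  chA := [
    (-619128904, 146, []),
    (-601420489, -18, []),
    (-600830208, -57, []),
    (-600239927, -61, [])]
  LB := -600239928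
  chB := [
    (562724932, 95, []),
    (581482430, 61, []),
    (600239928, 49, [])]
  LC := 600239927
  chC := [
    (619128903, 50, []),
    (638017880, 63, []),
    (1204687184, 95, []),
    (5435817984, 281, [])]
  mL := -600239928
  mR := -600239927
  mB := 0
  mC := []
  pL := 600239927
  pR := 600239928
  pB := 0
  pC := []

theorem cert81_ok : cert81.ok = true := by decide +kernel

/-- certificate for d = 83 -/
def cert83 : Cert2 where
  d := 83
  S := 1000000000000000
  M := 67108864
  a0 := 247708875020293
  a1 := -55006056012481
  a2 := 3098767907919
  a3 := 0
  a4 := -358671243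
  h0 := 865070595563
  p0 := 0
  Q := []
  chA := [
    (-617388678, 146, []),
    (-607696609, -62, [])]
  LB := -607696610
  chB := [
    (569715571, 96, []),
    (588706090, 62, []),
    (607696610, 50, [])]
  LC := 607696609
  chC := [
    (627080746, 52, []),
    (646464883, 61, []),
    (1227988996, 96, []),
    (5570035712, 282, [])]
  mL := -607696610
  mR := -607696609
  mB := 0
  mC := []
  pL := 607696609
  pR := 607696610
  pB := 0
  pC := []

theorem cert83_ok : cert83.ok = true := by decide +kernel

/-- certificate for d = 85 -/
def cert85 : Cert2 where
  d := 85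
  S := 1000000000000000
  M := 67108864
  a0 := 247762528367584
  a1 := -54354812993839
  a2 := 3023990393113
  a3 := 0
  a4 := -334641995
  h0 := 829867825757
  p0 := 0
  Q := []
  chA := [
    (-634942549, 148, []),
    (-617547855, -2, []),
    (-615062898, -62, [])]
  LB := -615062899
  chB := [
    (576621467, 96, []),
    (595842183, 60, []),
    (615062899, 51, [])]
  LC := 615062898
  chC := [
    (634942548, 53, []),
    (694581500, 71, []),
    (1887360533, 121, []),
    (5704253440, 282, [])]
  mL := -615062899
  mR := -615062898
  mB := 0
  mC := []
  pL := 615062898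
  pR := 615062899
  pB := 0
  pC := []

theorem cert85_ok : cert85.ok = true := by decide +kernel

/-- certificate for d = 86 -/
def cert86 : Cert2 where
  d := 86
  S := 1000000000000000
  M := 67108864
  a0 := 247795036114610
  a1 := -54032619298271
  a2 := 2987859014699
  a3 := 0
  a4 := -323426632
  h0 := 836870867034
  p0 := 0
  Q := []
  chA := [
    (-638840691, 149, []),
    (-621229097, -1, []),
    (-618713155, -61, [])]
  LB := -618713156
  chB := [
    (580043583, 97, []),
    (599378369, 63, []),
    (618713156, 51, [])]
  LC := 618713155
  chC := [
    (638840690, 53, []),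
    (658968226, 63, []),
    (1262794298, 98, []),
    (5771362304, 284, [])]
  mL := -618713156
  mR := -618713155
  mB := 0
  mC := []
  pL := 618713155
  pR := 618713156
  pB := 0
  pC := []

theorem cert86_ok : cert86.ok = true := by decide +kernel

/-- certificate for d = 87 -/
def cert87 : Cert2 where
  d := 87
  S := 1000000000000000
  M := 67108864
  a0 := 247798848126277
  a1 := -53725894016141
  a2 := 2952906039912
  a3 := 0
  a4 := -312744014
  h0 := 797399247486
  p0 := 0
  Q := []
  chA := [
    (-627435879, 148, []),
    (-622342002, -63, [])]
  LB := -622342003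
  chB := [
    (583445627, 97, []),
    (602893815, 61, []),
    (622342003, 52, [])]
  LC := 622342002
  chC := [
    (642717506, 54, []),
    (703844020, 69, []),
    (1926374293, 123, []),
    (5838471168, 283, [])]
  mL := -622342003
  mR := -622342002
  mB := 0
  mC := []
  pL := 622342002
  pR := 622342003
  pB := 0
  pC := []

theorem cert87_ok : cert87.ok = true := by decide +kernel

/-- certificate for d = 88 -/
def cert88 : Cert2 where
  d := 88
  S := 1000000000000000
  M := 67108864
  a0 := 247819201835255
  a1 := -53419904227267
  a2 := 2918568237363
  a3 := 0
  a4 := -302507506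
  h0 := 780088573598
  p0 := 0
  Q := []
  chA := [
    (-631105701, 148, []),
    (-625949812, -62, [])]
  LB := -625949813
  chB := [
    (547706086, 114, []),
    (606388881, 70, []),
    (625949813, 52, [])]
  LC := 625949812
  chC := [
    (646573367, 55, []),
    (708444034, 69, []),
    (1945857367, 123, []),
    (5905580032, 284, [])]
  mL := -625949813
  mR := -625949812
  mB := 0
  mC := []
  pL := 625949812
  pR := 625949813
  pB := 0
  pC := []

theorem cert88_ok : cert88.ok = true := by decide +kernel

/-- certificate for d = 89 -/
def cert89 : Cert2 where
  d := 89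
  S := 1000000000000000
  M := 67108864
  a0 := 247842042818831
  a1 := -53119782380259
  a2 := 2884984312139
  a3 := 0
  a4 := -292710019
  h0 := 759620883851
  p0 := 0
  Q := []
  chA := [
    (-650408634, 151, []),
    (-630841427, -13, []),
    (-630189187, -53, []),
    (-629536946, -65, [])]
  LB := -629536947
  chB := [
    (550844828, 114, []),
    (609863917, 67, []),
    (629536947, 52, [])]
  LC := 629536946
  chC := [
    (650408633, 55, []),
    (963483942, 69, []),
    (5972688896, 283, [])]
  mL := -629536947
  mR := -629536946
  mB := 0
  mC := []
  pL := 629536946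
  pR := 629536947
  pB := 0
  pC := []

theorem cert89_ok : cert89.ok = true := by decide +kernel

/-- certificate for d = 91 -/
def cert91 : Cert2 where
  d := 91
  S := 1000000000000000
  M := 67108864
  a0 := 247877606183335
  a1 := -52532746458779
  a2 := 2820176618962
  a3 := 0
  a4 := -274366466
  h0 := 728217666457
  p0 := 0
  Q := []
  chA := [
    (-658018772, 152, []),
    (-637986096, -12, []),
    (-637318340, -52, []),
    (-636650584, -64, [])]
  LB := -636650585
  chB := [
    (557069261, 115, []),
    (616755254, 68, []),
    (636650585, 53, [])]
  LC := 636650584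
  chC := [
    (658018771, 56, []),
    (978541586, 70, []),
    (6106906624, 285, [])]
  mL := -636650585
  mR := -636650584
  mB := 0
  mC := []
  pL := 636650584
  pR := 636650585
  pB := 0
  pC := []

theorem cert91_ok : cert91.ok = true := by decide +kernel

/-- certificate for d = 92 -/
def cert92 : Cert2 where
  d := 92
  S := 1000000000000000
  M := 67108864
  a0 := 247927528379223
  a1 := -52239581496896
  a2 := 2788487208201
  a3 := 0
  a4 := -265731971
  h0 := 746266309919
  p0 := 0
  Q := []
  chA := [
    (-661794315, 152, []),
    (-641528796, -11, []),
    (-640853279, -51, []),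
    (-640177761, -63, [])]
  LB := -640177762
  chB := [
    (560155541, 115, []),
    (620172206, 68, []),
    (640177762, 53, [])]
  LC := 640177761
  chC := [
    (661794314, 57, []),
    (986042618, 70, []),
    (6174015488, 285, [])]
  mL := -640177762
  mR := -640177761
  mB := 0
  mC := []
  pL := 640177761
  pR := 640177762
  pB := 0
  pC := []

theorem cert92_ok : cert92.ok = true := by decide +kernel

/-- certificate for d = 93 -/
def cert93 : Cert2 where
  d := 93
  S := 1000000000000000
  M := 67108864
  a0 := 247935605836533
  a1 := -51958310136242
  a2 := 2757949691170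
  a3 := 0
  a4 := -257504333
  h0 := 729731169672
  p0 := 0
  Q := []
  chA := [
    (-654618108, 152, []),
    (-643685610, -64, [])]
  LB := -643685611
  chB := [
    (563224909, 116, []),
    (623570435, 68, []),
    (643685611, 54, [])]
  LC := 643685610
  chC := [
    (665550605, 57, []),
    (993525531, 71, []),
    (6241124352, 286, [])]
  mL := -643685611
  mR := -643685610
  mB := 0
  mC := []
  pL := 643685610
  pR := 643685611
  pB := 0
  pC := []

theorem cert93_ok : cert93.ok = true := by decide +kernel

/-- certificate for d = 94 -/
def cert94 : Cert2 where
  d := 94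
  S := 1000000000000000
  M := 67108864
  a0 := 247972777912527
  a1 := -51675077163899
  a2 := 2727755816208
  a3 := 0
  a4 := -249582797
  h0 := 745581588271
  p0 := 0
  Q := []
  chA := [
    (-658231203, 152, []),
    (-647174447, -63, [])]
  LB := -647174448
  chB := [
    (566277642, 116, []),
    (626950246, 69, []),
    (647174448, 54, [])]
  LC := 647174447
  chC := [
    (669287957, 58, []),
    (1000990620, 72, []),
    (6308233216, 287, [])]
  mL := -647174448
  mR := -647174447
  mB := 0
  mC := []
  pL := 647174447
  pR := 647174448
  pB := 0
  pC := []

theorem cert94_ok : cert94.ok = true := by decide +kernel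

/-- certificate for d = 95 -/
def cert95 : Cert2 where
  d := 95
  S := 1000000000000000
  M := 67108864
  a0 := 247998369098857
  a1 := -51400852919508
  a2 := 2698328955131
  a3 := 0
  a4 := -241994085
  h0 := 738484093195
  p0 := 0
  Q := []
  chA := [
    (-661825626, 153, []),
    (-650644576, -63, [])]
  LB := -650644577
  chB := [
    (569314004, 117, []),
    (630311933, 69, []),
    (650644577, 54, [])]
  LC := 650644576
  chC := [
    (673006675, 58, []),
    (1008438170, 72, []),
    (6375342080, 287, [])]
  mL := -650644577
  mR := -650644576
  mB := 0
  mC := []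
  pL := 650644576
  pR := 650644577
  pB := 0
  pC := []

theorem cert95_ok : cert95.ok = true := by decide +kernel

/-- certificate for d = 96 -/
def cert96 : Cert2 where
  d := 96
  S := 1000000000000000
  M := 67108864
  a0 := 248007318893218
  a1 := -51133787875764
  a2 := 2669700232451
  a3 := 0
  a4 := -234727815
  h0 := 717891244452
  p0 := 0
  Q := []
  chA := [
    (-665401677, 153, []),
    (-654096296, -62, [])]
  LB := -654096297
  chB := [
    (572334259, 117, []),
    (633655787, 69, []),
    (654096297, 55, [])]
  LC := 654096296
  chC := [
    (676707056, 59, []),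
    (1015868461, 73, []),
    (6442450944, 288, [])]
  mL := -654096297
  mR := -654096296
  mB := 0
  mC := []
  pL := 654096296
  pR := 654096297
  pB := 0
  pC := []

theorem cert96_ok : cert96.ok = true := by decide +kernel

/-- certificate for d = 97 -/
def cert97 : Cert2 where
  d := 97
  S := 1000000000000000
  M := 67108864
  a0 := 248018852037904
  a1 := -50872312549541
  a2 := 2641643885454
  a3 := 0
  a4 := -227746901
  h0 := 690917814027
  p0 := 0
  Q := []
  chA := [
    (-680389388, 155, []),
    (-660387333, 5, []),
    (-657529896, -63, [])]
  LB := -657529897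
  chB := [
    (575338659, 117, []),
    (636982087, 70, []),
    (657529897, 55, [])]
  LC := 657529896
  chC := [
    (680389387, 59, []),
    (1023281765, 73, []),
    (6509559808, 289, [])]
  mL := -657529897
  mR := -657529896
  mB := 0
  mC := []
  pL := 657529896
  pR := 657529897
  pB := 0
  pC := []

theorem cert97_ok : cert97.ok = true := by decide +kernel

/-- certificate for d = 99 -/
def cert99 : Cert2 where
  d := 99
  S := 1000000000000000
  M := 67108864
  a0 := 248070194892954
  a1 := -50349919626065
  a2 := 2586962632762
  a3 := 0
  a4 := -214573335
  h0 := 694108822849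
  p0 := 0
  Q := []
  chA := [
    (-687701022, 156, []),
    (-667263505, 6, []),
    (-664343859, -62, [])]
  LB := -664343860
  chB := [
    (581300877, 118, []),
    (643583114, 70, []),
    (664343860, 56, [])]
  LC := 664343859
  chC := [
    (687701021, 60, []),
    (1038058463, 74, []),
    (6643777536, 290, [])]
  mL := -664343860
  mR := -664343859
  mB := 0
  mC := []
  pL := 664343859
  pR := 664343860
  pB := 0
  pC := []

theorem cert99_ok : cert99.ok = true := by decide +kernel

/-- certificate for d = 100 -/
def cert100 : Cert2 where
  d := 100
  S := 1000000000000000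
  M := 67108864
  a0 := 248078611209546
  a1 := -50099535468978
  a2 := 2560629092068
  a3 := 0
  a4 := -208381888
  h0 := 671678648350
  p0 := 0
  Q := []
  chA := [
    (-673626291, 155, []),
    (-667724765, -64, [])]
  LB := -667724766
  chB := [
    (584259170, 118, []),
    (646858367, 71, []),
    (667724766, 56, [])]
  LC := 667724765
  chC := [
    (691330865, 61, []),
    (1045422367, 75, []),
    (6710886400, 291, [])]
  mL := -667724766
  mR := -667724765
  mB := 0
  mC := []
  pL := 667724765
  pR := 667724766
  pB := 0
  pC := []

theorem cert100_ok : cert100.ok = true := by decide +kernel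

end Pool.Agent.KS6_66.MO
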