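import Mathlib
import Pool.Graph.R_seed8.W130.HL.Cert2
import Pool.Agent.KS6_66.MO.Abs

set_option autoImplicit false

/-!
# Soundness of the certificates, with an explicit gap
-/

namespace Pool.Agent.KS6_66.MO

open Matrix Polynomial Finset Pool.Agent.W130.HL

lemma tGeNeg_spec66 {c : ℝ} (hc : 0 < c) {D M : ℤ} (hM : 0 < M) (hcd : c ^ 2 = D) {r : ℤ}
    (h : tGeNeg D M r = true) : -(c * M) ≤ r := by
  have hM' : (0 : ℝ) < M := by exact_mod_cast hM
  have hcM : 0 < c * M := by positivity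
  simp only [tGeNeg, Bool.or_eq_true, decide_eq_true_eq] at h
  rcases h with h | h
  · have : (0 : ℝ) ≤ r := by exact_mod_cast h
    linarith
  · have h1 := sq_le_real hcd h
    exact (abs_le.mp (abs_le_of_sq_le_sq h1 hcM.le)).1

lemma tLeNeg_spec66 {c : ℝ} (_hc : 0 < c) {D M : ℤ} (_hM : 0 < M) (hcd : c ^ 2 = D) {r : ℤ}
    (h : tLeNeg D M r = true) : (r : ℝ) ≤ -(c * M) := by
  simp only [tLeNeg, Bool.and_eq_true, decide_eq_true_eq] at h
  obtain ⟨hr0, hr⟩ := h
  have h1 := sq_ge_real hcd hr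
  have h2 : (r : ℝ) ≤ 0 := by exact_mod_cast hr0
  have h3 : (c * M) ^ 2 ≤ (-(r : ℝ)) ^ 2 := by rw [neg_sq]; exact h1
  have h4 := abs_le_of_sq_le_sq h3 (by linarith)
  have h5 := (abs_le.mp h4).2
  linarith

lemma tLe_spec66 {c : ℝ} (hc : 0 < c) {D M : ℤ} (hM : 0 < M) (hcd : c ^ 2 = D) {r : ℤ}
    (h : tLe D M r = true) : (r : ℝ) ≤ c * M := by
  have hM' : (0 : ℝ) < M := by exact_mod_cast hM
  have hcM : 0 < c * M := by positivity
  simp only [tLe, Bool.or_eq_true, decide_eq_true_eq] at h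
  rcases h with h | h
  · have : (r : ℝ) ≤ 0 := by exact_mod_cast h
    linarith
  · have h1 := sq_le_real hcd h
    exact (abs_le.mp (abs_le_of_sq_le_sq h1 hcM.le)).2

lemma tGe_spec66 {c : ℝ} (_hc : 0 < c) {D M : ℤ} (_hM : 0 < M) (hcd : c ^ 2 = D) {r : ℤ}
    (h : tGe D M r = true) : c * M ≤ (r : ℝ) := by
  simp only [tGe, Bool.and_eq_true, decide_eq_true_eq] at h
  obtain ⟨hr0, hr⟩ := h
  have h1 := sq_ge_real hcd hr
  have h2 : (0 : ℝ) ≤ r := by exact_mod_cast hr0
  exact (abs_le.mp (abs_le_of_sq_le_sq h1 h2)).2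

section

variable {V : Type*} [Fintype V] [DecidableEq V] {A : Matrix V V ℝ} {hA : A.IsHermitian}
  {M : Matrix V V ℤ} {d : ℕ} {k : V → ℕ}

/-- the root blocks of the auxiliary polynomials contribute nonnegatively -/
lemma Good.blocks_nonneg (hG : Good A hA M d k) (C : Cert2) (hS : 0 < C.S) (Q : List QE) (hqe : ∀ e ∈ Q, C.qeOK e = true)
    (hspec : ∀ p ∈ allT Q, ev p.1 (rootOf C.M p.1 p.2) = 0) :
    0 ≤ ∑ i, ((allT Q).map (fun p => if hA.eigenvalues i = rootOf C.M p.1 p.2 then
      (p.2.β : ℝ) / C.S else 0)).sum := by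
  have hS' : (0 : ℝ) < C.S := by exact_mod_cast hS
  induction Q with
  | nil => simp [allT]
  | cons e Q ih =>
    have ih' := ih (fun e he => hqe e (List.mem_cons_of_mem _ he)) (fun p hp => hspec p (by
      rw [allT, mem_addT]; right; exact hp))
    simp only [allT, sum_addT]
    rw [Finset.sum_add_distrib]
    apply add_nonneg _ ih'
    have h1 := hqe e (List.mem_cons_self ..)
    simp only [Cert2.qeOK, Bool.or_eq_true, Bool.and_eq_true, decide_eq_true_eq] at h1
    have hempty : e.rts.length = 0 → 0 ≤ ∑ i, (e.rts.map (fun t =>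
        if hA.eigenvalues i = rootOf C.M e.q t then (t.β : ℝ) / C.S else 0)).sum := by
      intro h
      rw [List.length_eq_zero_iff.mp h]
      simp
    rcases h1 with ((h1 | h1) | h1) | h1
    · exact hempty h1.2
    · obtain ⟨⟨⟨⟨_, hirr⟩, _⟩, hsum⟩, _⟩ := h1
      have h2 := hG.block_nonneg (toPoly e.q) (irrTest_spec e.p e.q hirr)
        (e.rts.map (fun t => (rootOf C.M e.q t, (t.β : ℝ) / C.S))) ?_ ?_
      · simp only [List.map_map] at h2
        exact h2
      · intro p hp
        rw [List.mem_map] at hp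
        obtain ⟨t, ht, heq⟩ := hp
        rw [← heq, aeval_toPoly]
        exact hspec (e.q, t) (by rw [allT, mem_addT]; left; exact ⟨rfl, ht⟩)
      · rw [List.map_map]
        have h3 : (e.rts.map (Prod.snd ∘ fun t => (rootOf C.M e.q t, (t.β : ℝ) / C.S))).sum =
            (sumB e.rts : ℝ) / C.S := sum_map_div e.rts C.S
        rw [h3]
        have : (0 : ℝ) ≤ sumB e.rts := by exact_mod_cast hsum
        positivity
    · exact hempty h1.2
    · exact hempty h1.2

set_option maxHeartbeats 4000000 in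
theorem Good.cert2_sound (C : Cert2) (hG : Good A hA M C.d k) (hok : C.ok = true)
    (h30 : C.a3 = 0) (c : ℝ) (hc : 0 < c) (hcd : c ^ 2 = (C.d : ℝ) - 1) (t : ℝ)
    (ht : ∀ k : ℕ, k ≤ C.d →
      (C.a0 : ℝ) + C.a2 * k + C.a4 * (2 * k * k - k) ≤ t * C.S) :
    ((univ.filter (fun i => hA.eigenvalues i < -c)).card : ℝ) ≤ t * Fintype.card V := by
  simp only [Cert2.ok, Bool.and_eq_true, decide_eq_true_eq, Bool.or_eq_true] at hok
  obtain ⟨⟨⟨⟨⟨⟨⟨⟨⟨⟨⟨⟨⟨⟨⟨⟨⟨⟨⟨⟨⟨⟨⟨⟨⟨⟨⟨⟨hS, hM⟩, hh0⟩, hw⟩, ha3⟩, ha4⟩, hdeg⟩, hA0⟩, hA1⟩, hA2⟩,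
    hB0⟩, hB1⟩, hB2⟩, hB3⟩, hC0⟩, hC1⟩, hC2⟩, hC3⟩, hm1⟩, hm2⟩, hm3⟩,
    hp1⟩, hp2⟩, hp3⟩, hβ⟩, hqes⟩, hdm⟩, hdp⟩, hpw⟩ := hok
  have hS' : (0 : ℝ) < C.S := by exact_mod_cast hS
  have hM' : (0 : ℝ) < C.M := by exact_mod_cast hM
  have hcd' : c ^ 2 = (((C.d : ℤ) - 1 : ℤ) : ℝ) := by rw [hcd]; push_cast; ring
  have hcM : 0 < c * C.M := by positivity
  have hq0 : ∀ x : ℝ, ev C.q0 x = x ^ 2 - c ^ 2 := by
    intro x
    rw [hcd]
    simp only [Cert2.q0, ev]
    push_cast
    ring
  have hqe := qesOK_mem C C.Q hqes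
  -- the listed roots
  have hre : ∀ p ∈ allT C.Q, C.reOK p.1 p.2 = true := by
    intro p hp
    obtain ⟨e, he, h1, h2⟩ := (mem_allT _ _).mp hp
    have h3 := hqe e he
    simp only [Cert2.qeOK, Bool.or_eq_true, Bool.and_eq_true, decide_eq_true_eq] at h3
    have hne : e.rts.length ≠ 0 := by
      intro h0
      rw [List.length_eq_zero_iff.mp h0] at h2
      simp at h2
    rcases h3 with ((h3 | h3) | h3) | h3
    · exact absurd h3.2 hne
    · rw [h1]; exact resOK_mem C e.q e.rts h3.2 p.2 h2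
    · exact absurd h3.2 hne
    · exact absurd h3.2 hne
  have hspec : ∀ p ∈ allT C.Q, (p.2.L : ℝ) < C.M * rootOf C.M p.1 p.2 ∧
      C.M * rootOf C.M p.1 p.2 < p.2.R ∧ ev p.1 (rootOf C.M p.1 p.2) = 0 := by
    intro p hp
    have h1 := hre p hp
    simp only [Cert2.reOK, Bool.and_eq_true] at h1
    exact rootOf_spec C.M p.1 p.2 hM h1.1.1
  -- the weight function
  set Bf : ℝ → ℝ := fun x => (if x = -c then (C.mB : ℝ) / C.S else 0) +
    (if x = c then (C.pB : ℝ) / C.S else 0) +
    ((allT C.Q).map (fun p => if x = rootOf C.M p.1 p.2 then (p.2.β : ℝ) / C.S else 0)).sum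
    with hBf
  have hsumat := sum_at C.M (allT C.Q) (C.S : ℝ) (fun p hp => ⟨(hspec p hp).1, (hspec p hp).2.1⟩)
    hpw
  have hcne : c ≠ -c := by intro h; linarith
  -- the listed roots differ from `± c`
  have hnm : ∀ p ∈ allT C.Q, -c ≠ rootOf C.M p.1 p.2 := by
    intro p hp hcon
    have h1 := hspec p hp
    rw [← hcon] at h1
    have h2 := tLeNeg_spec66 hc hM hcd' hm2
    have h3 := tGeNeg_spec66 hc hM hcd' hm3
    rcases disjI_spec _ _ _ hdm p hp with h4 | h4
    · have h5 : (C.mR : ℝ) ≤ p.2.L := by exact_mod_cast h4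
      linarith [h1.1]
    · have h5 : (p.2.R : ℝ) ≤ C.mL := by exact_mod_cast h4
      linarith [h1.2.1]
  have hnp : ∀ p ∈ allT C.Q, c ≠ rootOf C.M p.1 p.2 := by
    intro p hp hcon
    have h1 := hspec p hp
    rw [← hcon] at h1
    have h2 := tLe_spec66 hc hM hcd' hp2
    have h3 := tGe_spec66 hc hM hcd' hp3
    rcases disjI_spec _ _ _ hdp p hp with h4 | h4
    · have h5 : (C.pR : ℝ) ≤ p.2.L := by exact_mod_cast h4
      linarith [h1.1]
    · have h5 : (p.2.R : ℝ) ≤ C.pL := by exact_mod_cast h4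
      linarith [h1.2.1]
  have hB : 0 ≤ ∑ i, Bf (hA.eigenvalues i) := by
    simp only [hBf]
    rw [Finset.sum_add_distrib]
    apply add_nonneg
    · rcases hβ with h | h
      · rw [h.1, h.2]; simp
      · have h2 := hG.block_nonneg (toPoly C.q0) (irrTest_spec C.p0 C.q0 h.2)
          [(-c, (C.mB : ℝ) / C.S), (c, (C.pB : ℝ) / C.S)] ?_ ?_
        · simpa using h2
        · intro p hp
          rw [aeval_toPoly, hq0]
          simp only [List.mem_cons, List.not_mem_nil, or_false] at hp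
          rcases hp with hp | hp <;> rw [hp] <;> ring
        · simp only [List.map_cons, List.map_nil, List.sum_cons, List.sum_nil, add_zero]
          have h3 : (0 : ℝ) ≤ ((C.mB + C.pB : ℤ) : ℝ) := by exact_mod_cast h.1
          push_cast at h3
          rw [← add_div]
          positivity
    · exact hG.blocks_nonneg C hS C.Q hqe (fun p hp => (hspec p hp).2.2)
  -- nonvanishing for polynomials of mode 2
  set good : ℝ → Prop := fun x => ∀ e ∈ C.Q, (e.mode = 2 ∨ e.mode = 3) → ev e.q x ≠ 0 with hgood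
  have hgood' : ∀ i, good (hA.eigenvalues i) := by
    intro i e he hmode
    have h3 := hqe e he
    simp only [Cert2.qeOK, Bool.or_eq_true, Bool.and_eq_true, decide_eq_true_eq] at h3
    rcases h3 with ((h3 | h3) | h3) | h3
    · exfalso; have := h3.1; omega
    · exfalso; have := h3.1.1.1.1; omega
    · obtain ⟨⟨⟨⟨_, hirr⟩, hgcd⟩, hlc⟩, _⟩ := h3
      rw [← aeval_toPoly]
      apply hG.no_root (toPoly e.q) (irrTest_spec e.p e.q hirr) (gcdL_spec e.q hgcd)
      have hlc0 : lcL e.q ≠ 0 := by omega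
      rw [(toPoly_deg e.q hlc0).2, Int.isUnit_iff]
      omega
    · obtain ⟨⟨⟨⟨_, hirr⟩, hsc⟩, hout⟩, _⟩ := h3
      obtain ⟨r, hr1, hr2, hr3⟩ := exists_root e.q C.M e.oL e.oR hM hsc
      obtain ⟨m, hm⟩ := hG.exists_count (toPoly e.q) (irrTest_spec e.p e.q hirr)
      have hrd : (C.d : ℝ) < |r| := by
        rcases hout with h | h
        · have h5 : (((C.d : ℤ) * C.M : ℤ) : ℝ) ≤ (e.oL : ℝ) := by exact_mod_cast h
          push_cast at h5
          have h6 : (C.M : ℝ) * C.d < C.M * r := by linarith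
          exact lt_of_lt_of_le (lt_of_mul_lt_mul_left h6 hM'.le) (le_abs_self r)
        · have h5 : (e.oR : ℝ) ≤ ((-((C.d : ℤ) * C.M) : ℤ) : ℝ) := by exact_mod_cast h
          push_cast at h5
          have h6 : (C.M : ℝ) * C.d < C.M * (-r) := by linarith
          exact lt_of_lt_of_le (lt_of_mul_lt_mul_left h6 hM'.le) (neg_le_abs r)
      have hm0 : m = 0 := by
        rw [← hm r (by rw [aeval_toPoly]; exact hr3), Finset.card_eq_zero,
          Finset.filter_eq_empty_iff]
        intro j _ hj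
        have := hG.bound j
        rw [hj] at this
        linarith
      intro h0
      have h7 := hm (hA.eigenvalues i) (by rw [aeval_toPoly]; exact h0)
      rw [hm0, Finset.card_eq_zero, Finset.filter_eq_empty_iff] at h7
      exact h7 (Finset.mem_univ i) rfl
  -- the pointwise inequality
  have hpt : ∀ x : ℝ, |x| ≤ C.d → good x →
      (C.S : ℝ) * ((if x < -c then (1 : ℝ) else 0) + Bf x) ≤
      ev C.a x - (C.h0 * Real.log |ev C.q0 x| + logSum2 x (mkQt C.Q)) := by
    intro x hx hgx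
    rw [abs_le] at hx
    by_cases hroot : ∃ p ∈ allT C.Q, x = rootOf C.M p.1 p.2
    · obtain ⟨p, hp, hxp⟩ := hroot
      have hne1 : x ≠ -c := fun h => hnm p hp (by rw [← h]; exact hxp)
      have hne2 : x ≠ c := fun h => hnp p hp (by rw [← h]; exact hxp)
      have hBx : Bf x = (p.2.β : ℝ) / C.S := by
        simp only [hBf]
        rw [if_neg hne1, if_neg hne2, (hsumat x).2 p hp hxp]
        ring
      rw [hBx]
      have h1 := hspec p hp
      rw [← hxp] at h1
      have h2 := hre p hp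
      simp only [Cert2.reOK, Bool.and_eq_true, Bool.or_eq_true, decide_eq_true_eq] at h2
      obtain ⟨⟨_, hpiece⟩, hind⟩ := h2
      have h3 := rootPiece_sound C.a C.q0 C.h0 (mkQt C.Q) C.M (C.S * p.2.ind + p.2.β) p.2.L p.2.R
        _ hM hh0 hw hpiece x h1.1.le h1.2.1.le
      push_cast at h3
      have h4 : (C.S : ℝ) * (if x < -c then (1 : ℝ) else 0) ≤ C.S * p.2.ind := by
        apply mul_le_mul_of_nonneg_left _ hS'.le
        rcases hind with h | h
        · rw [h]; push_cast; split_ifs <;> norm_num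
        · rw [h.1]
          have h5 := tGeNeg_spec66 hc hM hcd' h.2
          rw [if_neg (by
            intro h6
            have : (C.M : ℝ) * x < C.M * (-c) := mul_lt_mul_of_pos_left h6 hM'
            linarith [h1.1])]
          norm_num
      have h5 : (C.S : ℝ) * ((p.2.β : ℝ) / C.S) = p.2.β := by field_simp
      rw [mul_add, h5]
      linarith
    · push Not at hroot
      have hnz : ∀ e ∈ mkQt C.Q, e.2.2 = true → ev e.1 x ≠ 0 := by
        intro q hq hq2
        obtain ⟨e, he, h1, h2⟩ := mem_mkQt C.Q q hq hq2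
        rw [h1]
        by_cases h3 : e.mode = 1
        · intro h4
          obtain ⟨t, ht, h5⟩ := root_listed C hM e he h3 (hqe e he) hpw hspec x h4
          exact hroot (e.q, t) ((mem_allT _ _).mpr ⟨e, he, rfl, ht⟩) h5
        · by_cases h4 : e.mode = 2 ∨ e.mode = 3
          · exact hgx e he h4
          · have h5 := hqe e he
            simp only [Cert2.qeOK, Bool.or_eq_true, Bool.and_eq_true, decide_eq_true_eq] at h5
            rcases h5 with ((h5 | h5) | h5) | h5
            · exact absurd h5.1 h2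
            · exact absurd h5.1.1.1.1 h3
            · exact absurd (Or.inl h5.1.1.1.1) h4
            · exact absurd (Or.inr h5.1.1.1.1) h4
      have hzero := (hsumat x).1 hroot
      rcases lt_trichotomy x (-c) with h | h | h
      · have hBx : Bf x = 0 := by
          simp only [hBf]
          rw [if_neg h.ne, if_neg (by linarith : x ≠ c), hzero]; ring
        rw [if_pos h, hBx]
        have := chain_sound2 C.a C.q0 C.h0 (mkQt C.Q) C.M C.S 1 hM hh0 hw C.chA
          (-(C.d : ℤ) * C.M) (neL_ne _ hA0) hA1 x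
          (by push_cast; nlinarith [hx.1])
          (by have := tGeNeg_spec66 hc hM hcd' hA2; nlinarith)
          (Or.inl ⟨rfl, by rw [hq0]; nlinarith⟩) hnz
        linarith
      · have hBx : Bf x = (C.mB : ℝ) / C.S := by
          simp only [hBf]
          rw [if_pos h, if_neg (by rw [h]; exact hcne.symm), hzero]; ring
        rw [if_neg (by linarith), hBx]
        have := piece_sound2 C.a C.q0 C.h0 (mkQt C.Q) false C.M C.mB 0 C.mL C.mR 0 C.mC hM hh0 hw
          hm1 x
          (by have := tLeNeg_spec66 hc hM hcd' hm2; rw [h]; linarith)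
          (by have := tGeNeg_spec66 hc hM hcd' hm3; rw [h]; linarith)
          (Or.inr (Or.inr ⟨rfl, by rw [hq0, h]; simp⟩)) (by simp)
        have h5 : (C.S : ℝ) * (0 + (C.mB : ℝ) / C.S) = C.mB := by field_simp; ring
        rw [h5]
        exact this
      · rcases lt_trichotomy x c with h' | h' | h'
        · have hBx : Bf x = 0 := by
            simp only [hBf]
            rw [if_neg h.ne', if_neg h'.ne, hzero]; ring
          rw [if_neg (by linarith), hBx]
          have := chain_sound2 C.a C.q0 C.h0 (mkQt C.Q) C.M 0 (-1) hM hh0 hw C.chB C.LB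
            (neL_ne _ hB0) hB1 x
            (by have := tLeNeg_spec66 hc hM hcd' hB2; nlinarith)
            (by have := tGe_spec66 hc hM hcd' hB3; nlinarith)
            (Or.inr (Or.inl ⟨rfl, by rw [hq0]; nlinarith⟩)) hnz
          push_cast at this
          linarith
        · have hBx : Bf x = (C.pB : ℝ) / C.S := by
            simp only [hBf]
            rw [if_neg h.ne', if_pos h', hzero]; ring
          rw [if_neg (by linarith), hBx]
          have := piece_sound2 C.a C.q0 C.h0 (mkQt C.Q) false C.M C.pB 0 C.pL C.pR 0 C.pC hM hh0 hw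
            hp1 x
            (by have := tLe_spec66 hc hM hcd' hp2; rw [h']; linarith)
            (by have := tGe_spec66 hc hM hcd' hp3; rw [h']; linarith)
            (Or.inr (Or.inr ⟨rfl, by rw [hq0, h']; simp⟩)) (by simp)
          have h5 : (C.S : ℝ) * (0 + (C.pB : ℝ) / C.S) = C.pB := by field_simp; ring
          rw [h5]
          exact this
        · have hBx : Bf x = 0 := by
            simp only [hBf]
            rw [if_neg h.ne', if_neg h'.ne', hzero]; ring
          rw [if_neg (by linarith), hBx]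
          have := chain_sound2 C.a C.q0 C.h0 (mkQt C.Q) C.M 0 1 hM hh0 hw C.chC C.LC
            (neL_ne _ hC0) hC1 x
            (by have := tLe_spec66 hc hM hcd' hC2; nlinarith)
            (by
              have h5 : (((C.d : ℤ) * C.M : ℤ) : ℝ) ≤ (lastR C.LC C.chC : ℝ) := by
                exact_mod_cast hC3
              push_cast at h5
              nlinarith [hx.2])
            (Or.inl ⟨rfl, by rw [hq0]; nlinarith⟩) hnz
          push_cast at this
          linarith
  refine hG.key2 (fun x => x < -c) (C.a0 / C.S) (C.a1 / C.S) (C.a2 / C.S)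
    (C.a4 / C.S) t ?_ ?_
    ((((C.q0, C.h0, false) :: mkQt C.Q)).map (fun q => (toPoly q.1, (q.2.1 : ℝ) / C.S)))
    ?_ good hgood' Bf hB ?_
  · apply div_nonpos_of_nonpos_of_nonneg _ hS'.le
    exact_mod_cast ha4
  · intro k hk
    have h2 := ht k hk
    have h3 : (C.a0 : ℝ) / C.S + C.a2 / C.S * k + C.a4 / C.S * (2 * (k : ℝ) ^ 2 - k) =
        (C.a0 + C.a2 * k + C.a4 * (2 * k * k - k)) / C.S := by
      field_simp
    rw [h3, div_le_iff₀ hS']
    linarith
  · apply wOK2_mem _ hS'
    simp only [wOK2, Bool.and_eq_true, decide_eq_true_eq]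
    exact ⟨hh0, hw⟩
  · intro x hx hgx
    rw [logSum2_eq]
    have h1 := hpt x hx hgx
    have h2 : ev C.a x = C.a0 + C.a1 * x + C.a2 * x ^ 2 + C.a4 * x ^ 4 := by
      simp only [Cert2.a, ev, h30]; push_cast; ring
    rw [h2] at h1
    have h3 : (C.a0 : ℝ) / C.S + C.a1 / C.S * x + C.a2 / C.S * x ^ 2 +
        C.a4 / C.S * x ^ 4 - logSum2 x ((C.q0, C.h0, false) :: mkQt C.Q) / C.S =
        (C.a0 + C.a1 * x + C.a2 * x ^ 2 + C.a4 * x ^ 4 -
          logSum2 x ((C.q0, C.h0, false) :: mkQt C.Q)) / C.S := by ring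
    rw [h3, le_div_iff₀ hS']
    simp only [logSum2]
    linarith

/-- test for the gap `1 / (1000 d^2)` -/
def gapOK (c : Cert2) : Bool :=
  decide (0 < c.S) && decide (c.a3 = 0) && decide (0 < c.d) &&
  (List.range (c.d + 1)).all (fun k =>
    decide (1000 * (c.d : ℤ) * (c.d : ℤ) *
      (c.a0 + c.a2 * (k : ℤ) + c.a4 * (2 * (k : ℤ) * (k : ℤ) - (k : ℤ))) ≤
      c.S * (500 * (c.d : ℤ) * (c.d : ℤ) - 1)))

theorem Good.cert_gap (C : Cert2) (hG : Good A hA M C.d k) (hok : C.ok = true)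
    (hgap : gapOK C = true) (c : ℝ) (hc : 0 < c) (hcd : c ^ 2 = (C.d : ℝ) - 1) :
    ((univ.filter (fun i => hA.eigenvalues i < -c)).card : ℝ) ≤
      (1 / 2 - 1 / (1000 * (C.d : ℝ) ^ 2)) * Fintype.card V := by
  simp only [gapOK, Bool.and_eq_true, decide_eq_true_eq, List.all_eq_true, List.mem_range] at hgap
  obtain ⟨⟨⟨hS, h3⟩, hd⟩, hall⟩ := hgap
  have hS' : (0 : ℝ) < C.S := by exact_mod_cast hS
  have hd' : (0 : ℝ) < C.d := by exact_mod_cast hd
  refine hG.cert2_sound C hok h3 c hc hcd _ ?_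
  intro k hk
  have h1 := hall k (by omega)
  have h2 : ((1000 * (C.d : ℤ) * (C.d : ℤ) *
      (C.a0 + C.a2 * (k : ℤ) + C.a4 * (2 * (k : ℤ) * (k : ℤ) - (k : ℤ))) : ℤ) : ℝ) ≤
      ((C.S * (500 * (C.d : ℤ) * (C.d : ℤ) - 1) : ℤ) : ℝ) := by exact_mod_cast h1
  push_cast at h2
  have h4 : (1 / 2 - 1 / (1000 * (C.d : ℝ) ^ 2)) * C.S =
      (C.S * (500 * (C.d : ℝ) * C.d - 1)) / (1000 * (C.d : ℝ) * C.d) := by
    field_simp
    ring
  rw [h4, le_div_iff₀ (by positivity)]
  linarith

end

end Pool.Agent.KS6_66.MO
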