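import Mathlib
import Pool.Agent.KS6_66.MO.Abs

set_option autoImplicit false
set_option maxHeartbeats 4000000

/-!
# Degrees of the form `m ^ 2 + 1`, with an explicit gap
-/

namespace Pool.Agent.KS6_66.MO

open Matrix Polynomial Finset Pool.Agent.W130.HL

/-- monotonicity in the degree of the local quantity -/
lemma deg_mono66 {A v c e : ℝ} (hv : 0 ≤ v) (hcd : c ^ 2 = e - 1) (hAv : v * (2 * c ^ 2 + 3) ≤ A)
    (a0 : ℝ) (k : ℝ) (hk : k ≤ e) :
    a0 + (A + 2 * v * c ^ 2) * k + (-v) * (2 * k ^ 2 - k) ≤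
      a0 + (A + 2 * v * c ^ 2) * e + (-v) * (2 * e ^ 2 - e) := by
  have h1 : 0 ≤ (e - k) * (A + 2 * v * c ^ 2 - v * (2 * (e + k) - 1)) := by
    apply mul_nonneg (by linarith)
    nlinarith [mul_nonneg hv (sub_nonneg.mpr hk)]
  nlinarith [h1]

lemma aux_D {c : ℝ} (hc : 1 ≤ c) : 2 * c ^ 2 + 3 ≤ (c ^ 2 + c + 1) ^ 2 := by
  have h1 : 1 ≤ c ^ 2 := one_le_pow₀ hc
  have h2 : 1 ≤ c ^ 3 := one_le_pow₀ hc
  have h3 : 1 ≤ c ^ 4 := one_le_pow₀ hc
  have h4 : (c ^ 2 + c + 1) ^ 2 = c ^ 4 + 2 * c ^ 3 + 3 * c ^ 2 + 2 * c + 1 := by ring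
  linarith

lemma sq_gap {c D A W l η P e : ℝ} (hc1 : 1 ≤ c) (hD : D = c ^ 2 + c + 1) (hl0 : 0 ≤ l)
    (hl2 : l ≤ 2 * c - 1) (hW : W = 4 * c ^ 2 + 16 * c ^ 2 * l / (4 * c ^ 2 + 1)) (hWA : W * A = 1)
    (hA0 : 0 < A) (hηA : η * (4 * c ^ 2 + 1) = 8 * c ^ 2 * A) (h5 : P * D = A) (h7 : 0 < P)
    (hee : e = c ^ 2 + 1) : 1 / (1000 * e ^ 2) ≤ η / 2 - 2 * c * P := by
  have hc0 : 0 < c := by linarith
  have h6 : c ≤ 2 * c * D - (4 * c ^ 2 + 1) := by
    have : 2 * c * D - (4 * c ^ 2 + 1) - c = (c - 1) * (2 * c ^ 2 + 1) := by rw [hD]; ring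
    have h : 0 ≤ (c - 1) * (2 * c ^ 2 + 1) := mul_nonneg (by linarith) (by positivity)
    linarith
  have h8 : (4 * c ^ 2 + 1) * (η / 2 - 2 * c * P) =
      2 * c * P * (2 * c * D - (4 * c ^ 2 + 1)) := by
    linear_combination (1 / 2 : ℝ) * hηA - 4 * c ^ 2 * h5
  have h9 : 2 * c * P * c ≤ (4 * c ^ 2 + 1) * (η / 2 - 2 * c * P) := by
    rw [h8]
    exact mul_le_mul_of_nonneg_left h6 (by positivity)
  have hW2 : W ≤ 12 * c ^ 2 := by
    have h10 : 16 * c ^ 2 * l / (4 * c ^ 2 + 1) ≤ 4 * l := by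
      rw [div_le_iff₀ (by positivity)]
      have : 4 * l * (4 * c ^ 2 + 1) = 16 * c ^ 2 * l + 4 * l := by ring
      linarith
    have h11 : 0 ≤ (c - 1 / 2) ^ 2 := sq_nonneg _
    have h12 : (c - 1 / 2) ^ 2 = c ^ 2 - c + 1 / 4 := by ring
    rw [hW]
    linarith
  have hA2 : 1 ≤ 12 * c ^ 2 * A := by
    rw [← hWA]
    exact mul_le_mul_of_nonneg_right hW2 hA0.le
  have hD3 : D ≤ 3 * c ^ 2 := by
    have : 3 * c ^ 2 - D = (c - 1) * (2 * c + 1) := by rw [hD]; ring
    have h : 0 ≤ (c - 1) * (2 * c + 1) := mul_nonneg (by linarith) (by positivity)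
    linarith
  have h11 : 1 ≤ 36 * c ^ 4 * P := by
    calc 1 ≤ 12 * c ^ 2 * (P * D) := by rw [h5]; exact hA2
      _ = 12 * c ^ 2 * P * D := by ring
      _ ≤ 12 * c ^ 2 * P * (3 * c ^ 2) :=
        mul_le_mul_of_nonneg_left hD3 (by positivity)
      _ = 36 * c ^ 4 * P := by ring
  have hce : c ^ 4 ≤ e ^ 2 := by
    have h : e ^ 2 = c ^ 4 + (2 * c ^ 2 + 1) := by rw [hee]; ring
    have h' : 0 < 2 * c ^ 2 + 1 := by positivity
    linarith
  have h13 : 0 ≤ η / 2 - 2 * c * P := by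
    have h14 : 0 ≤ (4 * c ^ 2 + 1) * (η / 2 - 2 * c * P) :=
      le_trans (by positivity) h9
    exact nonneg_of_mul_nonneg_right h14 (by positivity)
  have hc2 : 1 ≤ c ^ 2 := one_le_pow₀ hc1
  have h12 : c ^ 2 * (2 * P) ≤ c ^ 2 * (5 * (η / 2 - 2 * c * P)) := by
    calc c ^ 2 * (2 * P) = 2 * c * P * c := by ring
      _ ≤ _ := h9
      _ ≤ 5 * c ^ 2 * (η / 2 - 2 * c * P) :=
        mul_le_mul_of_nonneg_right (by linarith) h13
      _ = c ^ 2 * (5 * (η / 2 - 2 * c * P)) := by ring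
  have h15 : 2 * P ≤ 5 * (η / 2 - 2 * c * P) := le_of_mul_le_mul_left h12 (by positivity)
  have h14 : 1 ≤ 36 * e ^ 2 * P :=
    h11.trans (mul_le_mul_of_nonneg_right (by linarith) h7.le)
  have he0 : 0 < e ^ 2 := by rw [hee]; positivity
  rw [div_le_iff₀ (by positivity)]
  have h16 : (2 / 5 * P) * (1000 * e ^ 2) ≤ (η / 2 - 2 * c * P) * (1000 * e ^ 2) :=
    mul_le_mul_of_nonneg_right (by linarith) (by positivity)
  have h17 : (2 / 5 * P) * (1000 * e ^ 2) = 400 / 36 * (36 * e ^ 2 * P) := by ring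
  linarith

section

variable {V : Type*} [Fintype V] [DecidableEq V] {A₀ : Matrix V V ℝ} {hA : A₀.IsHermitian}
  {M : Matrix V V ℤ} {d : ℕ} {k₀ : V → ℕ}

/-- Negative side when `d - 1 = c ^ 2` is a perfect square. -/
theorem Good.neg_sq (hG : Good A₀ hA M d k₀) (m : ℕ) (hm : 1 ≤ m) (hdm : d = m ^ 2 + 1) :
    ((univ.filter (fun i => hA.eigenvalues i < -(m : ℝ))).card : ℝ) ≤
      (1 / 2 - 1 / (1000 * (d : ℝ) ^ 2)) * Fintype.card V := by
  set c : ℝ := (m : ℝ) with hc
  have hc1 : (1 : ℝ) ≤ c := by rw [hc]; exact_mod_cast hm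
  have hc0 : 0 < c := by linarith
  set e : ℝ := (d : ℝ) with he
  have hcd : c ^ 2 = e - 1 := by
    rw [he, hdm, hc]; push_cast; ring
  have hee : e = c ^ 2 + 1 := by linarith
  set D : ℝ := c ^ 2 + c + 1 with hD
  have hD0 : 0 < D := by positivity
  set l : ℝ := Real.log (2 * c) with hl
  have hl0 : 0 ≤ l := Real.log_nonneg (by linarith)
  set W : ℝ := 4 * c ^ 2 + 16 * c ^ 2 * l / (4 * c ^ 2 + 1) with hW
  have hW0 : 0 < W := by
    have : 0 ≤ 16 * c ^ 2 * l / (4 * c ^ 2 + 1) := by positivity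
    have : 0 < 4 * c ^ 2 := by positivity
    linarith
  set A : ℝ := 1 / W with hA'
  have hA0 : 0 < A := by positivity
  set η : ℝ := 8 * c ^ 2 * A / (4 * c ^ 2 + 1) with hη
  have hη0 : 0 < η := by positivity
  set v : ℝ := A / D ^ 2 with hv
  have hv0 : 0 < v := by positivity
  have hvD : v * D ^ 2 = A := by rw [hv]; field_simp
  set B : ℝ := η / (2 * c) with hB
  have hBc : B * (2 * c) = η := by rw [hB]; field_simp
  set K : ℝ := η * l with hK
  have hηA : η * (4 * c ^ 2 + 1) = 8 * c ^ 2 * A := by rw [hη]; field_simp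
  have hnorm : 4 * c ^ 2 * A + 2 * η * l = 1 := by
    have h1 : W * A = 1 := by rw [hA']; field_simp
    have h2 : 2 * η * l = 16 * c ^ 2 * l / (4 * c ^ 2 + 1) * A := by
      rw [hη]; field_simp; ring
    have h3 : 4 * c ^ 2 * A + 16 * c ^ 2 * l / (4 * c ^ 2 + 1) * A = W * A := by
      rw [hW]; ring
    rw [h2, h3]; exact h1
  have hAv : v * (2 * c ^ 2 + 3) ≤ A := by
    rw [← hvD]
    apply mul_le_mul_of_nonneg_left _ hv0.le
    rw [hD]
    exact aux_D hc1
  clear_value K B v η A W l D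
  refine hG.key (fun x => x < -c) (A * c ^ 2 - B * c - v * c ^ 4 + K) (-2 * A * c + B)
    (A + 2 * v * c ^ 2) (-v) (1 / 2 - 1 / (1000 * e ^ 2)) (by linarith) ?_
    [(X + C (m : ℤ), η)] ?_ ?_
  · intro k hk
    have hk' : (k : ℝ) ≤ e := by rw [he]; exact_mod_cast hk
    refine le_trans (deg_mono66 hv0.le hcd hAv _ (k : ℝ) hk') ?_
    have h1 : A * c ^ 2 - B * c - v * c ^ 4 + K + (A + 2 * v * c ^ 2) * e +
        (-v) * (2 * e ^ 2 - e) = 1 / 2 + (2 * c * v * D - η / 2) := by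
      have h2 : v * (c ^ 2 + c + 1) ^ 2 = A := by rw [← hD]; exact hvD
      rw [hee, hK]
      have h3 : B * c = η / 2 := by linarith
      rw [h3, hD]
      linear_combination (1 / 2 : ℝ) * hnorm - h2
    rw [h1]
    have h4 : 1 / (1000 * e ^ 2) ≤ η / 2 - 2 * c * (v * D) :=
      sq_gap hc1 hD hl0 (by rw [hl]; exact Real.log_le_sub_one_of_pos (by positivity)) hW
        (by rw [hA']; field_simp) hA0 hηA (by rw [← hvD]; ring) (by positivity) hee
    linarith
  · intro q hq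
    simp only [List.mem_singleton] at hq
    rw [hq]; exact hη0.le
  · intro x hx
    rw [abs_le] at hx
    have hev : aeval x (X + C (m : ℤ) : ℤ[X]) = x + c := by
      simp [hc]
    simp only [List.map_cons, List.map_nil, List.sum_cons, List.sum_nil, add_zero]
    rw [hev]
    have hpoly : A * c ^ 2 - B * c - v * c ^ 4 + K + (-2 * A * c + B) * x +
        (A + 2 * v * c ^ 2) * x ^ 2 + -v * x ^ 4 =
        A * (x - c) ^ 2 + B * (x - c) - v * (x - c) ^ 2 * (x + c) ^ 2 + K := by ring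
    rw [hpoly]
    rcases lt_trichotomy (x + c) 0 with hlt | heq | hgt
    · rw [if_pos (by linarith : x < -c)]
      set ε : ℝ := -(x + c) with hε
      have hε0 : 0 < ε := by linarith
      have hxε : x = -c - ε := by linarith
      have hεD : 2 * c + ε ≤ D := by rw [hD]; linarith [hx.1]
      have habs : |x + c| = ε := by rw [abs_of_neg hlt]
      rw [habs]
      have hlog : Real.log ε ≤ -l + 2 * c * ε - 1 := by
        have h1 := Real.log_le_sub_one_of_pos (x := 2 * c * ε) (by positivity)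
        rw [Real.log_mul (by positivity) (by positivity)] at h1
        linarith
      have h2 : η * Real.log ε ≤ η * (-l + 2 * c * ε - 1) :=
        mul_le_mul_of_nonneg_left hlog hη0.le
      have h3 : v * (2 * c + ε) ^ 2 ≤ A := by
        rw [← hvD]
        apply mul_le_mul_of_nonneg_left _ hv0.le
        exact pow_le_pow_left₀ (by positivity) hεD 2
      have h4 : 0 ≤ ε ^ 2 * (A - v * (2 * c + ε) ^ 2) :=
        mul_nonneg (sq_nonneg _) (by linarith)
      have h5 : (4 * c * A - B - 2 * c * η) = 0 := by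
        have : c * (4 * c * A - B - 2 * c * η) = 0 := by
          linear_combination (-(1:ℝ)/2) * hBc - (1/2 : ℝ) * hηA
        exact (mul_eq_zero.mp this).resolve_left hc0.ne'
      have h6 : A * (x - c) ^ 2 + B * (x - c) - v * (x - c) ^ 2 * (x + c) ^ 2 + K -
          η * (-l + 2 * c * ε - 1) = 1 + ε ^ 2 * (A - v * (2 * c + ε) ^ 2) := by
        rw [hxε, hK]
        linear_combination hnorm + ε * h5 - hBc
      linarith
    · rw [if_neg (by linarith : ¬ x < -c)]
      have hxc : x = -c := by linarith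
      rw [heq, hxc]
      simp only [abs_zero, Real.log_zero, mul_zero, sub_zero]
      have h1 : 0 ≤ K := by rw [hK]; exact mul_nonneg hη0.le hl0
      have h2 : η ≤ 4 * c ^ 2 * A := by
        have : η * 2 ≤ η * (4 * c ^ 2 + 1) := by
          apply mul_le_mul_of_nonneg_left _ hη0.le
          have hc2 : 1 ≤ c ^ 2 := one_le_pow₀ hc1
          linarith
        linarith
      have h3 : A * (-c - c) ^ 2 + B * (-c - c) - v * (-c - c) ^ 2 * (-c + c) ^ 2 + K =
          4 * c ^ 2 * A - η + K := by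
        linear_combination -hBc
      linarith
    · rw [if_neg (by linarith : ¬ x < -c)]
      have habs : |x + c| = x + c := abs_of_pos hgt
      rw [habs]
      have hlog : Real.log (x + c) ≤ l + (x + c) / (2 * c) - 1 := by
        have h1 := Real.log_le_sub_one_of_pos (x := (x + c) / (2 * c)) (by positivity)
        rw [Real.log_div (by positivity) (by positivity)] at h1
        linarith
      have h2 : η * Real.log (x + c) ≤ η * (l + (x + c) / (2 * c) - 1) :=
        mul_le_mul_of_nonneg_left hlog hη0.le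
      have h3 : v * (x + c) ^ 2 ≤ A := by
        rw [← hvD]
        apply mul_le_mul_of_nonneg_left _ hv0.le
        apply pow_le_pow_left₀ hgt.le
        rw [hD]; linarith [hx.2]
      have h4 : 0 ≤ (x - c) ^ 2 * (A - v * (x + c) ^ 2) :=
        mul_nonneg (sq_nonneg _) (by linarith)
      have h5 : η * (l + (x + c) / (2 * c) - 1) = K + B * (x - c) := by
        rw [hK, hB]; field_simp; ring
      linarith

end

end Pool.Agent.KS6_66.MO
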