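import Mathlib
import Pool.Graph.R_seed8.W130.HL.CertA
import Pool.Graph.R_seed8.W130.HL.CertB
import Pool.Graph.R_seed8.W130.HL.CertC
import Pool.Agent.KS6_66.MO.CertSound
import Pool.Agent.KS6_66.MO.SqCase
import Pool.Agent.KS6_66.MO.BigCase
import Pool.Agent.KS6_66.MO.CertD
import Pool.Agent.KS6_66.MO.CertE
import Pool.Agent.KS6_66.MO.CertF
import Pool.Agent.KS6_66.MO.CertG

set_option autoImplicit false
set_option linter.unusedSectionVars false

/-!
# The number of eigenvalues below `-√(d-1)`, for every `d ≥ 2`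
-/

namespace Pool.Agent.KS6_66.MO

open Matrix Polynomial Finset Pool.Agent.W130.HL

/-- square test -/
def sqB66 (q : ℕ) : Bool := (List.range 11).any (fun a => decide (a * a = q))

lemma sqB66_spec (q : ℕ) (h : sqB66 q = true) : IsSquare q := by
  simp only [sqB66, List.any_eq_true, decide_eq_true_eq] at h
  obtain ⟨a, _, h⟩ := h
  exact ⟨a, h.symm⟩

/-- the prime powers below `101` which are not squares -/
def qold : List ℕ := [2, 3, 5, 7, 8, 11, 13, 17, 19, 23, 27, 29, 31, 32, 37, 41, 43, 47, 53, 59,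
  61, 67, 71, 73, 79, 83, 89, 97]

/-- the numbers between `2` and `99` that are neither squares nor prime powers -/
def qnew : List ℕ := [6, 10, 12, 14, 15, 18, 20, 21, 22, 24, 26, 28, 30, 33, 34, 35, 38, 39, 40, 42, 44, 45, 46, 48, 50, 51, 52, 54, 55, 56, 57, 58, 60, 62, 63, 65, 66, 68, 69, 70, 72, 74, 75, 76, 77, 78, 80, 82, 84, 85, 86, 87, 88, 90, 91, 92, 93, 94, 95, 96, 98, 99]

/-- all numbers below the bound are covered -/
def coverAll : ℕ → Bool
  | 0 => true
  | n + 1 => (decide (n < 2) || sqB66 n || decide (n ∈ qold) || decide (n ∈ qnew)) && coverAll n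

lemma coverAll_spec (n : ℕ) (h : coverAll n = true) (q : ℕ) (hq : q < n) :
    q < 2 ∨ sqB66 q = true ∨ q ∈ qold ∨ q ∈ qnew := by
  induction n with
  | zero => omega
  | succ n ih =>
    simp only [coverAll, Bool.and_eq_true, Bool.or_eq_true, decide_eq_true_eq] at h
    rcases Nat.lt_or_ge q n with h1 | h1
    · exact ih h.2 h1
    · have : q = n := by omega
      subst this
      rcases h.1 with ((h2 | h2) | h2) | h2
      · left; exact h2
      · right; left; exact h2
      · right; right; left; exact h2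
      · right; right; right; exact h2

section

variable {V : Type*} [Fintype V] [DecidableEq V] {A : Matrix V V ℝ} {hA : A.IsHermitian}
  {M : Matrix V V ℤ} {d : ℕ} {k : V → ℕ}

/-- the degrees treated by the earlier certificates -/
theorem Good.neg_small (q : ℕ) (hq : q ∈ qold) (hG : Good A hA M (q + 1) k) :
    ((univ.filter (fun i => hA.eigenvalues i < -Real.sqrt (q : ℝ))).card : ℝ) ≤
      (1 / 2 - 1 / (1000 * ((q + 1 : ℕ) : ℝ) ^ 2)) * Fintype.card V := by
  simp only [qold, List.mem_cons, List.not_mem_nil, or_false] at hq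
  have hc : ∀ n : ℕ, 0 < n → 0 < Real.sqrt (n : ℝ) := fun n hn =>
    Real.sqrt_pos.mpr (by exact_mod_cast hn)
  have hs : ∀ n : ℕ, Real.sqrt (n : ℝ) ^ 2 = ((n + 1 : ℕ) : ℝ) - 1 := by
    intro n
    rw [Real.sq_sqrt (Nat.cast_nonneg n)]
    push_cast
    ring
  rcases hq with h | h | h | h | h | h | h | h | h | h | h | h | h | h | h | h | h | h | h | h | h | h | h | h | h | h | h | h <;>
    subst h
  · exact hG.cert_gap cert3 cert3_ok (by decide +kernel) _ (hc _ (by norm_num)) (hs 2)
  · exact hG.cert_gap cert4 cert4_ok (by decide +kernel) _ (hc _ (by norm_num)) (hs 3)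
  · exact hG.cert_gap cert6 cert6_ok (by decide +kernel) _ (hc _ (by norm_num)) (hs 5)
  · exact hG.cert_gap cert8 cert8_ok (by decide +kernel) _ (hc _ (by norm_num)) (hs 7)
  · exact hG.cert_gap cert9 cert9_ok (by decide +kernel) _ (hc _ (by norm_num)) (hs 8)
  · exact hG.cert_gap cert12 cert12_ok (by decide +kernel) _ (hc _ (by norm_num)) (hs 11)
  · exact hG.cert_gap cert14 cert14_ok (by decide +kernel) _ (hc _ (by norm_num)) (hs 13)
  · exact hG.cert_gap cert18 cert18_ok (by decide +kernel) _ (hc _ (by norm_num)) (hs 17)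
  · exact hG.cert_gap cert20 cert20_ok (by decide +kernel) _ (hc _ (by norm_num)) (hs 19)
  · exact hG.cert_gap cert24 cert24_ok (by decide +kernel) _ (hc _ (by norm_num)) (hs 23)
  · exact hG.cert_gap cert28 cert28_ok (by decide +kernel) _ (hc _ (by norm_num)) (hs 27)
  · exact hG.cert_gap cert30 cert30_ok (by decide +kernel) _ (hc _ (by norm_num)) (hs 29)
  · exact hG.cert_gap cert32 cert32_ok (by decide +kernel) _ (hc _ (by norm_num)) (hs 31)
  · exact hG.cert_gap cert33 cert33_ok (by decide +kernel) _ (hc _ (by norm_num)) (hs 32)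
  · exact hG.cert_gap cert38 cert38_ok (by decide +kernel) _ (hc _ (by norm_num)) (hs 37)
  · exact hG.cert_gap cert42 cert42_ok (by decide +kernel) _ (hc _ (by norm_num)) (hs 41)
  · exact hG.cert_gap cert44 cert44_ok (by decide +kernel) _ (hc _ (by norm_num)) (hs 43)
  · exact hG.cert_gap cert48 cert48_ok (by decide +kernel) _ (hc _ (by norm_num)) (hs 47)
  · exact hG.cert_gap cert54 cert54_ok (by decide +kernel) _ (hc _ (by norm_num)) (hs 53)
  · exact hG.cert_gap cert60 cert60_ok (by decide +kernel) _ (hc _ (by norm_num)) (hs 59)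
  · exact hG.cert_gap cert62 cert62_ok (by decide +kernel) _ (hc _ (by norm_num)) (hs 61)
  · exact hG.cert_gap cert68 cert68_ok (by decide +kernel) _ (hc _ (by norm_num)) (hs 67)
  · exact hG.cert_gap cert72 cert72_ok (by decide +kernel) _ (hc _ (by norm_num)) (hs 71)
  · exact hG.cert_gap cert74 cert74_ok (by decide +kernel) _ (hc _ (by norm_num)) (hs 73)
  · exact hG.cert_gap cert80 cert80_ok (by decide +kernel) _ (hc _ (by norm_num)) (hs 79)
  · exact hG.cert_gap cert84 cert84_ok (by decide +kernel) _ (hc _ (by norm_num)) (hs 83)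
  · exact hG.cert_gap cert90 cert90_ok (by decide +kernel) _ (hc _ (by norm_num)) (hs 89)
  · exact hG.cert_gap cert98 cert98_ok (by decide +kernel) _ (hc _ (by norm_num)) (hs 97)

/-- the degrees treated by the new certificates -/
theorem Good.neg_new (q : ℕ) (hq : q ∈ qnew) (hG : Good A hA M (q + 1) k) :
    ((univ.filter (fun i => hA.eigenvalues i < -Real.sqrt (q : ℝ))).card : ℝ) ≤
      (1 / 2 - 1 / (1000 * ((q + 1 : ℕ) : ℝ) ^ 2)) * Fintype.card V := by
  simp only [qnew, List.mem_cons, List.not_mem_nil, or_false] at hq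
  have hc : ∀ n : ℕ, 0 < n → 0 < Real.sqrt (n : ℝ) := fun n hn =>
    Real.sqrt_pos.mpr (by exact_mod_cast hn)
  have hs : ∀ n : ℕ, Real.sqrt (n : ℝ) ^ 2 = ((n + 1 : ℕ) : ℝ) - 1 := by
    intro n
    rw [Real.sq_sqrt (Nat.cast_nonneg n)]
    push_cast
    ring
  rcases hq with h | h | h | h | h | h | h | h | h | h | h | h | h | h | h | h | h | h | h | h | h | h | h | h | h | h | h | h | h | h | h | h | h | h | h | h | h | h | h | h | h | h | h | h | h | h | h | h | h | h | h | h | h | h | h | h | h | h | h | h | h | h <;>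
    subst h
  · exact hG.cert_gap cert7 cert7_ok (by decide +kernel) _ (hc _ (by norm_num)) (hs 6)
  · exact hG.cert_gap cert11 cert11_ok (by decide +kernel) _ (hc _ (by norm_num)) (hs 10)
  · exact hG.cert_gap cert13 cert13_ok (by decide +kernel) _ (hc _ (by norm_num)) (hs 12)
  · exact hG.cert_gap cert15 cert15_ok (by decide +kernel) _ (hc _ (by norm_num)) (hs 14)
  · exact hG.cert_gap cert16 cert16_ok (by decide +kernel) _ (hc _ (by norm_num)) (hs 15)
  · exact hG.cert_gap cert19 cert19_ok (by decide +kernel) _ (hc _ (by norm_num)) (hs 18)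
  · exact hG.cert_gap cert21 cert21_ok (by decide +kernel) _ (hc _ (by norm_num)) (hs 20)
  · exact hG.cert_gap cert22 cert22_ok (by decide +kernel) _ (hc _ (by norm_num)) (hs 21)
  · exact hG.cert_gap cert23 cert23_ok (by decide +kernel) _ (hc _ (by norm_num)) (hs 22)
  · exact hG.cert_gap cert25 cert25_ok (by decide +kernel) _ (hc _ (by norm_num)) (hs 24)
  · exact hG.cert_gap cert27 cert27_ok (by decide +kernel) _ (hc _ (by norm_num)) (hs 26)
  · exact hG.cert_gap cert29 cert29_ok (by decide +kernel) _ (hc _ (by norm_num)) (hs 28)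
  · exact hG.cert_gap cert31 cert31_ok (by decide +kernel) _ (hc _ (by norm_num)) (hs 30)
  · exact hG.cert_gap cert34 cert34_ok (by decide +kernel) _ (hc _ (by norm_num)) (hs 33)
  · exact hG.cert_gap cert35 cert35_ok (by decide +kernel) _ (hc _ (by norm_num)) (hs 34)
  · exact hG.cert_gap cert36 cert36_ok (by decide +kernel) _ (hc _ (by norm_num)) (hs 35)
  · exact hG.cert_gap cert39 cert39_ok (by decide +kernel) _ (hc _ (by norm_num)) (hs 38)
  · exact hG.cert_gap cert40 cert40_ok (by decide +kernel) _ (hc _ (by norm_num)) (hs 39)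
  · exact hG.cert_gap cert41 cert41_ok (by decide +kernel) _ (hc _ (by norm_num)) (hs 40)
  · exact hG.cert_gap cert43 cert43_ok (by decide +kernel) _ (hc _ (by norm_num)) (hs 42)
  · exact hG.cert_gap cert45 cert45_ok (by decide +kernel) _ (hc _ (by norm_num)) (hs 44)
  · exact hG.cert_gap cert46 cert46_ok (by decide +kernel) _ (hc _ (by norm_num)) (hs 45)
  · exact hG.cert_gap cert47 cert47_ok (by decide +kernel) _ (hc _ (by norm_num)) (hs 46)
  · exact hG.cert_gap cert49 cert49_ok (by decide +kernel) _ (hc _ (by norm_num)) (hs 48)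
  · exact hG.cert_gap cert51 cert51_ok (by decide +kernel) _ (hc _ (by norm_num)) (hs 50)
  · exact hG.cert_gap cert52 cert52_ok (by decide +kernel) _ (hc _ (by norm_num)) (hs 51)
  · exact hG.cert_gap cert53 cert53_ok (by decide +kernel) _ (hc _ (by norm_num)) (hs 52)
  · exact hG.cert_gap cert55 cert55_ok (by decide +kernel) _ (hc _ (by norm_num)) (hs 54)
  · exact hG.cert_gap cert56 cert56_ok (by decide +kernel) _ (hc _ (by norm_num)) (hs 55)
  · exact hG.cert_gap cert57 cert57_ok (by decide +kernel) _ (hc _ (by norm_num)) (hs 56)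
  · exact hG.cert_gap cert58 cert58_ok (by decide +kernel) _ (hc _ (by norm_num)) (hs 57)
  · exact hG.cert_gap cert59 cert59_ok (by decide +kernel) _ (hc _ (by norm_num)) (hs 58)
  · exact hG.cert_gap cert61 cert61_ok (by decide +kernel) _ (hc _ (by norm_num)) (hs 60)
  · exact hG.cert_gap cert63 cert63_ok (by decide +kernel) _ (hc _ (by norm_num)) (hs 62)
  · exact hG.cert_gap cert64 cert64_ok (by decide +kernel) _ (hc _ (by norm_num)) (hs 63)
  · exact hG.cert_gap cert66 cert66_ok (by decide +kernel) _ (hc _ (by norm_num)) (hs 65)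
  · exact hG.cert_gap cert67 cert67_ok (by decide +kernel) _ (hc _ (by norm_num)) (hs 66)
  · exact hG.cert_gap cert69 cert69_ok (by decide +kernel) _ (hc _ (by norm_num)) (hs 68)
  · exact hG.cert_gap cert70 cert70_ok (by decide +kernel) _ (hc _ (by norm_num)) (hs 69)
  · exact hG.cert_gap cert71 cert71_ok (by decide +kernel) _ (hc _ (by norm_num)) (hs 70)
  · exact hG.cert_gap cert73 cert73_ok (by decide +kernel) _ (hc _ (by norm_num)) (hs 72)
  · exact hG.cert_gap cert75 cert75_ok (by decide +kernel) _ (hc _ (by norm_num)) (hs 74)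
  · exact hG.cert_gap cert76 cert76_ok (by decide +kernel) _ (hc _ (by norm_num)) (hs 75)
  · exact hG.cert_gap cert77 cert77_ok (by decide +kernel) _ (hc _ (by norm_num)) (hs 76)
  · exact hG.cert_gap cert78 cert78_ok (by decide +kernel) _ (hc _ (by norm_num)) (hs 77)
  · exact hG.cert_gap cert79 cert79_ok (by decide +kernel) _ (hc _ (by norm_num)) (hs 78)
  · exact hG.cert_gap cert81 cert81_ok (by decide +kernel) _ (hc _ (by norm_num)) (hs 80)
  · exact hG.cert_gap cert83 cert83_ok (by decide +kernel) _ (hc _ (by norm_num)) (hs 82)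
  · exact hG.cert_gap cert85 cert85_ok (by decide +kernel) _ (hc _ (by norm_num)) (hs 84)
  · exact hG.cert_gap cert86 cert86_ok (by decide +kernel) _ (hc _ (by norm_num)) (hs 85)
  · exact hG.cert_gap cert87 cert87_ok (by decide +kernel) _ (hc _ (by norm_num)) (hs 86)
  · exact hG.cert_gap cert88 cert88_ok (by decide +kernel) _ (hc _ (by norm_num)) (hs 87)
  · exact hG.cert_gap cert89 cert89_ok (by decide +kernel) _ (hc _ (by norm_num)) (hs 88)
  · exact hG.cert_gap cert91 cert91_ok (by decide +kernel) _ (hc _ (by norm_num)) (hs 90)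
  · exact hG.cert_gap cert92 cert92_ok (by decide +kernel) _ (hc _ (by norm_num)) (hs 91)
  · exact hG.cert_gap cert93 cert93_ok (by decide +kernel) _ (hc _ (by norm_num)) (hs 92)
  · exact hG.cert_gap cert94 cert94_ok (by decide +kernel) _ (hc _ (by norm_num)) (hs 93)
  · exact hG.cert_gap cert95 cert95_ok (by decide +kernel) _ (hc _ (by norm_num)) (hs 94)
  · exact hG.cert_gap cert96 cert96_ok (by decide +kernel) _ (hc _ (by norm_num)) (hs 95)
  · exact hG.cert_gap cert97 cert97_ok (by decide +kernel) _ (hc _ (by norm_num)) (hs 96)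
  · exact hG.cert_gap cert99 cert99_ok (by decide +kernel) _ (hc _ (by norm_num)) (hs 98)
  · exact hG.cert_gap cert100 cert100_ok (by decide +kernel) _ (hc _ (by norm_num)) (hs 99)

/-- at most `(1 / 2 - 1 / (1000 d ^ 2)) n` eigenvalues are below `-√(d - 1)` -/
theorem Good.neg_all (hd : 2 ≤ d) (hG : Good A hA M d k) :
    ((univ.filter (fun i => hA.eigenvalues i < -Real.sqrt ((d : ℝ) - 1))).card : ℝ) ≤
      (1 / 2 - 1 / (1000 * (d : ℝ) ^ 2)) * Fintype.card V := by
  obtain ⟨q, rfl⟩ : ∃ q, d = q + 1 := ⟨d - 1, by omega⟩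
  have h1 : 1 ≤ q := by omega
  have e1 : (((q + 1 : ℕ) : ℝ)) - 1 = (q : ℝ) := by push_cast; ring
  rw [e1]
  by_cases hsq : IsSquare q
  · obtain ⟨m, hm⟩ := hsq
    have hm1 : 1 ≤ m := by
      rcases Nat.eq_zero_or_pos m with h | h
      · subst h; omega
      · exact h
    have hs : Real.sqrt (q : ℝ) = (m : ℝ) := by
      rw [hm]; push_cast
      exact Real.sqrt_mul_self (Nat.cast_nonneg m)
    rw [hs]
    exact hG.neg_sq m hm1 (by rw [hm]; ring)
  · by_cases hq : q < 101
    · have hcov : coverAll 101 = true := by decide +kernel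
      rcases coverAll_spec 101 hcov q hq with h2 | h2 | h2 | h2
      · have : q = 1 := by omega
        exact absurd ⟨1, by omega⟩ hsq
      · exact absurd (sqB66_spec q h2) hsq
      · exact hG.neg_small q h2
      · exact hG.neg_new q h2
    · push Not at hq
      refine hG.neg_big (Real.sqrt (q : ℝ)) ?_ ?_
      · apply Real.le_sqrt_of_sq_le
        have : (101 : ℝ) ≤ q := by exact_mod_cast hq
        linarith
      · rw [Real.sq_sqrt (Nat.cast_nonneg q)]
        push_cast
        ring

/-- the eigenvalues of `-A` are the negatives of the eigenvalues of `A` -/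
lemma eig_neg (hA : A.IsHermitian) (hB : (-A).IsHermitian) :
    (univ.val.map hB.eigenvalues : Multiset ℝ) = univ.val.map (fun i => -hA.eigenvalues i) := by
  have h1 : (-A).charpoly.roots = univ.val.map hB.eigenvalues := by
    rw [hB.roots_charpoly_eq_eigenvalues]
    rfl
  have h2 := charpoly_aeval hA (-X)
  have h3 : (aeval A (-X : ℝ[X])) = -A := by simp
  rw [h3] at h2
  rw [← h1, h2, Polynomial.roots_prod]
  · simp
  · rw [Finset.prod_ne_zero_iff]
    intro i _
    exact X_sub_C_ne_zero _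

lemma card_neg (hA : A.IsHermitian) (hB : (-A).IsHermitian) (c : ℝ) :
    (univ.filter (fun i => c < hA.eigenvalues i)).card =
      (univ.filter (fun i => hB.eigenvalues i < -c)).card := by
  have h1 : (univ.filter (fun i => hB.eigenvalues i < -c)).card =
      ((univ.val.map hB.eigenvalues).filter (fun x => x < -c)).card := by
    rw [Multiset.filter_map, Multiset.card_map]
    rfl
  rw [h1, eig_neg hA hB, Multiset.filter_map, Multiset.card_map, Finset.card_def, Finset.filter_val]
  congr 1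
  apply Multiset.filter_congr
  intro i _
  simp only [Function.comp]
  constructor
  · intro h; linarith
  · intro h; linarith

/-- the property needed for `-A` -/
lemma Good.neg (hG : Good A hA M d k) (hB : (-A).IsHermitian) : Good (-A) hB (-M) d k := by
  have hpow2 : (-A) ^ 2 = A ^ 2 := _root_.neg_sq A
  have hpow4 : (-A) ^ 4 = A ^ 4 := by
    rw [show (4 : ℕ) = 2 * 2 from rfl, pow_mul, pow_mul, _root_.neg_sq]
  refine ⟨?_, ?_, hG.deg, ?_, ?_, ?_⟩
  · rw [hG.int]
    ext i j
    simp [Matrix.map_apply]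
  · intro i
    have h1 : hB.eigenvalues i ∈ (univ.val.map hB.eigenvalues : Multiset ℝ) :=
      Multiset.mem_map_of_mem _ (Finset.mem_univ i)
    rw [eig_neg hA hB, Multiset.mem_map] at h1
    obtain ⟨j, _, hj⟩ := h1
    rw [← hj, abs_neg]
    exact hG.bound j
  · rw [Matrix.trace_neg, hG.tr1, neg_zero]
  · rw [hpow2]; exact hG.tr2
  · rw [hpow4]; exact hG.tr4

/-- at most `(1 / 2 - 1 / (1000 d ^ 2)) n` eigenvalues are above `√(d - 1)` -/
theorem Good.pos_all (hd : 2 ≤ d) (hG : Good A hA M d k) :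
    ((univ.filter (fun i => Real.sqrt ((d : ℝ) - 1) < hA.eigenvalues i)).card : ℝ) ≤
      (1 / 2 - 1 / (1000 * (d : ℝ) ^ 2)) * Fintype.card V := by
  have hB : (-A).IsHermitian := hA.neg
  rw [card_neg hA hB]
  exact (hG.neg hB).neg_all hd

end

/-! ### From eigenvalues indexed by the vertices to the decreasing list -/

lemma card_eigenvalues₀ {V : Type*} [Fintype V] [DecidableEq V] {A : Matrix V V ℝ}
    (hA : A.IsHermitian) (p : ℝ → Prop) [DecidablePred p] :
    (univ.filter (fun j => p (hA.eigenvalues₀ j))).card =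
      (univ.filter (fun i => p (hA.eigenvalues i))).card := by
  have h1 : (univ.filter (fun j => p (hA.eigenvalues₀ j))).card =
      (A.charpoly.roots.filter p).card := by
    rw [hA.roots_charpoly_eq_eigenvalues₀, Multiset.filter_map, Multiset.card_map]
    rfl
  rw [h1, hA.roots_charpoly_eq_eigenvalues, Multiset.filter_map, Multiset.card_map]
  rfl

lemma half_of_le {n a : ℕ} {t : ℝ} (hn : 0 < n) (ht : 0 < t)
    (h : (a : ℝ) ≤ (1 / 2 - t) * n) : a ≤ (n - 1) / 2 := by
  have hn' : (0 : ℝ) < n := by exact_mod_cast hn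
  have h1 : (2 * a : ℝ) < n := by nlinarith [mul_pos ht hn']
  have h2 : 2 * a < n := by exact_mod_cast h1
  omega

/-- the median indices, counted from zero, lie between `(n - 1) / 2` and `n / 2` -/
lemma idx_bounds (n i : ℕ) (hi : (i : ℤ) + 1 = ⌊((n : ℝ) + 1) / 2⌋ ∨
    (i : ℤ) + 1 = ⌈((n : ℝ) + 1) / 2⌉) : (n - 1) / 2 ≤ i ∧ i ≤ n / 2 := by
  have h1 : ⌈((n : ℝ) + 1) / 2⌉ ≤ ((n / 2 + 1 : ℕ) : ℤ) := by
    rw [Int.ceil_le]
    have h4 : n ≤ 2 * (n / 2) + 1 := by omega
    have h5 : (n : ℝ) ≤ 2 * ((n / 2 : ℕ) : ℝ) + 1 := by exact_mod_cast h4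
    have h6 : (((n / 2 + 1 : ℕ) : ℤ) : ℝ) = ((n / 2 : ℕ) : ℝ) + 1 := by norm_cast
    rw [h6]
    linarith
  have h2 : (((n + 1) / 2 : ℕ) : ℤ) ≤ ⌊((n : ℝ) + 1) / 2⌋ := by
    rw [Int.le_floor]
    have h4 : 2 * ((n + 1) / 2) ≤ n + 1 := by omega
    have h5 : 2 * (((n + 1) / 2 : ℕ) : ℝ) ≤ (n : ℝ) + 1 := by exact_mod_cast h4
    have h6 : ((((n + 1) / 2 : ℕ) : ℤ) : ℝ) = (((n + 1) / 2 : ℕ) : ℝ) := by norm_cast
    rw [h6]
    linarith
  have h3 : ⌊((n : ℝ) + 1) / 2⌋ ≤ ⌈((n : ℝ) + 1) / 2⌉ := Int.floor_le_ceil _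
  rcases hi with hi | hi
  · constructor <;> omega
  · constructor <;> omega

/-- if a decreasing list of `n` reals has at most `(n - 1) / 2` members below `t`, then its members
with (zero-based) number at most `n / 2` are at least `t` -/
lemma ge_of_count {n : ℕ} (f : Fin n → ℝ) (hf : Antitone f) (t : ℝ)
    (hc : (univ.filter (fun j => f j < t)).card ≤ (n - 1) / 2) (i : Fin n) (hi : (i : ℕ) ≤ n / 2) :
    t ≤ f i := by
  by_contra h
  push Not at h
  have h1 : (univ.filter (fun j : Fin n => i ≤ j)) ⊆ univ.filter (fun j => f j < t) := by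
    intro j hj
    rw [mem_filter] at hj ⊢
    exact ⟨mem_univ _, lt_of_le_of_lt (hf hj.2) h⟩
  have h2 := card_le_card h1
  have h3 : (univ.filter (fun j : Fin n => i ≤ j)).card = n - i := by
    have : univ.filter (fun j : Fin n => i ≤ j) = Finset.Ici i := by
      ext j; simp
    rw [this, Fin.card_Ici]
  have hn := i.2
  omega

/-- if a decreasing list of `n` reals has at most `(n - 1) / 2` members above `t`, then its members
with (zero-based) number at least `(n - 1) / 2` are at most `t` -/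
lemma le_of_count {n : ℕ} (f : Fin n → ℝ) (hf : Antitone f) (t : ℝ)
    (hc : (univ.filter (fun j => t < f j)).card ≤ (n - 1) / 2) (i : Fin n)
    (hi : (n - 1) / 2 ≤ (i : ℕ)) : f i ≤ t := by
  by_contra h
  push Not at h
  have h1 : (univ.filter (fun j : Fin n => j ≤ i)) ⊆ univ.filter (fun j => t < f j) := by
    intro j hj
    rw [mem_filter] at hj ⊢
    exact ⟨mem_univ _, lt_of_lt_of_le h (hf hj.2)⟩
  have h2 := card_le_card h1
  have h3 : (univ.filter (fun j : Fin n => j ≤ i)).card = i + 1 := by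
    have : univ.filter (fun j : Fin n => j ≤ i) = Finset.Iic i := by
      ext j; simp
    rw [this, Fin.card_Iic]
  omega


/-- the final statement for a matrix with the required properties -/
theorem Good.final {V : Type*} [Fintype V] [DecidableEq V] {A : Matrix V V ℝ}
    {hA : A.IsHermitian} {M : Matrix V V ℤ} {d : ℕ} {k : V → ℕ} (hd : 2 ≤ d)
    (hG : Good A hA M d k) :
    (∀ i : Fin (Fintype.card V), ((i : ℤ) + 1 = ⌊((Fintype.card V : ℝ) + 1) / 2⌋ ∨
        (i : ℤ) + 1 = ⌈((Fintype.card V : ℝ) + 1) / 2⌉) →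
      -Real.sqrt ((d : ℝ) - 1) ≤ hA.eigenvalues₀ i ∧
        hA.eigenvalues₀ i ≤ Real.sqrt ((d : ℝ) - 1)) ∧
    ((univ.filter (fun i => hA.eigenvalues₀ i < -Real.sqrt ((d : ℝ) - 1))).card : ℝ) ≤
      (1 / 2 - 1 / (1000 * (d : ℝ) ^ 2)) * Fintype.card V ∧
    ((univ.filter (fun i => Real.sqrt ((d : ℝ) - 1) < hA.eigenvalues₀ i)).card : ℝ) ≤
      (1 / 2 - 1 / (1000 * (d : ℝ) ^ 2)) * Fintype.card V := by
  have hneg := hG.neg_all hd
  have hpos := hG.pos_all hd
  rw [← card_eigenvalues₀ hA (fun x => x < -Real.sqrt ((d : ℝ) - 1))] at hneg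
  rw [← card_eigenvalues₀ hA (fun x => Real.sqrt ((d : ℝ) - 1) < x)] at hpos
  refine ⟨?_, hneg, hpos⟩
  intro i hi
  have hn : 0 < Fintype.card V := lt_of_le_of_lt (Nat.zero_le _) i.2
  have hd' : (0 : ℝ) < d := by exact_mod_cast (by omega : 0 < d)
  have ht : (0 : ℝ) < 1 / (1000 * (d : ℝ) ^ 2) := by positivity
  obtain ⟨h1, h2⟩ := idx_bounds _ _ hi
  exact ⟨ge_of_count _ hA.eigenvalues₀_antitone _ (half_of_le hn ht hneg) i h2,
    le_of_count _ hA.eigenvalues₀_antitone _ (half_of_le hn ht hpos) i h1⟩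

end Pool.Agent.KS6_66.MO
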