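import Mathlib
import Pool.Agent.KS6_66.MO.Abs

set_option autoImplicit false
set_option linter.unusedSectionVars false

/-!
# Signings without negative four-cycles

A signing of a graph `G` is a symmetric integral matrix `M` with entries `±1` on the edges of `G` and
`0` elsewhere.  If the product of the signs along every four-cycle is positive, then the traces of
the powers of `M` satisfy the inequalities that hold for the adjacency matrix.
-/

namespace Pool.Agent.KS6_66.MO

open Matrix Polynomial Finset Pool.Agent.W130.HL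

/-- `M` is a symmetric signing of the adjacency matrix of `G` (entries `±1` at the edges, `0`
elsewhere) for which every four-cycle `i, j, k, l` has positive sign. -/
structure IsSigning {V : Type*} (G : SimpleGraph V) (M : Matrix V V ℤ) : Prop where
  symm : ∀ i j, M j i = M i j
  edge : ∀ i j, G.Adj i j → M i j = 1 ∨ M i j = -1
  nonedge : ∀ i j, ¬ G.Adj i j → M i j = 0
  four : ∀ i j k l, G.Adj i j → G.Adj j k → G.Adj k l → G.Adj l i → i ≠ k → j ≠ l →
    M i j * M j k * M k l * M l i = 1

section

variable {V : Type*} [Fintype V] [DecidableEq V] {G : SimpleGraph V} [DecidableRel G.Adj]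
  {M : Matrix V V ℤ}

lemma IsSigning.sq (h : IsSigning G M) (i j : V) : M i j * M i j = if G.Adj i j then 1 else 0 := by
  split_ifs with hij
  · rcases h.edge i j hij with h1 | h1 <;> rw [h1] <;> norm_num
  · rw [h.nonedge i j hij]; norm_num

lemma IsSigning.herm (h : IsSigning G M) : (M.map (Int.castRingHom ℝ)).IsHermitian := by
  rw [Matrix.IsHermitian, Matrix.conjTranspose_eq_transpose_of_trivial]
  ext i j
  simp [Matrix.map_apply, h.symm i j]

lemma IsSigning.diag (h : IsSigning G M) (i : V) : M i i = 0 := h.nonedge i i (G.loopless.irrefl i)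

/-- diagonal entries of the square -/
lemma IsSigning.sq_diag (h : IsSigning G M) (i : V) : (M ^ 2) i i = G.degree i := by
  rw [pow_two, Matrix.mul_apply]
  have h1 : ∀ j, M i j * M j i = if G.Adj i j then 1 else 0 := by
    intro j
    rw [h.symm i j, h.sq]
  simp only [h1]
  rw [Finset.sum_ite, Finset.sum_const_zero, add_zero, Finset.sum_const, nsmul_eq_mul, mul_one]
  rw [← G.card_neighborFinset_eq_degree]
  congr 2
  ext j
  simp

/-- off-diagonal entries of the square: all contributions have the same sign -/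
lemma IsSigning.sq_off (h : IsSigning G M) (i k : V) (hik : i ≠ k) :
    ((univ.filter (fun j => G.Adj i j ∧ G.Adj j k)).card : ℤ) ≤ ((M ^ 2) i k) ^ 2 := by
  set S := univ.filter (fun j => G.Adj i j ∧ G.Adj j k) with hS
  have h1 : (M ^ 2) i k = ∑ j ∈ S, M i j * M j k := by
    rw [pow_two, Matrix.mul_apply]
    symm
    apply Finset.sum_subset (Finset.filter_subset _ _)
    intro j _ hj
    have hj' : ¬ (G.Adj i j ∧ G.Adj j k) := by
      intro hc
      exact hj (Finset.mem_filter.mpr ⟨Finset.mem_univ j, hc⟩)
    rcases not_and_or.mp hj' with h2 | h2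
    · rw [h.nonedge i j h2, zero_mul]
    · rw [h.nonedge j k h2, mul_zero]
  have h2 : ((M ^ 2) i k) ^ 2 = ∑ j ∈ S, ∑ l ∈ S, (M i j * M j k) * (M i l * M l k) := by
    rw [h1, pow_two, Finset.sum_mul_sum]
  have h3 : ∀ j ∈ S, ∀ l ∈ S, (1 : ℤ) ≤ (M i j * M j k) * (M i l * M l k) := by
    intro j hj l hl
    rw [hS, Finset.mem_filter] at hj hl
    by_cases hjl : j = l
    · subst hjl
      have e1 := h.sq i j
      have e2 := h.sq j k
      rw [if_pos hj.2.1] at e1
      rw [if_pos hj.2.2] at e2
      have : (M i j * M j k) * (M i j * M j k) = (M i j * M i j) * (M j k * M j k) := by ring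
      rw [this, e1, e2]
      norm_num
    · have e := h.four i j k l hj.2.1 hj.2.2 hl.2.2.symm hl.2.1.symm hik hjl
      rw [h.symm l k, h.symm i l] at e
      have : (M i j * M j k) * (M i l * M l k) = M i j * M j k * M l k * M i l := by ring
      rw [this, e]
  rw [h2]
  calc (S.card : ℤ) ≤ S.card * S.card := by
        have h5 : S.card ≤ S.card * S.card := Nat.le_mul_self _
        exact_mod_cast h5
    _ = ∑ j ∈ S, ∑ l ∈ S, (1 : ℤ) := by simp
    _ ≤ _ := Finset.sum_le_sum fun j hj => Finset.sum_le_sum fun l hl => h3 j hj l hl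

/-- the number of paths of length two -/
lemma sum_codeg : ∑ i : V, ∑ k : V, ((univ.filter (fun j => G.Adj i j ∧ G.Adj j k)).card : ℤ) =
    ∑ j : V, (G.degree j : ℤ) ^ 2 := by
  have h1 : ∀ i k : V, ((univ.filter (fun j => G.Adj i j ∧ G.Adj j k)).card : ℤ) =
      ∑ j : V, (if G.Adj j i then (1 : ℤ) else 0) * (if G.Adj j k then 1 else 0) := by
    intro i k
    rw [Finset.card_filter]
    push_cast
    apply Finset.sum_congr rfl
    intro j _
    by_cases h1 : G.Adj i j
    · by_cases h2 : G.Adj j k
      · simp [h1, h2, h1.symm]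
      · simp [h2]
    · have h1' : ¬ G.Adj j i := fun h => h1 h.symm
      simp [h1, h1']
  have hdeg : ∀ j : V, ∑ i : V, (if G.Adj j i then (1 : ℤ) else 0) = G.degree j := by
    intro j
    rw [Finset.sum_ite, Finset.sum_const_zero, add_zero, Finset.sum_const, nsmul_eq_mul, mul_one,
      ← G.card_neighborFinset_eq_degree]
    congr 2
    ext i
    simp
  simp only [h1]
  calc ∑ i : V, ∑ k : V, ∑ j : V,
        (if G.Adj j i then (1 : ℤ) else 0) * (if G.Adj j k then 1 else 0)
      = ∑ i : V, ∑ j : V, (if G.Adj j i then (1 : ℤ) else 0) * G.degree j := by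
        apply Finset.sum_congr rfl
        intro i _
        rw [Finset.sum_comm]
        apply Finset.sum_congr rfl
        intro j _
        rw [← Finset.mul_sum, hdeg]
    _ = ∑ j : V, (G.degree j : ℤ) ^ 2 := by
        rw [Finset.sum_comm]
        apply Finset.sum_congr rfl
        intro j _
        rw [← Finset.sum_mul, hdeg]
        ring

lemma IsSigning.trace_four (h : IsSigning G M) :
    ∑ v, (2 * (G.degree v : ℤ) ^ 2 - G.degree v) ≤ (M ^ 4).trace := by
  have hsymm : ∀ i j, (M ^ 2) j i = (M ^ 2) i j := by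
    intro i j
    rw [pow_two, Matrix.mul_apply, Matrix.mul_apply]
    apply Finset.sum_congr rfl
    intro l _
    rw [h.symm l j, h.symm i l]
    ring
  have h1 : (M ^ 4).trace = ∑ i, ∑ j, ((M ^ 2) i j) ^ 2 := by
    have : M ^ 4 = M ^ 2 * M ^ 2 := by rw [← pow_add]
    rw [this, Matrix.trace]
    apply Finset.sum_congr rfl
    intro i _
    rw [Matrix.diag_apply, Matrix.mul_apply]
    apply Finset.sum_congr rfl
    intro j _
    rw [hsymm i j]
    ring
  have hcodiag : ∀ i : V, (univ.filter (fun j => G.Adj i j ∧ G.Adj j i)).card = G.degree i := by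
    intro i
    rw [← G.card_neighborFinset_eq_degree]
    congr 1
    ext j
    simp only [Finset.mem_filter, Finset.mem_univ, true_and, SimpleGraph.mem_neighborFinset]
    exact ⟨fun h => h.1, fun h => ⟨h, h.symm⟩⟩
  have h2 : ∀ i j, ((univ.filter (fun l => G.Adj i l ∧ G.Adj l j)).card : ℤ) +
      (if i = j then ((G.degree i : ℤ) ^ 2 - G.degree i) else 0) ≤ ((M ^ 2) i j) ^ 2 := by
    intro i j
    split_ifs with hij
    · subst hij
      rw [h.sq_diag, hcodiag]
      linarith
    · rw [add_zero]
      exact h.sq_off i j hij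
  rw [h1]
  calc ∑ v, (2 * (G.degree v : ℤ) ^ 2 - G.degree v)
      = ∑ i, ∑ j, (((univ.filter (fun l => G.Adj i l ∧ G.Adj l j)).card : ℤ) +
        (if i = j then ((G.degree i : ℤ) ^ 2 - G.degree i) else 0)) := by
        simp only [Finset.sum_add_distrib]
        rw [sum_codeg]
        simp only [Finset.sum_ite_eq, Finset.mem_univ, if_true]
        rw [← Finset.sum_add_distrib]
        apply Finset.sum_congr rfl
        intro i _
        ring
    _ ≤ _ := Finset.sum_le_sum fun i _ => Finset.sum_le_sum fun j _ => h2 i j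

/-- row sum bound for the eigenvalues -/
lemma IsSigning.abs_eig_le (h : IsSigning G M) (d : ℕ) (hd : G.maxDegree ≤ d) (i : V) :
    |h.herm.eigenvalues i| ≤ d := by
  set A := M.map (Int.castRingHom ℝ) with hA
  have h1 : h.herm.eigenvalues i ∈ spectrum ℝ A := h.herm.eigenvalues_mem_spectrum_real i
  have h2 : Module.End.HasEigenvalue (Matrix.toLin' A) (h.herm.eigenvalues i) := by
    rw [Module.End.hasEigenvalue_iff_mem_spectrum, Matrix.spectrum_toLin']
    exact h1
  obtain ⟨k, hk⟩ := eigenvalue_mem_ball h2
  rw [Metric.mem_closedBall, Real.dist_eq] at hk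
  have h3 : A k k = 0 := by simp [hA, Matrix.map_apply, h.diag]
  rw [h3, sub_zero] at hk
  refine hk.trans ?_
  have h4 : ∑ j ∈ univ.erase k, ‖A k j‖ ≤ ∑ j, ‖A k j‖ :=
    Finset.sum_le_sum_of_subset_of_nonneg (Finset.erase_subset _ _)
      (fun _ _ _ => norm_nonneg _)
  have h5 : ∑ j, ‖A k j‖ = G.degree k := by
    have h6 : ∀ j, ‖A k j‖ = if G.Adj k j then 1 else 0 := by
      intro j
      rw [hA, Matrix.map_apply]
      split_ifs with hkj
      · rcases h.edge k j hkj with h7 | h7 <;> rw [h7] <;> simp
      · rw [h.nonedge k j hkj]; simp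
    simp only [h6]
    rw [Finset.sum_ite, Finset.sum_const_zero, add_zero, Finset.sum_const, nsmul_eq_mul, mul_one,
      ← G.card_neighborFinset_eq_degree]
    congr 2
    ext i
    simp
  have h7 : G.degree k ≤ d := (G.degree_le_maxDegree k).trans hd
  have h8 : (G.degree k : ℝ) ≤ d := by exact_mod_cast h7
  linarith

/-- A signing without negative four-cycles has all the required properties. -/
theorem IsSigning.good (h : IsSigning G M) (d : ℕ) (hd : G.maxDegree ≤ d) :
    Good (M.map (Int.castRingHom ℝ)) h.herm M d (fun v => G.degree v) := by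
  have hpow : ∀ n : ℕ, (M.map (Int.castRingHom ℝ)) ^ n = (M ^ n).map (Int.castRingHom ℝ) := by
    intro n
    have := map_pow (Int.castRingHom ℝ).mapMatrix M n
    exact this.symm
  have htr : ∀ N : Matrix V V ℤ, (N.map (Int.castRingHom ℝ)).trace = ((N.trace : ℤ) : ℝ) := by
    intro N
    simp [Matrix.trace]
  refine ⟨rfl, h.abs_eig_le d hd, fun v => (G.degree_le_maxDegree v).trans hd, ?_, ?_, ?_⟩
  · rw [htr]
    have : M.trace = 0 := by
      rw [Matrix.trace]
      apply Finset.sum_eq_zero
      intro i _
      rw [Matrix.diag_apply, h.diag]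
    rw [this]; simp
  · rw [hpow, htr]
    have : (M ^ 2).trace = ∑ v, (G.degree v : ℤ) := by
      rw [Matrix.trace]
      apply Finset.sum_congr rfl
      intro i _
      rw [Matrix.diag_apply, h.sq_diag]
    rw [this]; push_cast; rfl
  · rw [hpow, htr]
    have := h.trace_four
    have h2 : ((∑ v, (2 * (G.degree v : ℤ) ^ 2 - G.degree v) : ℤ) : ℝ) ≤ ((M ^ 4).trace : ℤ) := by
      exact_mod_cast this
    push_cast at h2
    exact h2

end

end Pool.Agent.KS6_66.MO
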